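import Mathlib
import Pool.Agent.Work.MP_286f1f_ag.Defs

universe u


/-! Bundle of small proof modules (one section per former module). -/

section

/-!
Growth of `k[[X_1..X_d]]/m^n` (item G0/G1 of the HMTW plan).
-/

set_option autoImplicit false

open Filter Polynomial

namespace HMTWU

open HMTW

namespace Growth

open MvPowerSeries Finsupp

variable {k : Type*} [Field k] {d : ℕ}

/-- The maximal ideal. -/
noncomputable abbrev mI (k : Type*) [Field k] (d : ℕ) : Ideal (MvPowerSeries (Fin d) k) :=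
  Ideal.span (Set.range (MvPowerSeries.X : Fin d → MvPowerSeries (Fin d) k))

theorem coeff_eq_zero_of_mem_pow (n : ℕ) (f : MvPowerSeries (Fin d) k) (hf : f ∈ mI k d ^ n) :
    (n : ℕ∞) ≤ f.order := by
  classical
  induction n generalizing f with
  | zero => simp
  | succ n ih =>
    rw [pow_succ] at hf
    refine Submodule.mul_induction_on hf ?_ ?_
    · intro a ha b hb
      have hb' : (1 : ℕ∞) ≤ b.order := by
        have : ∀ x ∈ mI k d, (1 : ℕ∞) ≤ x.order := by
          intro x hx
          refine Submodule.span_induction ?_ ?_ ?_ ?_ hx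
          · rintro _ ⟨i, rfl⟩
            apply MvPowerSeries.le_order
            intro e he
            rw [MvPowerSeries.coeff_X, if_neg]
            rintro rfl
            simp at he
          · simp
          · intro x y _ _ hx hy
            exact le_trans (le_min hx hy) (MvPowerSeries.min_order_le_add)
          · intro a x _ hx
            rw [smul_eq_mul]
            exact le_trans (le_trans hx le_add_self) MvPowerSeries.le_order_mul
        exact this b hb
      have := ih a ha
      calc ((n + 1 : ℕ) : ℕ∞) = (n : ℕ∞) + 1 := by push_cast; rfl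
        _ ≤ a.order + b.order := add_le_add this hb'
        _ ≤ (a * b).order := MvPowerSeries.le_order_mul
    · intro x y hx hy
      exact le_trans (le_min hx hy) (MvPowerSeries.min_order_le_add)

theorem mem_pow_of_coeff (n : ℕ) (f : MvPowerSeries (Fin d) k)
    (hf : ∀ x : Fin d →₀ ℕ, x.degree < n → MvPowerSeries.coeff x f = 0) : f ∈ mI k d ^ n := by
  classical
  induction n generalizing f with
  | zero => simp
  | succ n ih =>
    -- the partial quotients
    let g : Fin d → MvPowerSeries (Fin d) k := fun l x =>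
      if ∀ j, j < l → x j = 0 then MvPowerSeries.coeff (x + single l 1) f else 0
    have hg : ∀ l x, MvPowerSeries.coeff x (g l) =
        if ∀ j, j < l → x j = 0 then MvPowerSeries.coeff (x + single l 1) f else 0 :=
      fun l x => rfl
    have hmem : ∀ l, g l ∈ mI k d ^ n := by
      intro l
      apply ih
      intro x hx
      rw [hg]
      split_ifs with h
      · apply hf
        rw [map_add, degree_single]
        omega
      · rfl
    have hsum : f = ∑ l, g l * MvPowerSeries.X l := by
      ext x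
      rw [map_sum]
      have hterm : ∀ l, MvPowerSeries.coeff x (g l * MvPowerSeries.X l) =
          if (x l ≠ 0 ∧ ∀ j, j < l → x j = 0) then MvPowerSeries.coeff x f else 0 := by
        intro l
        rw [MvPowerSeries.X_def, MvPowerSeries.coeff_mul_monomial]
        by_cases hl : single l 1 ≤ x
        · have hxl : x l ≠ 0 := by
            have := hl l
            simp at this
            omega
          rw [if_pos hl, hg, mul_one]
          have hadd : x - single l 1 + single l 1 = x := tsub_add_cancel_of_le hl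
          rw [hadd]
          by_cases h : ∀ j, j < l → x j = 0
          · rw [if_pos, if_pos ⟨hxl, h⟩]
            intro j hj
            simp [h j hj]
          · rw [if_neg, if_neg (fun h' => h h'.2)]
            intro h'
            apply h
            intro j hj
            have := h' j hj
            simp only [coe_tsub, Pi.sub_apply, single_apply, if_neg (ne_of_gt hj)] at this
            simpa using this
        · have hxl : x l = 0 := by
            by_contra hne
            apply hl
            rw [single_le_iff]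
            omega
          rw [if_neg hl, if_neg (fun h' => h'.1 hxl)]
      rw [Finset.sum_congr rfl (fun l _ => hterm l)]
      by_cases hx : ∃ l, x l ≠ 0
      · -- first nonzero index
        obtain ⟨l, hl, hmin⟩ := WellFounded.has_min (wellFounded_lt (α := Fin d))
          {l | x l ≠ 0} hx
        rw [Finset.sum_eq_single l]
        · rw [if_pos]
          exact ⟨hl, fun j hj => by
            by_contra hne
            exact hmin j hne hj⟩
        · intro b _ hb
          rw [if_neg]
          rintro ⟨hb1, hb2⟩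
          rcases lt_trichotomy b l with h | h | h
          · exact hmin b hb1 h
          · exact hb h
          · exact hl (hb2 l h)
        · intro h
          exact absurd (Finset.mem_univ l) h
      · push Not at hx
        rw [Finset.sum_eq_zero]
        · apply hf
          have : x = 0 := by ext i; simp [hx i]
          rw [this]
          simp
        · intro l _
          rw [if_neg]
          rintro ⟨h, _⟩
          exact h (hx l)
    rw [hsum]
    apply Ideal.sum_mem
    intro l _
    rw [pow_succ]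
    exact Ideal.mul_mem_mul (hmem l) (Ideal.subset_span ⟨l, rfl⟩)

theorem mem_pow_iff (n : ℕ) (f : MvPowerSeries (Fin d) k) :
    f ∈ mI k d ^ n ↔ (n : ℕ∞) ≤ f.order := by
  refine ⟨coeff_eq_zero_of_mem_pow n f, fun h => mem_pow_of_coeff n f ?_⟩
  intro x hx
  apply MvPowerSeries.coeff_of_lt_order
  exact lt_of_lt_of_le (by exact_mod_cast hx) h

/-- exponents of degree `< n` -/
noncomputable def S (d n : ℕ) : Finset (Fin d →₀ ℕ) :=
  (Finset.range n).biUnion fun j => Finset.finsuppAntidiag Finset.univ j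

theorem mem_S {d n : ℕ} {x : Fin d →₀ ℕ} : x ∈ S d n ↔ x.degree < n := by
  classical
  simp [S, Finset.mem_finsuppAntidiag, Finsupp.degree_eq_sum]

theorem card_S (m n : ℕ) : (S (m + 1) n).card = (n + m).choose (m + 1) := by
  classical
  rw [S, Finset.card_biUnion]
  · simp only [Finset.card_finsuppAntidiag_nat_eq_choose, Finset.card_univ, Fintype.card_fin]
    induction n with
    | zero => simp
    | succ n ih =>
      rw [Finset.sum_range_succ, ih]
      have h1 : m + 1 + n - 1 = n + m := by omega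
      rw [h1, show n + 1 + m = (n + m) + 1 by ring, Nat.choose_succ_succ, add_comm]
      congr 1
      rw [add_comm n m]
      exact (Nat.choose_symm_add).symm
  · intro i _ j _ hij
    rw [Function.onFun, Finset.disjoint_left]
    intro x hx hx'
    rw [Finset.mem_finsuppAntidiag] at hx hx'
    exact hij (hx.1.symm.trans hx'.1)

/-- The polynomial with prescribed coefficients on `S d n`. -/
noncomputable def poly (k : Type*) [Field k] (d n : ℕ) :
    (S d n → k) →ₗ[k] MvPowerSeries (Fin d) k where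
  toFun c := fun x => if h : x ∈ S d n then c ⟨x, h⟩ else 0
  map_add' := by
    intro a b
    refine funext fun x => ?_
    change (if h : x ∈ S d n then (a + b) ⟨x, h⟩ else 0) =
      (if h : x ∈ S d n then a ⟨x, h⟩ else 0) + (if h : x ∈ S d n then b ⟨x, h⟩ else 0)
    split_ifs <;> simp
  map_smul' := by
    intro c a
    refine funext fun x => ?_
    change (if h : x ∈ S d n then (c • a) ⟨x, h⟩ else 0) =
      c * (if h : x ∈ S d n then a ⟨x, h⟩ else 0)
    split_ifs <;> simp

theorem coeff_poly {n : ℕ} (c : S d n → k) (x : Fin d →₀ ℕ) :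
    MvPowerSeries.coeff x (poly k d n c) = if h : x ∈ S d n then c ⟨x, h⟩ else 0 := rfl

theorem poly_order {n : ℕ} (c : S d n → k) (h : (n : ℕ∞) ≤ (poly k d n c).order) : c = 0 := by
  funext x
  have hx := mem_S.1 x.2
  have : MvPowerSeries.coeff x.1 (poly k d n c) = 0 := by
    apply MvPowerSeries.coeff_of_lt_order
    exact lt_of_lt_of_le (by exact_mod_cast hx) h
  rw [coeff_poly, dif_pos x.2] at this
  simpa using this

theorem sub_poly_mem (n : ℕ) (f : MvPowerSeries (Fin d) k) :
    f - poly k d n (fun x => MvPowerSeries.coeff x.1 f) ∈ mI k d ^ n := by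
  apply mem_pow_of_coeff
  intro x hx
  rw [map_sub, coeff_poly, dif_pos (mem_S.2 hx), sub_self]

/-- The basis of the quotient. -/
noncomputable def quotEquiv (k : Type*) [Field k] (d n : ℕ) :
    (S d n → k) ≃ₗ[k] (MvPowerSeries (Fin d) k ⧸ mI k d ^ n) :=
  LinearEquiv.ofBijective
    ((Ideal.Quotient.mkₐ k (mI k d ^ n)).toLinearMap.comp (poly k d n)) (by
      constructor
      · rw [← LinearMap.ker_eq_bot, LinearMap.ker_eq_bot']
        intro c hc
        apply poly_order
        rw [← mem_pow_iff]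
        exact Ideal.Quotient.eq_zero_iff_mem.1 hc
      · intro y
        obtain ⟨f, rfl⟩ := Ideal.Quotient.mk_surjective y
        refine ⟨fun x => MvPowerSeries.coeff x.1 f, ?_⟩
        change Ideal.Quotient.mk _ (poly k d n _) = Ideal.Quotient.mk _ f
        rw [eq_comm, Ideal.Quotient.eq]
        exact sub_poly_mem n f)

instance (n : ℕ) : Module.Finite k (MvPowerSeries (Fin d) k ⧸ mI k d ^ n) :=
  Module.Finite.equiv (quotEquiv k d n)

theorem finrank_quot (n : ℕ) :
    Module.finrank k (MvPowerSeries (Fin d) k ⧸ mI k d ^ n) = (S d n).card := by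
  rw [← (quotEquiv k d n).finrank_eq, Module.finrank_fintype_fun_eq_card, Fintype.card_coe]

end Growth

open Growth

/-- G0 -/
theorem length_map_pow_ne_top (k : Type*) [Field k] (d : ℕ) (O : Type*) [CommRing O] [Algebra k O]
    [Algebra (MvPowerSeries (Fin d) k) O] [IsScalarTower k (MvPowerSeries (Fin d) k) O]
    [Module.Finite (MvPowerSeries (Fin d) k) O] (n : ℕ) (I : Ideal O)
    (hI : ((Ideal.span (Set.range MvPowerSeries.X)) ^ n).map
        (algebraMap (MvPowerSeries (Fin d) k) O) ≤ I) :
    Module.length k (O ⧸ I) ≠ ⊤ := by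
  classical
  have key : Module.Finite k (O ⧸ I) := by
    obtain ⟨s, hs⟩ := (inferInstance : Module.Finite (MvPowerSeries (Fin d) k) O)
    -- linear map from (s -> quotients)
    let φ : (s → MvPowerSeries (Fin d) k) →ₗ[k] O :=
      { toFun := fun c => ∑ i, c i • (i : O)
        map_add' := by
          intro a b
          simp [add_smul, Finset.sum_add_distrib]
        map_smul' := by
          intro c a
          simp [Finset.smul_sum] }
    let ψ : (s → (S d n → k)) →ₗ[k] (O ⧸ I) :=
      (Ideal.Quotient.mkₐ k I).toLinearMap.comp (φ.comp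
        (LinearMap.pi fun i => (poly k d n).comp (LinearMap.proj i)))
    apply Module.Finite.of_surjective ψ
    intro y
    obtain ⟨o, rfl⟩ := Ideal.Quotient.mk_surjective y
    have ho : o ∈ Submodule.span (MvPowerSeries (Fin d) k) (s : Set O) := by
      rw [hs]; trivial
    rw [Submodule.mem_span_finset'] at ho
    obtain ⟨c, hc⟩ := ho
    refine ⟨fun i x => MvPowerSeries.coeff x.1 (c i), ?_⟩
    change Ideal.Quotient.mk I (∑ i : s,
      (poly k d n (fun x => MvPowerSeries.coeff x.1 (c i))) • (i : O)) = Ideal.Quotient.mk I o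
    rw [eq_comm, Ideal.Quotient.eq, ← hc, ← Finset.sum_sub_distrib]
    apply Ideal.sum_mem
    intro i _
    rw [← sub_smul, Algebra.smul_def]
    apply Ideal.mul_mem_right
    apply hI
    apply Ideal.mem_map_of_mem
    exact sub_poly_mem n (c i)
  rw [Module.length_eq_finrank]
  exact ENat.natCast_ne_top _

theorem Growth.length_quot (k : Type*) [Field k] (m n : ℕ) :
    Module.length k (MvPowerSeries (Fin (m + 1)) k ⧸ mI k (m + 1) ^ n) =
      (((n + m).choose (m + 1) : ℕ) : ℕ∞) := by
  rw [Module.length_eq_finrank, finrank_quot, card_S]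

theorem Growth.tendsto_choose (m s : ℕ) :
    Tendsto (fun n : ℕ => (((n - s + m).choose (m + 1) : ℕ) : ℝ) / (n : ℝ) ^ (m + 1)) atTop
      (nhds (1 / ((m + 1).factorial : ℝ))) := by
  have h1 := (Asymptotics.isEquivalent_iff_tendsto_one (by
    filter_upwards [eventually_gt_atTop 0] with n hn
    positivity)).1 (isEquivalent_choose (m + 1))
  have hN : Tendsto (fun n : ℕ => n - s + m) atTop atTop := by
    apply tendsto_atTop_mono (fun n => Nat.le_add_right (n - s) m)
    exact tendsto_sub_atTop_nat s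
  have h2 := h1.comp hN
  have h3 : Tendsto (fun n : ℕ => ((n - s + m : ℕ) : ℝ) / (n : ℝ)) atTop (nhds 1) := by
    have hz : Tendsto (fun n : ℕ => 1 + ((m : ℝ) - s) / (n : ℝ)) atTop (nhds (1 + 0)) :=
      tendsto_const_nhds.add (tendsto_const_div_atTop_nhds_zero_nat _)
    rw [add_zero] at hz
    refine hz.congr' ?_
    filter_upwards [eventually_gt_atTop s] with n hn
    have hn0 : (n : ℝ) ≠ 0 := by
      have : 0 < n := by omega
      positivity
    rw [Nat.cast_add, Nat.cast_sub hn.le]
    field_simp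
    ring
  have h4 := (h2.mul (h3.pow (m + 1))).div_const ((m + 1).factorial : ℝ)
  simp only [one_pow, mul_one] at h4
  refine h4.congr' ?_
  filter_upwards [eventually_gt_atTop s] with n hn
  have hn0 : (n : ℝ) ≠ 0 := by
    have : 0 < n := by omega
    positivity
  have hn1 : ((n - s + m : ℕ) : ℝ) ≠ 0 := by
    have : 0 < n - s + m := by omega
    positivity
  have hf : ((m + 1).factorial : ℝ) ≠ 0 := by positivity
  simp only [Function.comp_apply, Pi.div_apply]
  rw [div_pow]
  field_simp

/-- G1a -/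
theorem length_pow_le (k : Type*) [Field k] (m : ℕ) (ε : ℝ) (hε : 0 < ε) :
    ∀ᶠ n : ℕ in atTop,
      Module.length k (MvPowerSeries (Fin (m + 1)) k ⧸
        (Ideal.span (Set.range (MvPowerSeries.X : Fin (m + 1) → MvPowerSeries (Fin (m + 1)) k)))
          ^ n) ≠ ⊤ ∧
      ((Module.length k (MvPowerSeries (Fin (m + 1)) k ⧸
        (Ideal.span (Set.range (MvPowerSeries.X : Fin (m + 1) → MvPowerSeries (Fin (m + 1)) k)))
          ^ n)).toNat : ℝ) ≤ (1 / ((m + 1).factorial : ℝ) + ε) * (n : ℝ) ^ (m + 1) := by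
  have h := Growth.tendsto_choose m 0
  have h2 := h.eventually (gt_mem_nhds (lt_add_of_pos_right _ hε))
  filter_upwards [h2, eventually_gt_atTop 0] with n hn hn0
  have hlen := Growth.length_quot k m n
  refine ⟨?_, ?_⟩
  · rw [hlen]; exact ENat.natCast_ne_top _
  · rw [hlen, ENat.toNat_natCast]
    have hpos : (0 : ℝ) < (n : ℝ) ^ (m + 1) := by positivity
    rw [Nat.sub_zero] at hn
    rw [div_lt_iff₀ hpos] at hn
    exact hn.le

/-- G1b -/
theorem length_pow_sup_le (k : Type*) [Field k] (m : ℕ) (h : MvPowerSeries (Fin (m + 1)) k)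
    (hh : h ≠ 0) (ε : ℝ) (hε : 0 < ε) :
    ∀ᶠ n : ℕ in atTop,
      Module.length k (MvPowerSeries (Fin (m + 1)) k ⧸ (Ideal.span {h} ⊔
        (Ideal.span (Set.range (MvPowerSeries.X : Fin (m + 1) → MvPowerSeries (Fin (m + 1)) k)))
          ^ n)) ≠ ⊤ ∧
      ((Module.length k (MvPowerSeries (Fin (m + 1)) k ⧸ (Ideal.span {h} ⊔
        (Ideal.span (Set.range (MvPowerSeries.X : Fin (m + 1) → MvPowerSeries (Fin (m + 1)) k)))
          ^ n))).toNat : ℝ) ≤ ε * (n : ℝ) ^ (m + 1) := by
  classical
  -- order of h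
  have hord := (MvPowerSeries.ne_zero_iff_order_finite).1 hh
  set s : ℕ := h.order.toNat with hs
  have t1 := Growth.tendsto_choose m 0
  have t2 := Growth.tendsto_choose m s
  have t3 := t1.sub t2
  rw [sub_self] at t3
  have h3 := t3.eventually (gt_mem_nhds hε)
  filter_upwards [h3, eventually_gt_atTop s] with n hn hns
  have hn0 : 0 < n := by omega
  set J : Ideal (MvPowerSeries (Fin (m + 1)) k) := Ideal.span {h} ⊔ mI k (m + 1) ^ n with hJ
  have hle : mI k (m + 1) ^ n ≤ J := le_sup_right
  -- the projection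
  let π : (MvPowerSeries (Fin (m + 1)) k ⧸ mI k (m + 1) ^ n) →ₗ[k]
      (MvPowerSeries (Fin (m + 1)) k ⧸ J) := (Ideal.Quotient.factorₐ k hle).toLinearMap
  have hπ : Function.Surjective π := by
    intro y
    obtain ⟨f, rfl⟩ := Ideal.Quotient.mk_surjective y
    exact ⟨Ideal.Quotient.mk _ f, rfl⟩
  have : Module.Finite k (MvPowerSeries (Fin (m + 1)) k ⧸ J) := Module.Finite.of_surjective π hπ
  have hrank := LinearMap.finrank_range_add_finrank_ker π
  rw [LinearMap.range_eq_top.2 hπ, finrank_top, finrank_quot, card_S] at hrank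
  -- the injection
  let μ : (S (m + 1) (n - s) → k) →ₗ[k] (MvPowerSeries (Fin (m + 1)) k ⧸ mI k (m + 1) ^ n) :=
    (Ideal.Quotient.mkₐ k (mI k (m + 1) ^ n)).toLinearMap.comp
      ((LinearMap.mulLeft k h).comp (poly k (m + 1) (n - s)))
  have hμ : Function.Injective μ := by
    rw [← LinearMap.ker_eq_bot, LinearMap.ker_eq_bot']
    intro c hc
    apply poly_order
    have h1 : h * poly k (m + 1) (n - s) c ∈ mI k (m + 1) ^ n :=
      Ideal.Quotient.eq_zero_iff_mem.1 hc
    rw [mem_pow_iff, MvPowerSeries.order_mul, ← hord] at h1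
    have h2 : ((n - s : ℕ) : ℕ∞) + (s : ℕ∞) = (n : ℕ∞) := by
      rw [← Nat.cast_add, Nat.sub_add_cancel hns.le]
    rw [← h2, add_comm] at h1
    exact (WithTop.add_le_add_iff_left (ENat.natCast_ne_top s)).1 h1
  have hμker : ∀ c, μ c ∈ LinearMap.ker π := by
    intro c
    rw [LinearMap.mem_ker]
    change Ideal.Quotient.mk J (h * poly k (m + 1) (n - s) c) = 0
    rw [Ideal.Quotient.eq_zero_iff_mem]
    apply Ideal.mul_mem_right
    exact (le_sup_left : Ideal.span {h} ≤ J) (Ideal.mem_span_singleton_self h)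
  have hinj : Function.Injective (μ.codRestrict (LinearMap.ker π) hμker) := by
    intro a b hab
    apply hμ
    exact congrArg Subtype.val hab
  have hcard := LinearMap.finrank_le_finrank_of_injective hinj
  rw [Module.finrank_fintype_fun_eq_card, Fintype.card_coe, card_S] at hcard
  refine ⟨?_, ?_⟩
  · rw [Module.length_eq_finrank]; exact ENat.natCast_ne_top _
  · rw [Module.length_eq_finrank, ENat.toNat_natCast]
    have hpos : (0 : ℝ) < (n : ℝ) ^ (m + 1) := by positivity
    rw [Nat.sub_zero, ← sub_div, div_lt_iff₀ hpos] at hn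
    have e1 : (Module.finrank k (MvPowerSeries (Fin (m + 1)) k ⧸ J) : ℝ) +
        (Module.finrank k (LinearMap.ker π) : ℝ) = (((n + m).choose (m + 1) : ℕ) : ℝ) := by
      exact_mod_cast hrank
    have e2 : ((((n - s) + m).choose (m + 1) : ℕ) : ℝ) ≤ (Module.finrank k (LinearMap.ker π) : ℝ) := by
      exact_mod_cast hcard
    linarith

end HMTWU

end

section

/-!
The function `H` on ideals: everything except for the existence of the overring.
-/

set_option autoImplicit false

open Filter Polynomial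

namespace HMTWU

open HMTW

/-- Length inequality for a sequence that is exact in the middle. -/
theorem length_le_add_of_exact {k M N P : Type*} [Ring k] [AddCommGroup M] [AddCommGroup N]
    [AddCommGroup P] [Module k M] [Module k N] [Module k P] (f : N →ₗ[k] M) (g : M →ₗ[k] P)
    (h : Function.Exact f g) :
    Module.length k M ≤ Module.length k N + Module.length k P := by
  have h1 : Module.length k M = Module.length k (LinearMap.ker g) +
      Module.length k (LinearMap.range g) := by
    refine Module.length_eq_add_of_exact (LinearMap.ker g).subtype g.rangeRestrict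
      (Submodule.subtype_injective _) g.surjective_rangeRestrict ?_
    intro x
    rw [← LinearMap.mem_ker, LinearMap.ker_rangeRestrict]
    simp
  have h2 : Module.length k (LinearMap.ker g) ≤ Module.length k N := by
    rw [LinearMap.exact_iff.1 h]
    exact Module.length_le_of_surjective f.rangeRestrict f.surjective_rangeRestrict
  have h3 : Module.length k (LinearMap.range g) ≤ Module.length k P :=
    Module.length_le_of_injective (LinearMap.range g).subtype (Submodule.subtype_injective _)
  rw [h1]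
  exact add_le_add h2 h3

/-- Comparison of quotients along a linear map. -/
theorem length_quot_le {k M V : Type*} [Ring k] [AddCommGroup M] [AddCommGroup V]
    [Module k M] [Module k V] (f : M →ₗ[k] V) (P : Submodule k M) (Q T : Submodule k V)
    (hPQ : P ≤ Q.comap f) (hT : T ≤ LinearMap.range f) :
    Module.length k (V ⧸ Q) ≤ Module.length k (M ⧸ P) + Module.length k (V ⧸ T) := by
  let N : Submodule k V := Q ⊔ LinearMap.range f
  have hTN : T ≤ N := hT.trans le_sup_right
  have hQN : Q ≤ N := le_sup_left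
  let f1 : (M ⧸ P) →ₗ[k] (V ⧸ Q) := Submodule.mapQ P Q f hPQ
  let f2 : (V ⧸ Q) →ₗ[k] (V ⧸ N) := Submodule.factor hQN
  have hf1 : ∀ x, f1 (Submodule.Quotient.mk x) = Submodule.Quotient.mk (f x) := fun x => rfl
  have hf2 : ∀ x : V, f2 (Submodule.Quotient.mk x) = Submodule.Quotient.mk x := fun x => rfl
  have hex : Function.Exact f1 f2 := by
    intro y
    obtain ⟨y, rfl⟩ := Submodule.Quotient.mk_surjective _ y
    rw [hf2, Submodule.Quotient.mk_eq_zero]
    constructor
    · intro hy
      obtain ⟨u, hu, w, ⟨x, rfl⟩, huw⟩ := Submodule.mem_sup.1 hy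
      refine ⟨Submodule.Quotient.mk x, ?_⟩
      rw [hf1, ← huw, Submodule.Quotient.mk_add, (Submodule.Quotient.mk_eq_zero Q).2 hu, zero_add]
    · rintro ⟨x, hx⟩
      obtain ⟨x, rfl⟩ := Submodule.Quotient.mk_surjective _ x
      rw [hf1, Submodule.Quotient.eq] at hx
      have : y = -(f x - y) + f x := by abel
      rw [this]
      exact Submodule.add_mem_sup (neg_mem hx) ⟨x, rfl⟩
  refine (length_le_add_of_exact f1 f2 hex).trans ?_
  gcongr
  exact Module.length_le_of_surjective (Submodule.factor hTN) (Submodule.factor_surjective hTN)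

section

variable {k B : Type*} [Field k] [CommRing B] [Algebra k B]

theorem len_restrict (I : Ideal B) :
    Module.length k (B ⧸ I.restrictScalars k) = Module.length k (B ⧸ I) :=
  LinearEquiv.length_eq (Submodule.Quotient.restrictScalarsEquiv k I)

theorem len_anti {I J : Ideal B} (h : I ≤ J) :
    Module.length k (B ⧸ J) ≤ Module.length k (B ⧸ I) :=
  Module.length_le_of_surjective (Ideal.Quotient.factorₐ k h).toLinearMap
    (Ideal.Quotient.factor_surjective h)

/-- `length (B / z J) ≤ length (B / z) + length (B / J)`. -/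
theorem len_mul (z : B) (J : Ideal B) :
    Module.length k (B ⧸ (Ideal.span {z} * J)) ≤
      Module.length k (B ⧸ Ideal.span {z}) + Module.length k (B ⧸ J) := by
  let J' : Submodule k B := J.restrictScalars k
  let I' : Submodule k B := (Ideal.span {z} * J).restrictScalars k
  have h1 : J' ≤ I'.comap (LinearMap.mulLeft k z) := by
    intro x hx
    exact Ideal.mul_mem_mul (Ideal.mem_span_singleton_self z) hx
  let f : (B ⧸ J) →ₗ[k] (B ⧸ (Ideal.span {z} * J)) :=
    Submodule.mapQ J' I' (LinearMap.mulLeft k z) h1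
  let g : (B ⧸ (Ideal.span {z} * J)) →ₗ[k] (B ⧸ Ideal.span {z}) :=
    (Ideal.Quotient.factorₐ k (Ideal.mul_le_left : Ideal.span {z} * J ≤ Ideal.span {z})).toLinearMap
  have hfm : ∀ x : B, f (Ideal.Quotient.mk J x) = Ideal.Quotient.mk _ (z * x) := fun x => rfl
  have hgm : ∀ x : B, g (Ideal.Quotient.mk _ x) = Ideal.Quotient.mk _ x := fun x => rfl
  have hex : Function.Exact f g := by
    intro y
    obtain ⟨y, rfl⟩ := Ideal.Quotient.mk_surjective y
    rw [hgm, Ideal.Quotient.eq_zero_iff_mem, Ideal.mem_span_singleton]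
    constructor
    · rintro ⟨x, rfl⟩
      exact ⟨Ideal.Quotient.mk J x, hfm x⟩
    · rintro ⟨x, hx⟩
      obtain ⟨x, rfl⟩ := Ideal.Quotient.mk_surjective x
      rw [hfm, Ideal.Quotient.eq] at hx
      have h2 : z * x - y ∈ Ideal.span {z} := Ideal.mul_le_left hx
      rw [Ideal.mem_span_singleton] at h2
      have h3 := dvd_sub (Dvd.intro x rfl) h2
      simpa using h3
  rw [add_comm]
  exact length_le_add_of_exact f g hex

end

section

open PowerSeries

variable {k : Type*} [Field k]

/-- For a free module over power series, the length of `M / X^q M`. -/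
theorem len_X_pow {B : Type*} [CommRing B] [Algebra k⟦X⟧ B] [Algebra k B]
    [IsScalarTower k k⟦X⟧ B] [Module.Free k⟦X⟧ B] [Module.Finite k⟦X⟧ B] (q : ℕ) :
    Module.length k (B ⧸ Ideal.span {algebraMap k⟦X⟧ B (PowerSeries.X ^ q)}) =
      ((Module.finrank k⟦X⟧ B * q : ℕ) : ℕ∞) := by
  classical
  let bs := Module.Free.chooseBasis k⟦X⟧ B
  let ι := Module.Free.ChooseBasisIndex k⟦X⟧ B
  let L : B →ₗ[k] (ι × Fin q → k) :=
    { toFun := fun b p => PowerSeries.coeff (p.2 : ℕ) (bs.repr b p.1)
      map_add' := by intro x y; ext p; simp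
      map_smul' := by
        intro c x
        ext p
        rw [← IsScalarTower.algebraMap_smul k⟦X⟧ c x]
        simp [PowerSeries.coeff_C_mul] }
  have hL : ∀ b p, L b p = PowerSeries.coeff (p.2 : ℕ) (bs.repr b p.1) := fun b p => rfl
  have hsurj : Function.Surjective L := by
    intro v
    refine ⟨bs.equivFun.symm (fun i => PowerSeries.mk fun n =>
      if h : n < q then v (i, ⟨n, h⟩) else 0), ?_⟩
    ext ⟨i, j⟩
    rw [hL, ← Module.Basis.equivFun_apply, LinearEquiv.apply_symm_apply]
    simp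
  have hker : LinearMap.ker L =
      (Ideal.span {algebraMap k⟦X⟧ B (PowerSeries.X ^ q)}).restrictScalars k := by
    ext b
    rw [LinearMap.mem_ker, Submodule.restrictScalars_mem, Ideal.mem_span_singleton]
    constructor
    · intro h
      have h1 : ∀ i, (PowerSeries.X ^ q : k⟦X⟧) ∣ bs.repr b i := by
        intro i
        rw [PowerSeries.X_pow_dvd_iff]
        intro m hm
        have := congrFun h (i, ⟨m, hm⟩)
        rwa [hL] at this
      choose c hc using h1
      refine ⟨bs.equivFun.symm c, ?_⟩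
      rw [← Algebra.smul_def]
      apply bs.equivFun.injective
      ext1 i
      rw [map_smul, LinearEquiv.apply_symm_apply, Pi.smul_apply, smul_eq_mul, ← hc,
        Module.Basis.equivFun_apply]
    · rintro ⟨c, rfl⟩
      ext ⟨i, j⟩
      rw [hL, ← Algebra.smul_def, map_smul, Finsupp.smul_apply, smul_eq_mul,
        PowerSeries.coeff_X_pow_mul', if_neg (by simp)]
      rfl
  have h1 : Module.length k (B ⧸ Ideal.span {algebraMap k⟦X⟧ B (PowerSeries.X ^ q)}) =
      Module.length k (ι × Fin q → k) := by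
    have e := L.quotKerEquivOfSurjective hsurj
    rw [hker] at e
    exact LinearEquiv.length_eq e
  rw [h1, Module.length_eq_finrank, Module.finrank_pi, Fintype.card_prod, Fintype.card_fin,
    Module.finrank_eq_card_chooseBasisIndex]

/-- A nonzero power series divides a power of `X`. -/
theorem exists_dvd_X_pow (g : k⟦X⟧) (hg : g ≠ 0) : ∃ n, g ∣ (PowerSeries.X : k⟦X⟧) ^ n := by
  obtain ⟨n, hn⟩ := IsDiscreteValuationRing.associated_pow_irreducible hg
    (PowerSeries.X_prime (R := k)).irreducible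
  exact ⟨n, hn.dvd⟩

/-- Finiteness of the length, general form. -/
theorem len_ne_top {B : Type*} [CommRing B] [Algebra k⟦X⟧ B] [Algebra k B]
    [IsScalarTower k k⟦X⟧ B] [Module.Free k⟦X⟧ B] [Module.Finite k⟦X⟧ B] {I : Ideal B} {n : ℕ}
    (hI : algebraMap k⟦X⟧ B (PowerSeries.X ^ n) ∈ I) : Module.length k (B ⧸ I) ≠ ⊤ := by
  have h1 : Ideal.span {algebraMap k⟦X⟧ B (PowerSeries.X ^ n)} ≤ I := by
    rw [Ideal.span_singleton_le_iff_mem]; exact hI
  have h2 := len_anti (k := k) h1
  rw [len_X_pow] at h2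
  exact ne_top_of_le_ne_top (ENat.natCast_ne_top _) h2

theorem len_ne_top' {B : Type*} [CommRing B] [Algebra k⟦X⟧ B] [Algebra k B]
    [IsScalarTower k k⟦X⟧ B] [Module.Free k⟦X⟧ B] [Module.Finite k⟦X⟧ B] (s : k⟦X⟧) (hs : s ≠ 0) :
    Module.length k (B ⧸ Ideal.span {algebraMap k⟦X⟧ B s}) ≠ ⊤ := by
  obtain ⟨n, hn⟩ := exists_dvd_X_pow s hs
  apply len_ne_top (n := n)
  rw [Ideal.mem_span_singleton]
  exact map_dvd _ hn

/-- The function `H`, for a given overring. -/
theorem exists_H_of_overring {R₁ B : Type*} [CommRing R₁] [CommRing B] [Algebra k⟦X⟧ R₁]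
    [Algebra k R₁] [IsScalarTower k k⟦X⟧ R₁] [Module.Free k⟦X⟧ R₁] [Module.Finite k⟦X⟧ R₁]
    [Algebra k⟦X⟧ B] [Algebra k B] [IsScalarTower k k⟦X⟧ B] [Module.Free k⟦X⟧ B]
    [Module.Finite k⟦X⟧ B] (φ : R₁ →ₐ[k⟦X⟧] B)
    (s : k⟦X⟧) (hs : s ≠ 0) (hsb : ∀ b : B, s • b ∈ φ.range)
    (hprin : ∀ I : Ideal B, (∃ s : k⟦X⟧, s ≠ 0 ∧ algebraMap k⟦X⟧ B s ∈ I) → I.IsPrincipal)
    (g : k⟦X⟧) (hg : g ≠ 0) :
    ∃ (H : Ideal R₁ → ℕ) (D : ℕ),
      (∀ K K' : Ideal R₁, (∃ n, algebraMap k⟦X⟧ R₁ (PowerSeries.X ^ n) ∈ K) →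
        (∃ n, algebraMap k⟦X⟧ R₁ (PowerSeries.X ^ n) ∈ K') → H (K * K') ≤ H K + H K') ∧
      (∀ K K' : Ideal R₁, (∃ n, algebraMap k⟦X⟧ R₁ (PowerSeries.X ^ n) ∈ K) →
        K ≤ K' → H K' ≤ H K) ∧
      H ⊤ = 0 ∧
      (∀ K K' : Ideal R₁, (∃ n, algebraMap k⟦X⟧ R₁ (PowerSeries.X ^ n) ∈ K) →
        (∀ v ∈ K', algebraMap k⟦X⟧ R₁ g * v ∈ K) →
        (H K : ℕ∞) ≤ Module.length k (R₁ ⧸ K') + (D : ℕ∞)) ∧
      (∀ (K : Ideal R₁) (q : ℕ), (∃ n, algebraMap k⟦X⟧ R₁ (PowerSeries.X ^ n) ∈ K) →
        (∀ v ∈ K, algebraMap k⟦X⟧ R₁ g * v ∈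
          Ideal.span {algebraMap k⟦X⟧ R₁ (PowerSeries.X ^ q)}) →
        Module.finrank k⟦X⟧ B * q ≤ H K + D) := by
  classical
  have hmem : ∀ K : Ideal R₁, (∃ n, algebraMap k⟦X⟧ R₁ (PowerSeries.X ^ n) ∈ K) →
      ∃ n, algebraMap k⟦X⟧ B (PowerSeries.X ^ n) ∈ K.map φ := by
    rintro K ⟨n, hn⟩
    refine ⟨n, ?_⟩
    rw [← φ.commutes]
    exact Ideal.mem_map_of_mem _ hn
  have hfin : ∀ K : Ideal R₁, (∃ n, algebraMap k⟦X⟧ R₁ (PowerSeries.X ^ n) ∈ K) →
      Module.length k (B ⧸ K.map φ) ≠ ⊤ := by
    intro K hK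
    obtain ⟨n, hn⟩ := hmem K hK
    exact len_ne_top hn
  have hcast : ∀ K : Ideal R₁, (∃ n, algebraMap k⟦X⟧ R₁ (PowerSeries.X ^ n) ∈ K) →
      (((Module.length k (B ⧸ K.map φ)).toNat : ℕ) : ℕ∞) = Module.length k (B ⧸ K.map φ) :=
    fun K hK => ENat.natCast_toNat (hfin K hK)
  have hsfin : Module.length k (B ⧸ Ideal.span {algebraMap k⟦X⟧ B s}) ≠ ⊤ := len_ne_top' s hs
  have hg1fin : Module.length k (R₁ ⧸ Ideal.span {algebraMap k⟦X⟧ R₁ g}) ≠ ⊤ := len_ne_top' g hg
  have hg2fin : Module.length k (B ⧸ Ideal.span {algebraMap k⟦X⟧ B g}) ≠ ⊤ := len_ne_top' g hg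
  set D1 := (Module.length k (B ⧸ Ideal.span {algebraMap k⟦X⟧ B s})).toNat with hD1
  set D2 := (Module.length k (R₁ ⧸ Ideal.span {algebraMap k⟦X⟧ R₁ g})).toNat with hD2
  set D3 := (Module.length k (B ⧸ Ideal.span {algebraMap k⟦X⟧ B g})).toNat with hD3
  have eD1 : (D1 : ℕ∞) = Module.length k (B ⧸ Ideal.span {algebraMap k⟦X⟧ B s}) :=
    ENat.natCast_toNat hsfin
  have eD2 : (D2 : ℕ∞) = Module.length k (R₁ ⧸ Ideal.span {algebraMap k⟦X⟧ R₁ g}) :=
    ENat.natCast_toNat hg1fin
  have eD3 : (D3 : ℕ∞) = Module.length k (B ⧸ Ideal.span {algebraMap k⟦X⟧ B g}) :=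
    ENat.natCast_toNat hg2fin
  refine ⟨fun K => (Module.length k (B ⧸ K.map φ)).toNat, D1 + D2 + D3, ?_, ?_, ?_, ?_, ?_⟩
  · -- submultiplicativity
    intro K K' hK hK'
    have hKK : ∃ n, algebraMap k⟦X⟧ R₁ (PowerSeries.X ^ n) ∈ K * K' := by
      obtain ⟨n, hn⟩ := hK
      obtain ⟨n', hn'⟩ := hK'
      refine ⟨n + n', ?_⟩
      rw [pow_add, map_mul]
      exact Ideal.mul_mem_mul hn hn'
    obtain ⟨n, hn⟩ := hmem K hK
    obtain ⟨z, hz⟩ := (hprin (K.map φ) ⟨PowerSeries.X ^ n,
      pow_ne_zero _ PowerSeries.X_ne_zero, hn⟩).principal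
    have h1 := len_mul (k := k) z (K'.map φ)
    have h2 : K.map φ = Ideal.span {z} := hz
    rw [← h2, ← Ideal.map_mul, ← hcast K hK, ← hcast K' hK', ← hcast _ hKK] at h1
    exact_mod_cast h1
  · -- monotonicity
    intro K K' hK hKK'
    exact ENat.toNat_le_toNat (len_anti (Ideal.map_mono hKK')) (hfin K hK)
  · -- the unit ideal
    have : Subsingleton (B ⧸ (⊤ : Ideal R₁).map φ) := by
      rw [Ideal.map_top]
      exact Ideal.Quotient.subsingleton_iff.2 rfl
    simp only
    rw [Module.length_eq_zero]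
    rfl
  · -- upper bound
    intro K K' hK hgK
    have h1 : Module.length k (B ⧸ K.map φ) ≤ Module.length k (R₁ ⧸ K) + D1 := by
      have h := length_quot_le (φ.restrictScalars k).toLinearMap (K.restrictScalars k)
        ((K.map φ).restrictScalars k) ((Ideal.span {algebraMap k⟦X⟧ B s}).restrictScalars k)
        (by intro x hx; exact Ideal.mem_map_of_mem φ hx)
        (by
          intro x hx
          rw [Submodule.restrictScalars_mem, Ideal.mem_span_singleton] at hx
          obtain ⟨c, rfl⟩ := hx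
          obtain ⟨y, hy⟩ := hsb c
          rw [← Algebra.smul_def]
          exact ⟨y, hy⟩)
      rwa [len_restrict, len_restrict, len_restrict, ← eD1] at h
    have h3 : Module.length k (R₁ ⧸ K) ≤ D2 + Module.length k (R₁ ⧸ K') := by
      rw [eD2]
      refine le_trans (len_anti ?_) (len_mul (algebraMap k⟦X⟧ R₁ g) K')
      rw [Ideal.span_singleton_mul_le_iff]
      exact hgK
    rw [hcast K hK]
    calc Module.length k (B ⧸ K.map φ) ≤ Module.length k (R₁ ⧸ K) + D1 := h1
      _ ≤ (D2 + Module.length k (R₁ ⧸ K')) + D1 := by gcongr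
      _ ≤ Module.length k (R₁ ⧸ K') + ((D1 + D2 + D3 : ℕ) : ℕ∞) := by
        push_cast
        rw [show (D2 : ℕ∞) + Module.length k (R₁ ⧸ K') + D1 =
          Module.length k (R₁ ⧸ K') + (D1 + D2) by ring]
        exact add_le_add le_rfl le_self_add
  · -- lower bound
    intro K q hK hgK
    have h1 : Ideal.span {algebraMap k⟦X⟧ B g} * K.map φ ≤
        Ideal.span {algebraMap k⟦X⟧ B (PowerSeries.X ^ q)} := by
      have h2 : Ideal.span {algebraMap k⟦X⟧ R₁ g} * K ≤
          Ideal.span {algebraMap k⟦X⟧ R₁ (PowerSeries.X ^ q)} := by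
        rw [Ideal.span_singleton_mul_le_iff]
        exact hgK
      have h3 := Ideal.map_mono (f := φ) h2
      rw [Ideal.map_mul, Ideal.map_span, Ideal.map_span, Set.image_singleton,
        Set.image_singleton, AlgHom.commutes, AlgHom.commutes] at h3
      exact h3
    have h2 := (len_anti (k := k) h1).trans (len_mul _ _)
    rw [len_X_pow, ← hcast K hK, ← eD3] at h2
    have h3 : Module.finrank k⟦X⟧ B * q ≤ D3 + (Module.length k (B ⧸ K.map φ)).toNat := by
      exact_mod_cast h2
    simp only
    omega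

end

end HMTWU

end

section

/-!
Item C1: a product of principal ideal rings containing `S[X]/(f)` over a discrete valuation ring.
-/

set_option autoImplicit false

open Filter Polynomial

namespace HMTWU

open HMTW

/-- The conclusion of item C1. -/
def GoodOver {S : Type u} [CommRing S] (f : S[X]) : Prop :=
    ∃ (B : Type u) (_ : CommRing B) (_ : Algebra S B) (φ : AdjoinRoot f →ₐ[S] B),
      Module.Free S B ∧ Module.Finite S B ∧ Module.finrank S B = f.natDegree ∧
      (∃ s : S, s ≠ 0 ∧ ∀ b : B, s • b ∈ φ.range) ∧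
      ∀ I : Ideal B, (∃ s : S, s ≠ 0 ∧ algebraMap S B s ∈ I) → I.IsPrincipal

theorem good_one {S : Type u} [CommRing S] [IsDomain S] : GoodOver (1 : S[X]) := by
  have h10 : (1 : AdjoinRoot (1 : S[X])) = 0 := by
    rw [← map_one (AdjoinRoot.mk (1 : S[X])), AdjoinRoot.mk_self]
  have : Subsingleton (AdjoinRoot (1 : S[X])) := subsingleton_of_zero_eq_one h10.symm
  refine ⟨AdjoinRoot (1 : S[X]), inferInstance, inferInstance, AlgHom.id S _, inferInstance,
    inferInstance, ?_, ⟨1, one_ne_zero, fun b => ⟨_, rfl⟩⟩, fun I _ => ?_⟩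
  · rw [natDegree_one, Module.finrank_zero_of_subsingleton]
  · exact ⟨⟨0, Subsingleton.elim _ _⟩⟩

theorem good_irr {S : Type u} [CommRing S] [IsDomain S] [IsDiscreteValuationRing S]
    (f : S[X]) (hf : f.Monic) (a b : S[X]) (δ : S) (hδ : δ ≠ 0)
    (hab : a * f + b * derivative f = C δ) (hirr : Irreducible f) : GoodOver f := by
  classical
  let K := FractionRing S
  let fK : K[X] := f.map (algebraMap S K)
  have hfK : fK.Monic := hf.map _
  have hirrK : Irreducible fK := (Monic.irreducible_iff_irreducible_map_fraction_map hf).1 hirr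
  have : Fact (Irreducible fK) := ⟨hirrK⟩
  let L := AdjoinRoot fK
  have hδK : algebraMap S K δ ≠ 0 := by
    intro h
    exact hδ ((injective_iff_map_eq_zero _).1 (IsFractionRing.injective S K) _ h)
  have hsep : fK.Separable := by
    refine ⟨C (algebraMap S K δ)⁻¹ * a.map (algebraMap S K),
      C (algebraMap S K δ)⁻¹ * b.map (algebraMap S K), ?_⟩
    have := congrArg (Polynomial.map (algebraMap S K)) hab
    rw [Polynomial.map_add, Polynomial.map_mul, Polynomial.map_mul, Polynomial.map_C,
      ← Polynomial.derivative_map] at this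
    rw [mul_assoc, mul_assoc, ← mul_add, this, ← C_mul, inv_mul_cancel₀ hδK, C_1]
  have : FiniteDimensional K L := hfK.finite_adjoinRoot
  have hsepL : Algebra.IsSeparable K L := by
    have h1 : IsSeparable K (AdjoinRoot.root fK) := by
      rw [IsSeparable, AdjoinRoot.minpoly_root hfK.ne_zero, hfK.leadingCoeff]
      simpa using hsep
    have h2 := (IntermediateField.isSeparable_adjoin_simple_iff_isSeparable K L).2 h1
    rw [IntermediateField.adjoin_root_eq_top] at h2
    exact (AlgEquiv.Algebra.isSeparable_iff IntermediateField.topEquiv).1 h2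
  let B := integralClosure S L
  have hfin : Module.Finite S B := IsIntegralClosure.finite S K L B
  have htf : Module.IsTorsionFree S L := .trans_faithfulSMul S K L
  have hfree : Module.Free S B := IsIntegralClosure.module_free S K L B
  have hrank : Module.finrank S B = Module.finrank K L := IsIntegralClosure.rank S K L B
  have hded : IsDedekindDomain B := integralClosure.isDedekindDomain S K L
  have hint : Algebra.IsIntegral S B := IsIntegralClosure.isIntegral_algebra S L
  have hpid : IsPrincipalIdealRing B := by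
    apply IsPrincipalIdealRing.of_finite_maximals
    refine (IsDedekindDomain.primesOver_finite (IsLocalRing.maximalIdeal S) B).subset ?_
    intro P hP
    have hP' : P.IsMaximal := hP
    refine ⟨hP'.isPrime, ⟨?_⟩⟩
    have : (P.under S).IsMaximal := Ideal.isMaximal_comap_of_isIntegral_of_isMaximal P
    exact (IsLocalRing.eq_maximalIdeal this).symm
  have hroot : IsIntegral S (AdjoinRoot.root fK) := by
    refine ⟨f, hf, ?_⟩
    have := AdjoinRoot.eval₂_root fK
    rw [Polynomial.eval₂_map] at this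
    exact this
  let x : B := ⟨AdjoinRoot.root fK, hroot⟩
  have hx : aeval x f = 0 := by
    apply Subtype.ext
    have h1 : ((aeval x f : B) : L) = aeval (x : L) f := by
      exact (Polynomial.aeval_algHom_apply (B.val) x f).symm
    rw [h1]
    have := AdjoinRoot.eval₂_root fK
    rw [Polynomial.eval₂_map] at this
    exact this
  let φ : AdjoinRoot f →ₐ[S] B := AdjoinRoot.liftAlgHom f (Algebra.ofId S B) x hx
  refine ⟨B, inferInstance, inferInstance, φ, hfree, hfin, ?_, ?_, fun I _ => inferInstance⟩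
  · rw [hrank, (AdjoinRoot.powerBasis' hfK).finrank, AdjoinRoot.powerBasis'_dim,
      hf.natDegree_map]
  · -- every element has a multiple in the range
    have hone : ∀ y : B, ∃ s : S, s ≠ 0 ∧ s • y ∈ φ.range := by
      intro y
      obtain ⟨P, hP⟩ := AdjoinRoot.mk_surjective (y : L)
      obtain ⟨c, hcM, hc⟩ := IsLocalization.integerNormalization_spec (nonZeroDivisors S) P
      have hc0 : c ≠ 0 := nonZeroDivisors.ne_zero hcM
      refine ⟨c, hc0, AdjoinRoot.mk f
        (IsLocalization.integerNormalization (nonZeroDivisors S) P), ?_⟩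
      apply Subtype.ext
      have hφ : ∀ Q : S[X], ((φ (AdjoinRoot.mk f Q) : B) : L) =
          AdjoinRoot.mk fK (Q.map (algebraMap S K)) := by
        intro Q
        have h1 : φ (AdjoinRoot.mk f Q) = aeval x Q := by
          rw [← AdjoinRoot.aeval_eq, ← Polynomial.aeval_algHom_apply]
          congr 2
          exact AdjoinRoot.liftAlgHom_root _ _ _ _
        have h2 : ((aeval x Q : B) : L) = aeval (x : L) Q :=
          (Polynomial.aeval_algHom_apply (B.val) x Q).symm
        rw [h1, h2, ← AdjoinRoot.aeval_eq, Polynomial.aeval_map_algebraMap]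
      refine (hφ _).trans ?_
      rw [hc]
      change AdjoinRoot.mk fK (c • P) = c • (y : L)
      rw [← hP, AdjoinRoot.smul_mk]
    have hone' : ∀ y : B, ∃ s : S, s ≠ 0 ∧ s • y ∈ φ.range := hone
    obtain ⟨T, hT⟩ := hfin.fg_top
    choose s hs0 hs using hone'
    refine ⟨∏ t ∈ T, s t, Finset.prod_ne_zero_iff.2 fun t _ => hs0 t, fun y => ?_⟩
    have hy : y ∈ Submodule.span S (T : Set B) := by rw [hT]; trivial
    induction hy using Submodule.span_induction with
    | mem t ht =>
      rw [← Finset.prod_erase_mul _ _ ht, mul_smul]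
      exact Subalgebra.smul_mem _ (hs t) _
    | zero => rw [smul_zero]; exact Subalgebra.zero_mem _
    | add u v _ _ hu hv => rw [smul_add]; exact Subalgebra.add_mem _ hu hv
    | smul r u _ hu => rw [smul_comm]; exact Subalgebra.smul_mem _ hu r

theorem good_mul {S : Type u} [CommRing S] [IsDomain S] (g h : S[X]) (hg : g.Monic) (hh : h.Monic)
    (P Q : S[X]) (δ : S) (hδ : δ ≠ 0) (hPQ : g * P + h * Q = C δ)
    (Hg : GoodOver g) (Hh : GoodOver h) : GoodOver (g * h) := by
  obtain ⟨B₁, _, _, φ₁, hfree₁, hfin₁, hrk₁, ⟨s₁, hs₁, hr₁⟩, hI₁⟩ := Hg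
  obtain ⟨B₂, _, _, φ₂, hfree₂, hfin₂, hrk₂, ⟨s₂, hs₂, hr₂⟩, hI₂⟩ := Hh
  have e₁ : AdjoinRoot.mk g (g * h) = 0 := by
    rw [AdjoinRoot.mk_eq_zero]; exact dvd_mul_right _ _
  have e₂ : AdjoinRoot.mk h (g * h) = 0 := by
    rw [AdjoinRoot.mk_eq_zero]; exact dvd_mul_left _ _
  let π₁ : AdjoinRoot (g * h) →ₐ[S] AdjoinRoot g :=
    AdjoinRoot.liftAlgHom (g * h) (Algebra.ofId S _) (AdjoinRoot.root g) (by
      have := e₁
      rw [← AdjoinRoot.aeval_eq] at this
      exact this)
  let π₂ : AdjoinRoot (g * h) →ₐ[S] AdjoinRoot h :=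
    AdjoinRoot.liftAlgHom (g * h) (Algebra.ofId S _) (AdjoinRoot.root h) (by
      have := e₂
      rw [← AdjoinRoot.aeval_eq] at this
      exact this)
  have hπ₁ : ∀ R : S[X], π₁ (AdjoinRoot.mk _ R) = AdjoinRoot.mk g R := by
    intro R
    rw [← AdjoinRoot.aeval_eq, ← Polynomial.aeval_algHom_apply, ← AdjoinRoot.aeval_eq]
    congr 2
    exact AdjoinRoot.liftAlgHom_root _ _ _ _
  have hπ₂ : ∀ R : S[X], π₂ (AdjoinRoot.mk _ R) = AdjoinRoot.mk h R := by
    intro R
    rw [← AdjoinRoot.aeval_eq, ← Polynomial.aeval_algHom_apply, ← AdjoinRoot.aeval_eq]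
    congr 2
    exact AdjoinRoot.liftAlgHom_root _ _ _ _
  let φ : AdjoinRoot (g * h) →ₐ[S] B₁ × B₂ := AlgHom.prod (φ₁.comp π₁) (φ₂.comp π₂)
  refine ⟨B₁ × B₂, inferInstance, inferInstance, φ, inferInstance, inferInstance, ?_, ?_, ?_⟩
  · rw [Module.finrank_prod, hrk₁, hrk₂, hg.natDegree_mul hh]
  · refine ⟨δ * (s₁ * s₂), mul_ne_zero hδ (mul_ne_zero hs₁ hs₂), ?_⟩
    rintro ⟨b₁, b₂⟩
    obtain ⟨u, hu⟩ := hr₁ b₁
    obtain ⟨v, hv⟩ := hr₂ b₂
    obtain ⟨U, rfl⟩ := AdjoinRoot.mk_surjective u
    obtain ⟨V, rfl⟩ := AdjoinRoot.mk_surjective v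
    refine ⟨AdjoinRoot.mk _ (C s₂ * U * (h * Q) + C s₁ * V * (g * P)), ?_⟩
    have k₁ : AdjoinRoot.mk g (C s₂ * U * (h * Q) + C s₁ * V * (g * P)) =
        (δ * s₂) • AdjoinRoot.mk g U := by
      rw [AdjoinRoot.smul_mk, AdjoinRoot.mk_eq_mk]
      refine ⟨C s₁ * V * P - C s₂ * U * P, ?_⟩
      rw [smul_eq_C_mul, C_mul, ← hPQ]
      ring
    have k₂ : AdjoinRoot.mk h (C s₂ * U * (h * Q) + C s₁ * V * (g * P)) =
        (δ * s₁) • AdjoinRoot.mk h V := by
      rw [AdjoinRoot.smul_mk, AdjoinRoot.mk_eq_mk]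
      refine ⟨C s₂ * U * Q - C s₁ * V * Q, ?_⟩
      rw [smul_eq_C_mul, C_mul, ← hPQ]
      ring
    have m₁ : φ₁ (AdjoinRoot.mk g U) = s₁ • b₁ := hu
    have m₂ : φ₂ (AdjoinRoot.mk h V) = s₂ • b₂ := hv
    apply Prod.ext
    · change φ₁ (π₁ _) = (δ * (s₁ * s₂)) • b₁
      rw [hπ₁, k₁, map_smul, m₁, smul_smul]
      congr 1
      ring
    · change φ₂ (π₂ _) = (δ * (s₁ * s₂)) • b₂
      rw [hπ₂, k₂, map_smul, m₂, smul_smul]
      congr 1
      ring
  · rintro I ⟨s, hs, hsI⟩
    have h₁ : (I.map (RingHom.fst B₁ B₂)).IsPrincipal := by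
      refine hI₁ _ ⟨s, hs, ?_⟩
      exact Ideal.mem_map_of_mem (RingHom.fst B₁ B₂) hsI
    have h₂ : (I.map (RingHom.snd B₁ B₂)).IsPrincipal := by
      refine hI₂ _ ⟨s, hs, ?_⟩
      exact Ideal.mem_map_of_mem (RingHom.snd B₁ B₂) hsI
    obtain ⟨x, hx⟩ := h₁.principal
    obtain ⟨y, hy⟩ := h₂.principal
    refine ⟨⟨(x, y), ?_⟩⟩
    rw [Ideal.ideal_prod_eq I, hx, hy]
    ext ⟨u, v⟩
    rw [Ideal.mem_prod, Submodule.mem_span_singleton, Submodule.mem_span_singleton,
      Submodule.mem_span_singleton]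
    constructor
    · rintro ⟨⟨c, hc⟩, ⟨d, hd⟩⟩
      exact ⟨(c, d), Prod.ext hc hd⟩
    · rintro ⟨⟨c, d⟩, hcd⟩
      exact ⟨⟨c, congrArg Prod.fst hcd⟩, ⟨d, congrArg Prod.snd hcd⟩⟩

theorem good_of_hab {S : Type u} [CommRing S] [IsDomain S] [IsDiscreteValuationRing S] (n : ℕ) :
    ∀ (f : S[X]) (_ : f.Monic) (_ : f.natDegree ≤ n) (a b : S[X]) (δ : S) (_ : δ ≠ 0)
    (_ : a * f + b * derivative f = C δ), GoodOver f := by
  induction n with
  | zero =>
    intro f hf hn a b δ hδ hab
    have : f = 1 := hf.natDegree_eq_zero.1 (by omega)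
    rw [this]
    exact good_one
  | succ n ih =>
    intro f hf hn a b δ hδ hab
    by_cases h1 : f = 1
    · rw [h1]; exact good_one
    by_cases hirr : Irreducible f
    · exact good_irr f hf a b δ hδ hab hirr
    rw [hf.irreducible_iff_natDegree] at hirr
    push Not at hirr
    obtain ⟨g, h, hg, hh, hgh, hg0, hh0⟩ := hirr h1
    have hdeg : f.natDegree = g.natDegree + h.natDegree := by
      rw [← hgh, hg.natDegree_mul hh]
    have hd : derivative f = derivative g * h + g * derivative h := by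
      rw [← hgh, derivative_mul]
    have E1 : (a * h + b * derivative h) * g + (b * h) * derivative g = C δ := by
      rw [← hab, hd, ← hgh]; ring
    have E2 : (a * g + b * derivative g) * h + (b * g) * derivative h = C δ := by
      rw [← hab, hd, ← hgh]; ring
    have E3 : g * (a * h + b * derivative h) + h * (b * derivative g) = C δ := by
      rw [← hab, hd, ← hgh]; ring
    rw [← hgh]
    exact good_mul g h hg hh _ _ δ hδ E3 (ih g hg (by omega) _ _ δ hδ E1)
      (ih h hh (by omega) _ _ δ hδ E2)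

/-- C1 -/
theorem exists_overring {S : Type u} [CommRing S] [IsDomain S] [IsDiscreteValuationRing S]
    (f : S[X]) (hf : f.Monic) (a b : S[X]) (δ : S) (hδ : δ ≠ 0)
    (hab : a * f + b * derivative f = C δ) :
    ∃ (B : Type u) (_ : CommRing B) (_ : Algebra S B) (φ : AdjoinRoot f →ₐ[S] B),
      Module.Free S B ∧ Module.Finite S B ∧ Module.finrank S B = f.natDegree ∧
      (∃ s : S, s ≠ 0 ∧ ∀ b : B, s • b ∈ φ.range) ∧
      ∀ I : Ideal B, (∃ s : S, s ≠ 0 ∧ algebraMap S B s ∈ I) → I.IsPrincipal :=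
  good_of_hab f.natDegree f hf le_rfl a b δ hδ hab

end HMTWU

end

section

/-! A lower bound for sums over lattice points of a simplex. -/

set_option autoImplicit false

open Filter Polynomial

namespace HMTWU

open HMTW

theorem sb_pow_sub (a b : ℝ) (hb : 0 ≤ b) (hab : b ≤ a) (n : ℕ) :
    a ^ (n + 1) - b ^ (n + 1) ≤ (n + 1) * (a - b) * a ^ n := by
  induction n with
  | zero => simp
  | succ n ih =>
    have h1 : b ^ (n + 1) ≤ a ^ (n + 1) := pow_le_pow_left₀ hb hab _
    have ha : 0 ≤ a := hb.trans hab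
    have h2 := mul_le_mul_of_nonneg_left ih ha
    have h3 := mul_le_mul_of_nonneg_left h1 (sub_nonneg.2 hab)
    push_cast
    calc a ^ (n + 1 + 1) - b ^ (n + 1 + 1)
        = a * (a ^ (n + 1) - b ^ (n + 1)) + (a - b) * b ^ (n + 1) := by ring
      _ ≤ a * ((n + 1) * (a - b) * a ^ n) + (a - b) * a ^ (n + 1) := add_le_add h2 h3
      _ = ((n : ℝ) + 1 + 1) * (a - b) * a ^ (n + 1) := by ring

/-- one variable -/
theorem sb_one (μ : ℝ) (hμ : 0 < μ) (k : ℕ) (hk : 1 ≤ k) (B : ℕ) :
    ∀ T : ℝ, 0 ≤ T → T ≤ μ * B →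
      T ^ (k + 1) / ((k + 1) * μ) ≤ ∑ i ∈ Finset.range B, (max 0 (T - μ * (i : ℝ))) ^ k := by
  induction B with
  | zero =>
    intro T hT hTB
    have : T = 0 := by
      apply le_antisymm _ hT
      simpa using hTB
    rw [this]
    simp
  | succ B ih =>
    intro T hT hTB
    rw [Finset.sum_range_succ']
    have e0 : max 0 (T - μ * ((0 : ℕ) : ℝ)) = T := by
      rw [Nat.cast_zero, mul_zero, sub_zero]; exact max_eq_right hT
    rw [e0]
    have e1 : ∀ i : ℕ, max 0 (T - μ * ((i + 1 : ℕ) : ℝ)) = max 0 ((T - μ) - μ * (i : ℝ)) := by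
      intro i
      congr 1
      push_cast
      ring
    simp only [e1]
    have hk1 : (0 : ℝ) < (k + 1) * μ := by positivity
    rcases le_total μ T with h | h
    · have h1 := ih (T - μ) (by linarith) (by push_cast at hTB; linarith)
      have h2 := sb_pow_sub T (T - μ) (by linarith) (by linarith) k
      have h3 : T ^ (k + 1) / ((k + 1) * μ) ≤ (T - μ) ^ (k + 1) / ((k + 1) * μ) + T ^ k := by
        rw [div_add' _ _ _ hk1.ne', div_le_div_iff_of_pos_right hk1]
        have e : T - (T - μ) = μ := by ring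
        rw [e] at h2
        linarith
      linarith
    · have h1 : 0 ≤ ∑ i ∈ Finset.range B, (max 0 ((T - μ) - μ * (i : ℝ))) ^ k :=
        Finset.sum_nonneg fun i _ => pow_nonneg (le_max_left _ _) _
      have h3 : T ^ (k + 1) / ((k + 1) * μ) ≤ T ^ k := by
        rw [div_le_iff₀ hk1, pow_succ]
        have h4 : 0 ≤ T ^ k := pow_nonneg hT _
        have h5 : (0 : ℝ) ≤ k := Nat.cast_nonneg k
        apply mul_le_mul_of_nonneg_left _ h4
        nlinarith
      linarith

/-- splitting off one variable -/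
theorem sb_split (m B : ℕ) (f : (Fin (m + 1) → ℕ) → ℝ) :
    ∑ i ∈ Fintype.piFinset (fun _ : Fin (m + 1) => Finset.range B), f i =
      ∑ a ∈ Finset.range B, ∑ j ∈ Fintype.piFinset (fun _ : Fin m => Finset.range B),
        f (Fin.cons a j) := by
  rw [← Finset.sum_product']
  refine Finset.sum_nbij' (fun i => (i 0, Fin.tail i)) (fun p => Fin.cons p.1 p.2) ?_ ?_ ?_ ?_ ?_
  · intro i hi
    rw [Fintype.mem_piFinset] at hi
    rw [Finset.mem_product, Fintype.mem_piFinset]
    exact ⟨hi 0, fun l => hi l.succ⟩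
  · intro p hp
    rw [Finset.mem_product, Fintype.mem_piFinset] at hp
    rw [Fintype.mem_piFinset]
    intro l
    refine Fin.cases ?_ (fun l' => ?_) l
    · exact hp.1
    · rw [Fin.cons_succ]
      exact hp.2 l'
  · intro i _
    exact Fin.cons_self_tail i
  · intro p _
    simp
  · intro i _
    rw [Fin.cons_self_tail]

theorem sb_gen (m : ℕ) : ∀ (μ : Fin m → ℝ) (_ : ∀ l, 0 < μ l) (k : ℕ) (_ : 1 ≤ k) (B : ℕ)
    (T : ℝ) (_ : 0 ≤ T) (_ : ∀ l, T ≤ μ l * B),
    (k.factorial : ℝ) / ((k + m).factorial : ℝ) * T ^ (k + m) / ∏ l, μ l ≤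
      ∑ i ∈ Fintype.piFinset (fun _ : Fin m => Finset.range B),
        (max 0 (T - ∑ l, μ l * (i l : ℝ))) ^ k := by
  induction m with
  | zero =>
    intro μ _ k _ B T hT _
    have hf : (k.factorial : ℝ) ≠ 0 := by positivity
    simp [hT, hf]
  | succ m ih =>
    intro μ hμ k hk B T hT hTB
    rw [sb_split]
    have hP : 0 < ∏ l : Fin m, μ l.succ := Finset.prod_pos fun l _ => hμ _
    -- the inner sums
    have h1 : ∀ a ∈ Finset.range B,
        (k.factorial : ℝ) / ((k + m).factorial : ℝ) * (max 0 (T - μ 0 * (a : ℝ))) ^ (k + m) /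
          ∏ l : Fin m, μ l.succ ≤
        ∑ j ∈ Fintype.piFinset (fun _ : Fin m => Finset.range B),
          (max 0 (T - ∑ l, μ l * ((Fin.cons a j : Fin (m + 1) → ℕ) l : ℝ))) ^ k := by
      intro a _
      have e1 : ∀ j : Fin m → ℕ, T - ∑ l, μ l * ((Fin.cons a j : Fin (m + 1) → ℕ) l : ℝ) =
          (T - μ 0 * (a : ℝ)) - ∑ l : Fin m, μ l.succ * (j l : ℝ) := by
        intro j
        rw [Fin.sum_univ_succ]
        simp only [Fin.cons_zero, Fin.cons_succ]
        ring
      simp only [e1]
      rcases le_total 0 (T - μ 0 * (a : ℝ)) with h | h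
      · rw [max_eq_right h]
        refine ih (fun l => μ l.succ) (fun l => hμ _) k hk B _ h (fun l => ?_)
        have h2 := hTB l.succ
        have h3 : 0 ≤ μ 0 * (a : ℝ) := mul_nonneg (hμ 0).le (Nat.cast_nonneg a)
        linarith
      · rw [max_eq_left h, zero_pow (by omega), mul_zero, zero_div]
        exact Finset.sum_nonneg fun j _ => pow_nonneg (le_max_left _ _) _
    refine le_trans ?_ (Finset.sum_le_sum h1)
    rw [← Finset.sum_div, ← Finset.mul_sum]
    have h2 := sb_one (μ 0) (hμ 0) (k + m) (by omega) B T hT (hTB 0)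
    have hc : (0 : ℝ) < (k.factorial : ℝ) / ((k + m).factorial : ℝ) := by positivity
    have h3 := mul_le_mul_of_nonneg_left h2 hc.le
    have h4 := div_le_div_of_nonneg_right h3 hP.le
    refine le_trans (le_of_eq ?_) h4
    rw [Fin.prod_univ_succ]
    have e2 : ((k + (m + 1)).factorial : ℝ) = (k + m + 1) * ((k + m).factorial : ℝ) := by
      rw [← Nat.add_assoc, Nat.factorial_succ]
      push_cast
      ring
    rw [e2]
    have hf : ((k + m).factorial : ℝ) ≠ 0 := by positivity
    have hμ0 : μ 0 ≠ 0 := (hμ 0).ne'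
    have hk0 : (k : ℝ) + m + 1 ≠ 0 := by positivity
    push_cast
    field_simp
    rfl

/-- A2 -/
theorem sum_bound (m : ℕ) (μ : Fin m → ℝ) (hμ : ∀ l, 0 < μ l) (T : ℝ) (hT : 0 ≤ T) :
    ∃ B : ℕ, T ^ (m + 1) / (((m + 1).factorial : ℝ) * ∏ l, μ l) ≤
      ∑ i ∈ Fintype.piFinset (fun _ : Fin m => Finset.range B),
        max 0 (T - ∑ l, μ l * (i l : ℝ)) := by
  -- the size of the box
  obtain ⟨B, hB⟩ : ∃ B : ℕ, ∀ l, T ≤ μ l * B := by
    have h : ∀ l, ∃ B : ℕ, T ≤ μ l * B := by
      intro l
      obtain ⟨B, hB⟩ := exists_nat_ge (T / μ l)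
      refine ⟨B, ?_⟩
      rw [div_le_iff₀ (hμ l)] at hB
      linarith
    choose b hb using h
    refine ⟨∑ l, b l, fun l => (hb l).trans ?_⟩
    apply mul_le_mul_of_nonneg_left _ (hμ l).le
    exact_mod_cast Finset.single_le_sum (f := b) (fun _ _ => Nat.zero_le _) (Finset.mem_univ l)
  refine ⟨B, ?_⟩
  have h := sb_gen m μ hμ 1 le_rfl B T hT hB
  simp only [pow_one, Nat.factorial_one, Nat.cast_one] at h
  refine le_trans (le_of_eq ?_) h
  rw [Nat.add_comm 1 m]
  have hP : (∏ l, μ l) ≠ 0 := (Finset.prod_pos fun l _ => hμ l).ne'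
  have hf : ((m + 1).factorial : ℝ) ≠ 0 := by positivity
  field_simp

end HMTWU

end

section

set_option autoImplicit false
open Filter Polynomial
namespace HMTWU

open HMTW

namespace Weights

lemma nsmul_sub {m : ℕ} (G : ℕ → (Fin m → ℕ) → ℕ)
    (hsub : ∀ (n n' : ℕ) (i i' : Fin m → ℕ), G (n + n') (i + i') ≤ G n i + G n' i')
    (n : ℕ) (i : Fin m → ℕ) (M : ℕ) :
    G ((M + 1) * n) ((M + 1) • i) ≤ (M + 1) * G n i := by
  induction M with
  | zero => simp
  | succ M ih =>
    have h := hsub ((M + 1) * n) n ((M + 1) • i) i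
    have e1 : (M + 1 + 1) * n = (M + 1) * n + n := by ring
    have e2 : (M + 1 + 1) • i = (M + 1) • i + i := succ_nsmul i (M + 1)
    have e3 : (M + 1 + 1) * G n i = (M + 1) * G n i + G n i := by ring
    rw [e1, e2, e3]
    omega

lemma key {m : ℕ} (G : ℕ → (Fin m → ℕ) → ℕ) (r : ℕ) (C : ℝ)
    (hsub : ∀ (n n' : ℕ) (i i' : Fin m → ℕ), G (n + n') (i + i') ≤ G n i + G n' i')
    (q N : ℕ → ℕ) (hq : Tendsto q atTop atTop) (c : ℝ)
    (hc : Tendsto (fun e => (N e : ℝ) / (q e : ℝ)) atTop (nhds c))
    (hlow : ∀ (e n : ℕ) (i : Fin m → ℕ), N e ≤ n → (∀ l, i l < q e) →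
      (r : ℝ) * q e - C ≤ G n i) (n : ℕ) (hn : 1 ≤ n) (i : Fin m → ℕ)
    (hi : ∀ l, c * i l < n) : (r : ℝ) * n ≤ c * G n i := by
  have hn0 : (0 : ℝ) < n := by exact_mod_cast hn
  have hqR : Tendsto (fun e => (q e : ℝ)) atTop atTop :=
    tendsto_natCast_atTop_atTop.comp hq
  have hinv : Tendsto (fun e => ((q e : ℝ))⁻¹) atTop (nhds 0) :=
    tendsto_inv_atTop_zero.comp hqR
  -- the ratio M/q
  have hM : Tendsto (fun e => (N e : ℝ) / (q e : ℝ) / n + (q e : ℝ)⁻¹) atTop (nhds (c / n)) := by
    have := (hc.div_const (n : ℝ)).add hinv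
    simpa using this
  have hev : ∀ l, ∀ᶠ e in atTop, ((N e : ℝ) / (q e : ℝ) / n + (q e : ℝ)⁻¹) * i l < 1 := by
    intro l
    have h1 := hM.mul_const (i l : ℝ)
    have h2 : c / n * (i l : ℝ) < 1 := by
      rw [div_mul_eq_mul_div, div_lt_one hn0]; exact hi l
    exact h1.eventually (gt_mem_nhds h2)
  have hev' : ∀ᶠ e in atTop, ∀ l, ((N e : ℝ) / (q e : ℝ) / n + (q e : ℝ)⁻¹) * i l < 1 :=
    eventually_all.mpr hev
  have hqpos : ∀ᶠ e in atTop, 0 < (q e : ℝ) := hqR.eventually_gt_atTop 0
  -- final inequality, eventually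
  have hfin : ∀ᶠ e in atTop, (r : ℝ) - C * (q e : ℝ)⁻¹ ≤
      ((N e : ℝ) / (q e : ℝ) / n + (q e : ℝ)⁻¹) * G n i := by
    filter_upwards [hev', hqpos] with e he hqe
    set M : ℕ := N e / n with hMdef
    have hMn : N e ≤ (M + 1) * n := by
      have := Nat.lt_div_mul_add (a := N e) (b := n) (by omega)
      rw [add_mul, one_mul]
      exact this.le
    have hMle : ((M : ℝ) + 1) ≤ ((N e : ℝ) / (q e : ℝ) / n + (q e : ℝ)⁻¹) * q e := by
      have h1 : (M : ℝ) ≤ (N e : ℝ) / n := Nat.cast_div_le
      have h2 : ((N e : ℝ) / (q e : ℝ) / n + (q e : ℝ)⁻¹) * q e = (N e : ℝ) / n + 1 := by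
        field_simp
      rw [h2]; linarith
    have hil : ∀ l, ((M + 1) • i) l < q e := by
      intro l
      have h1 : (((M + 1) • i) l : ℝ) = ((M : ℝ) + 1) * i l := by
        simp
      have h2 : (((M + 1) • i) l : ℝ) < q e := by
        rw [h1]
        calc ((M : ℝ) + 1) * i l ≤ (((N e : ℝ) / (q e : ℝ) / n + (q e : ℝ)⁻¹) * q e) * i l :=
              mul_le_mul_of_nonneg_right hMle (by positivity)
          _ = (((N e : ℝ) / (q e : ℝ) / n + (q e : ℝ)⁻¹) * i l) * q e := by ring
          _ < 1 * q e := mul_lt_mul_of_pos_right (he l) hqe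
          _ = q e := one_mul _
      exact_mod_cast h2
    have h3 := hlow e ((M + 1) * n) ((M + 1) • i) hMn hil
    have h4 : (G ((M + 1) * n) ((M + 1) • i) : ℝ) ≤ ((M : ℝ) + 1) * G n i := by
      exact_mod_cast nsmul_sub G hsub n i M
    have h5 : (r : ℝ) * q e - C ≤
        (((N e : ℝ) / (q e : ℝ) / n + (q e : ℝ)⁻¹) * q e) * G n i :=
      h3.trans (h4.trans (mul_le_mul_of_nonneg_right hMle (by positivity)))
    have h6 : ((r : ℝ) - C * (q e : ℝ)⁻¹) * q e ≤
        (((N e : ℝ) / (q e : ℝ) / n + (q e : ℝ)⁻¹) * G n i) * q e := by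
      have : ((r : ℝ) - C * (q e : ℝ)⁻¹) * q e = (r : ℝ) * q e - C := by
        field_simp
      rw [this]
      calc _ ≤ _ := h5
        _ = _ := by ring
    exact le_of_mul_le_mul_right h6 hqe
  have hl : Tendsto (fun e => (r : ℝ) - C * (q e : ℝ)⁻¹) atTop (nhds (r : ℝ)) := by
    have := (tendsto_const_nhds (x := (r : ℝ))).sub (hinv.const_mul C)
    simpa using this
  have hr' : Tendsto (fun e => ((N e : ℝ) / (q e : ℝ) / n + (q e : ℝ)⁻¹) * (G n i : ℝ)) atTop
      (nhds (c / n * G n i)) := hM.mul_const _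
  have hle := le_of_tendsto_of_tendsto hl hr' hfin
  rw [div_mul_eq_mul_div, le_div_iff₀ hn0] at hle
  exact hle

/-- the open convex set -/
def C0 {m : ℕ} (G : ℕ → (Fin m → ℕ) → ℕ) : Set ((Fin m → ℝ) × ℝ) :=
  {p | ∃ (n : ℕ) (i : Fin m → ℕ), 1 ≤ n ∧ (∀ l, (i l : ℝ) / n < p.1 l) ∧ (G n i : ℝ) / n < p.2}

lemma isOpen_C0 {m : ℕ} (G : ℕ → (Fin m → ℕ) → ℕ) : IsOpen (C0 G) := by
  have : C0 G = ⋃ (n : ℕ) (i : Fin m → ℕ) (_ : 1 ≤ n),
      ((⋂ l, {p : (Fin m → ℝ) × ℝ | (i l : ℝ) / n < p.1 l}) ∩
        {p : (Fin m → ℝ) × ℝ | (G n i : ℝ) / n < p.2}) := by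
    ext p
    simp only [C0, Set.mem_ofPred_eq, Set.mem_iUnion, Set.mem_inter_iff, Set.mem_iInter,
      exists_prop]
  rw [this]
  refine isOpen_iUnion fun n => isOpen_iUnion fun i => isOpen_iUnion fun _ => IsOpen.inter ?_ ?_
  · refine isOpen_iInter_of_finite fun l => ?_
    exact isOpen_lt continuous_const ((continuous_apply l).comp continuous_fst)
  · exact isOpen_lt continuous_const continuous_snd

lemma convex_C0 {m : ℕ} (G : ℕ → (Fin m → ℕ) → ℕ)
    (hsub : ∀ (n n' : ℕ) (i i' : Fin m → ℕ), G (n + n') (i + i') ≤ G n i + G n' i') :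
    Convex ℝ (C0 G) := by
  rintro ⟨y, z⟩ ⟨n, i, hn, hy, hz⟩ ⟨y', z'⟩ ⟨n', i', hn', hy', hz'⟩ a b ha hb hab
  have hn0 : (0 : ℝ) < n := by exact_mod_cast hn
  have hn0' : (0 : ℝ) < n' := by exact_mod_cast hn'
  simp only at hy hz hy' hz'
  rcases ha.eq_or_lt with ha0 | ha0
  · subst ha0
    have : b = 1 := by linarith
    subst this
    refine ⟨n', i', hn', ?_, ?_⟩
    · intro l; simpa using hy' l
    · simpa using hz'
  rcases hb.eq_or_lt with hb0 | hb0
  · subst hb0
    have : a = 1 := by linarith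
    subst this
    refine ⟨n, i, hn, ?_, ?_⟩
    · intro l; simpa using hy l
    · simpa using hz
  -- approximate a by a rational in (0,1)
  have hcont : ∀ u v U : ℝ, a * u + (1 - a) * v < U →
      ∀ᶠ t in nhds a, t * u + (1 - t) * v < U := by
    intro u v U h
    have hc : Continuous (fun t : ℝ => t * u + (1 - t) * v) := by fun_prop
    exact (hc.tendsto a).eventually (gt_mem_nhds h)
  have hb1 : b = 1 - a := by linarith
  subst hb1
  have hev1 : ∀ l, ∀ᶠ t in nhds a, t * ((i l : ℝ) / n) + (1 - t) * ((i' l : ℝ) / n') <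
      a * y l + (1 - a) * y' l := by
    intro l
    apply hcont
    have h1 := mul_lt_mul_of_pos_left (hy l) ha0
    have h2 := mul_lt_mul_of_pos_left (hy' l) hb0
    linarith
  have hev2 : ∀ᶠ t in nhds a, t * ((G n i : ℝ) / n) + (1 - t) * ((G n' i' : ℝ) / n') <
      a * z + (1 - a) * z' := by
    apply hcont
    have h1 := mul_lt_mul_of_pos_left hz ha0
    have h2 := mul_lt_mul_of_pos_left hz' hb0
    linarith
  have hev3 : ∀ᶠ t in nhds a, 0 < t ∧ t < 1 :=
    (lt_mem_nhds ha0).and (gt_mem_nhds (by linarith))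
  have hev := (eventually_all.mpr hev1).and (hev2.and hev3)
  obtain ⟨_, ⟨w, rfl⟩, hw1, hw2, hw3, hw4⟩ :=
    (Rat.isDenseEmbedding_coe_real.dense.inter_nhds_nonempty hev)
  have hw3' : 0 < w := by exact_mod_cast hw3
  have hw4' : w < 1 := by exact_mod_cast hw4
  obtain ⟨p, hp⟩ : ∃ p : ℕ, w.num = p := ⟨w.num.toNat, (Int.toNat_of_nonneg (by
    have := Rat.num_pos.mpr hw3'; omega)).symm⟩
  have hd : 0 < w.den := w.den_pos
  have hwp : (w : ℝ) = (p : ℝ) / w.den := by
    rw [Rat.cast_def, hp, Int.cast_natCast]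
  have hp0 : 0 < p := by
    have := Rat.num_pos.mpr hw3'; omega
  have hpd : p < w.den := by
    have hd' : (0 : ℝ) < w.den := by exact_mod_cast hd
    rw [hwp, div_lt_one hd'] at hw4
    exact_mod_cast hw4
  obtain ⟨p', hp'⟩ : ∃ p' : ℕ, w.den = p + p' := Nat.exists_eq_add_of_lt hpd |>.elim
    fun k hk => ⟨k + 1, by omega⟩
  have hp0' : 0 < p' := by omega
  have hwe : (w : ℝ) = (p : ℝ) / ((p : ℝ) + p') := by
    rw [hwp, hp']; push_cast; rfl
  have hpp : (0 : ℝ) < (p : ℝ) + p' := by positivity
  have hwe' : 1 - (w : ℝ) = (p' : ℝ) / ((p : ℝ) + p') := by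
    rw [hwe]; field_simp; ring
  have hcomb : ∀ u v : ℝ, (((p * n' : ℕ) : ℝ) * u + ((p' * n : ℕ) : ℝ) * v) /
      ((p * n' * n + p' * n * n' : ℕ) : ℝ) = (w : ℝ) * (u / n) + (1 - w) * (v / n') := by
    intro u v
    rw [hwe', hwe]
    push_cast
    have h1 : (p : ℝ) * n' * n + p' * n * n' = (p + p') * (n * n') := by ring
    rw [h1]
    field_simp
  refine ⟨p * n' * n + p' * n * n', (p * n') • i + (p' * n) • i', ?_, ?_, ?_⟩
  · have : 0 < p * n' * n := by positivity
    omega
  · intro l
    have h1 := hw1 l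
    have h2 : ((((p * n') • i + (p' * n) • i') l : ℕ) : ℝ) =
        ((p * n' : ℕ) : ℝ) * (i l : ℝ) + ((p' * n : ℕ) : ℝ) * (i' l : ℝ) := by
      simp
    rw [h2, hcomb]
    simpa using h1
  · have h1 : G (p * n' * n + p' * n * n') ((p * n') • i + (p' * n) • i') ≤
        (p * n') * G n i + (p' * n) * G n' i' := by
      refine (hsub _ _ _ _).trans ?_
      have h2 := nsmul_sub G hsub n i (p * n' - 1)
      have h3 := nsmul_sub G hsub n' i' (p' * n - 1)
      have h4 : 0 < p * n' := by positivity
      have h5 : 0 < p' * n := by positivity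
      rw [Nat.sub_add_cancel h4] at h2
      rw [Nat.sub_add_cancel h5] at h3
      omega
    have h2 : (G (p * n' * n + p' * n * n') ((p * n') • i + (p' * n) • i') : ℝ) ≤
        ((p * n' : ℕ) : ℝ) * (G n i : ℝ) + ((p' * n : ℕ) : ℝ) * (G n' i' : ℝ) := by
      exact_mod_cast h1
    have h3 : (0 : ℝ) < ((p * n' * n + p' * n * n' : ℕ) : ℝ) := by
      have : 0 < p * n' * n := by positivity
      have : 0 < p * n' * n + p' * n * n' := by omega
      exact_mod_cast this
    calc (G (p * n' * n + p' * n * n') ((p * n') • i + (p' * n) • i') : ℝ) /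
          ((p * n' * n + p' * n * n' : ℕ) : ℝ) ≤ _ := div_le_div_of_nonneg_right h2 h3.le
      _ = _ := hcomb _ _
      _ < _ := by simpa using hw2

lemma decomp {m : ℕ} (f : ((Fin m → ℝ) × ℝ) →L[ℝ] ℝ) (y : Fin m → ℝ) (z : ℝ) :
    f (y, z) = ∑ l, y l * f (Pi.single l 1, 0) + z * f (0, 1) := by
  have h1 : (y, z) = (y, (0 : ℝ)) + z • ((0 : Fin m → ℝ), (1 : ℝ)) := by
    simp
  have h2 : f (y, 0) = ∑ l, y l * f (Pi.single l 1, 0) := by
    have h := LinearMap.pi_apply_eq_sum_univ
      ((f.comp (ContinuousLinearMap.inl ℝ (Fin m → ℝ) ℝ)).toLinearMap) y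
    simp only [ContinuousLinearMap.coe_coe, ContinuousLinearMap.comp_apply,
      ContinuousLinearMap.inl_apply, smul_eq_mul] at h
    rw [h]
    apply Finset.sum_congr rfl
    intro l _
    congr 3
    ext j
    simp [Pi.single_apply, eq_comm]
  rw [h1, map_add, map_smul, h2, smul_eq_mul]

end Weights

/-- A1 -/
theorem exists_weights (m : ℕ) (G : ℕ → (Fin m → ℕ) → ℕ) (r : ℕ) (hr : 0 < r) (C : ℝ)
    (hsub : ∀ (n n' : ℕ) (i i' : Fin m → ℕ), G (n + n') (i + i') ≤ G n i + G n' i')
    (s : ℕ) (hs : ∀ l, G 1 (Pi.single l s) = 0)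
    (q N : ℕ → ℕ) (hq : Tendsto q atTop atTop) (c : ℝ)
    (hc : Tendsto (fun e => (N e : ℝ) / (q e : ℝ)) atTop (nhds c))
    (hlow : ∀ (e n : ℕ) (i : Fin m → ℕ), N e ≤ n → (∀ l, i l < q e) →
      (r : ℝ) * q e - C ≤ G n i) :
    0 < c ∧ ∃ μ : Fin m → ℝ, (∀ l, 0 < μ l) ∧
      ∀ (n : ℕ) (i : Fin m → ℕ), 1 ≤ n →
        (n : ℝ) * ((∑ l, μ l) + r) / c - ∑ l, μ l * (i l : ℝ) ≤ (G n i : ℝ) := by
  classical
  have hN : ∀ e, (0 : ℝ) ≤ (N e : ℝ) / (q e : ℝ) := fun e => by positivity
  have hc0 : 0 ≤ c := ge_of_tendsto' hc hN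
  have hkey := Weights.key G r C hsub q N hq c hc hlow
  have hcpos : 0 < c := by
    have h1 := hkey 1 le_rfl 0 (by intro l; simp)
    have hr' : (1 : ℝ) ≤ r := by exact_mod_cast hr
    rcases hc0.eq_or_lt with h | h
    · rw [← h] at h1
      simp at h1
      exact absurd h1 hr.ne'
    · exact h
  refine ⟨hcpos, ?_⟩
  -- the separated set
  set U : Set ((Fin m → ℝ) × ℝ) := {p | (∀ l, p.1 l ≤ 1 / c) ∧ p.2 ≤ r / c} with hU
  have hUc : Convex ℝ U := by
    rintro ⟨y, z⟩ ⟨hy, hz⟩ ⟨y', z'⟩ ⟨hy', hz'⟩ a b ha hb hab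
    simp only at hy hz hy' hz'
    constructor
    · intro l
      have h1 := mul_le_mul_of_nonneg_left (hy l) ha
      have h2 := mul_le_mul_of_nonneg_left (hy' l) hb
      have h3 : a * (1 / c) + b * (1 / c) = 1 / c := by rw [← add_mul, hab, one_mul]
      change a * y l + b * y' l ≤ 1 / c
      linarith
    · have h1 := mul_le_mul_of_nonneg_left hz ha
      have h2 := mul_le_mul_of_nonneg_left hz' hb
      have h3 : a * (r / c) + b * (r / c) = r / c := by rw [← add_mul, hab, one_mul]
      change a * z + b * z' ≤ r / c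
      linarith
  have hdisj : Disjoint (Weights.C0 G) U := by
    rw [Set.disjoint_left]
    rintro ⟨y, z⟩ ⟨n, i, hn, hy, hz⟩ ⟨hy', hz'⟩
    simp only at hy hz hy' hz'
    have hn0 : (0 : ℝ) < n := by exact_mod_cast hn
    have h1 := hkey n hn i (by
      intro l
      have h2 := (hy l).trans_le (hy' l)
      rw [div_lt_div_iff₀ hn0 hcpos] at h2
      linarith)
    have h2 := hz.trans_le hz'
    rw [div_lt_div_iff₀ hn0 hcpos] at h2
    linarith
  obtain ⟨f, u, hf1, hf2⟩ := geometric_hahn_banach_open (Weights.convex_C0 G hsub)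
    (Weights.isOpen_C0 G) hUc hdisj
  set A : Fin m → ℝ := fun l => f (Pi.single l 1, 0) with hA
  set B : ℝ := f (0, 1) with hB
  have hdec : ∀ (y : Fin m → ℝ) (z : ℝ), f (y, z) = ∑ l, y l * A l + z * B :=
    Weights.decomp f
  have hu : ∀ (y : Fin m → ℝ) (z : ℝ), (∀ l, y l ≤ 1 / c) → z ≤ r / c →
      u ≤ ∑ l, y l * A l + z * B := by
    intro y z hy hz
    rw [← hdec]
    exact hf2 _ ⟨hy, hz⟩
  have hA0 : ∀ l, A l ≤ 0 := by
    intro l
    by_contra h
    push Not at h
    set K : ℝ := ∑ l, (1 / c) * A l + r / c * B - u with hK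
    have hK0 : 0 ≤ K := by
      have := hu (fun _ => 1 / c) (r / c) (fun _ => le_rfl) le_rfl
      linarith
    have h1 := hu (fun l' => 1 / c - (Pi.single l ((K + 1) / A l) : Fin m → ℝ) l') (r / c) (by
      intro l'
      have : 0 ≤ (Pi.single l ((K + 1) / A l) : Fin m → ℝ) l' := by
        by_cases h' : l' = l
        · subst h'; rw [Pi.single_eq_same]; positivity
        · rw [Pi.single_eq_of_ne h']
      linarith) le_rfl
    have h2 : ∑ l', (1 / c - (Pi.single l ((K + 1) / A l) : Fin m → ℝ) l') * A l' =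
        ∑ l, (1 / c) * A l - (K + 1) := by
      simp only [sub_mul, Finset.sum_sub_distrib]
      congr 1
      rw [Finset.sum_eq_single l]
      · rw [Pi.single_eq_same]; field_simp
      · intro b _ hb; rw [Pi.single_eq_of_ne hb, zero_mul]
      · intro h; exact absurd (Finset.mem_univ l) h
    rw [h2] at h1
    linarith
  have hB0 : B ≤ 0 := by
    by_contra h
    push Not at h
    set K : ℝ := ∑ l, (1 / c) * A l + r / c * B - u with hK
    have hK0 : 0 ≤ K := by
      have := hu (fun _ => 1 / c) (r / c) (fun _ => le_rfl) le_rfl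
      linarith
    have h1 := hu (fun _ => 1 / c) (r / c - (K + 1) / B) (fun _ => le_rfl) (by
      have : 0 ≤ (K + 1) / B := by positivity
      linarith)
    have h2 : (r / c - (K + 1) / B) * B = r / c * B - (K + 1) := by
      field_simp
    rw [h2] at h1
    linarith
  -- the main inequality
  have hmain : ∀ (n : ℕ) (i : Fin m → ℕ), 1 ≤ n →
      ∑ l, (i l : ℝ) / n * A l + (G n i : ℝ) / n * B ≤ (∑ l, A l + r * B) / c := by
    intro n i hn
    have hb := hu (fun _ => 1 / c) (r / c) (fun _ => le_rfl) le_rfl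
    have hb' : ∑ l : Fin m, 1 / c * A l + r / c * B = (∑ l, A l + r * B) / c := by
      rw [← Finset.mul_sum]; field_simp
    rw [hb'] at hb
    refine le_trans ?_ hb
    apply le_of_forall_pos_le_add
    intro ε hε
    set S : ℝ := -(∑ l, A l + B) with hS
    have hS0 : 0 ≤ S := by
      have : ∑ l, A l ≤ 0 := Finset.sum_nonpos (fun l _ => hA0 l)
      linarith
    set δ : ℝ := ε / (S + 1) with hδ
    have hδ0 : 0 < δ := by positivity
    have h1 := hf1 (fun l => (i l : ℝ) / n + δ, (G n i : ℝ) / n + δ)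
      ⟨n, i, hn, fun l => by simpa using hδ0, by simpa using hδ0⟩
    rw [hdec] at h1
    have h2 : ∑ l, ((i l : ℝ) / n + δ) * A l + ((G n i : ℝ) / n + δ) * B =
        ∑ l, (i l : ℝ) / n * A l + (G n i : ℝ) / n * B - δ * S := by
      simp only [add_mul, Finset.sum_add_distrib, ← Finset.mul_sum, hS]
      ring
    rw [h2] at h1
    have h3 : δ * S ≤ ε := by
      rw [hδ, div_mul_eq_mul_div, div_le_iff₀ (by positivity)]
      nlinarith
    linarith
  have hBneg : B < 0 := by
    rcases hB0.lt_or_eq with h | h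
    · exact h
    · exfalso
      have h1 := hmain 1 0 le_rfl
      rw [h] at h1
      simp only [Pi.zero_apply, Nat.cast_zero, zero_div, zero_mul, Finset.sum_const_zero,
        mul_zero, add_zero] at h1
      have h2 : 0 ≤ ∑ l, A l := by
        rcases le_or_gt 0 (∑ l, A l) with h' | h'
        · exact h'
        · exact absurd h1 (not_le.mpr (div_neg_of_neg_of_pos h' hcpos))
      have h3 : ∀ l, A l = 0 := by
        intro l
        have h4 : ∑ l, A l = 0 := le_antisymm (Finset.sum_nonpos (fun l _ => hA0 l)) h2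
        exact (Finset.sum_eq_zero_iff_of_nonpos (fun l _ => hA0 l)).mp h4 l (Finset.mem_univ l)
      have h5 := hu (fun _ => 1 / c) (r / c) (fun _ => le_rfl) le_rfl
      have h6 := hf1 (fun _ => 1, (G 1 0 : ℝ) + 1) ⟨1, 0, le_rfl, fun l => by simp, by simp⟩
      rw [hdec] at h6
      simp only [h3, h, mul_zero, Finset.sum_const_zero, add_zero] at h5 h6
      linarith
  -- normalised inequality
  have hfinal : ∀ (n : ℕ) (i : Fin m → ℕ), 1 ≤ n →
      (n : ℝ) * ((∑ l, A l / B) + r) / c - ∑ l, A l / B * (i l : ℝ) ≤ (G n i : ℝ) := by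
    intro n i hn
    have hn0 : (0 : ℝ) < n := by exact_mod_cast hn
    have h1 := hmain n i hn
    have h2 : (∑ l, (i l : ℝ) / n * A l + (G n i : ℝ) / n * B) * (n / -B) =
        - (∑ l, A l / B * (i l : ℝ)) - G n i := by
      rw [add_mul, Finset.sum_mul]
      have e1 : ∑ l, (i l : ℝ) / n * A l * (n / -B) = - ∑ l, A l / B * (i l : ℝ) := by
        rw [← Finset.sum_neg_distrib]
        apply Finset.sum_congr rfl
        intro l _
        have := hBneg.ne
        field_simp
      have e2 : (G n i : ℝ) / n * B * (n / -B) = - G n i := by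
        have := hBneg.ne
        field_simp
      rw [e1, e2]; ring
    have h3 : (∑ l, A l + r * B) / c * (n / -B) = - ((n : ℝ) * ((∑ l, A l / B) + r) / c) := by
      have := hBneg.ne
      rw [← Finset.sum_div]
      field_simp
    have h4 : (0 : ℝ) ≤ n / -B := by
      have : 0 < -B := by linarith
      positivity
    have h5 := mul_le_mul_of_nonneg_right h1 h4
    rw [h2, h3] at h5
    linarith
  have hAB : ∀ l, 0 ≤ A l / B := fun l => div_nonneg_of_nonpos (hA0 l) hBneg.le
  refine ⟨fun l => A l / B, ?_, hfinal⟩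
  intro l
  have h1 := hfinal 1 (Pi.single l s) le_rfl
  rw [hs l] at h1
  have h2 : ∑ l', A l' / B * ((Pi.single l s : Fin m → ℕ) l' : ℝ) = A l / B * s := by
    rw [Finset.sum_eq_single l]
    · rw [Pi.single_eq_same]
    · intro b _ hb; rw [Pi.single_eq_of_ne hb]; simp
    · intro h; exact absurd (Finset.mem_univ l) h
  rw [h2] at h1
  have h3 : 0 < (1 : ℕ) * ((∑ l, A l / B) + r) / c := by
    have h4 : 0 ≤ ∑ l, A l / B := Finset.sum_nonneg (fun l _ => hAB l)
    have h5 : (0 : ℝ) < r := by exact_mod_cast hr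
    positivity
  rcases (hAB l).eq_or_lt with h | h
  · rw [← h] at h1
    norm_num at h1
    norm_num at h3
    linarith
  · exact h

end HMTWU

end

section

/-!
The length inequality for colon ideals.
-/

set_option autoImplicit false

open Filter Polynomial

namespace HMTWU

open HMTW

/-- One step: the exact sequence of multiplication by `x`. -/
theorem colon_step {k O' O : Type*} [Field k] [CommRing O'] [CommRing O] [Algebra k O']
    [Algebra k O] (Q : O' →ₐ[k] O) (hQ : Function.Surjective Q) (x : O')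
    (hker : RingHom.ker Q = Ideal.span {x}) (I J : Ideal O') (T : Ideal O)
    (hJ : ∀ u, u ∈ J ↔ x * u ∈ I)
    (hT : ∀ v, v ∈ T ↔ ∃ u, u ∈ I ∧ Q u = v) :
    Module.length k (O' ⧸ I) = Module.length k (O' ⧸ J) + Module.length k (O ⧸ T) := by
  have hle : J ≤ Submodule.comap (LinearMap.mulLeft O' x) I := fun u hu => (hJ u).1 hu
  have hcomp : I ≤ T.comap Q := fun u hu => (hT _).2 ⟨u, hu, rfl⟩
  have hx : Q x = 0 := by
    rw [← RingHom.mem_ker, hker]
    exact Ideal.subset_span rfl
  refine Module.length_eq_add_of_exact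
    ((Submodule.mapQ J I (LinearMap.mulLeft O' x) hle).restrictScalars k)
    (Ideal.quotientMapₐ T Q hcomp).toLinearMap ?_ ?_ ?_
  · intro a b hab
    obtain ⟨a, rfl⟩ := Submodule.mkQ_surjective J a
    obtain ⟨b, rfl⟩ := Submodule.mkQ_surjective J b
    have h1 : (Submodule.Quotient.mk (x * a) : O' ⧸ I) = Submodule.Quotient.mk (x * b) := hab
    rw [Submodule.Quotient.eq] at h1
    change (Submodule.Quotient.mk a : O' ⧸ J) = Submodule.Quotient.mk b
    rw [Submodule.Quotient.eq, hJ, mul_sub]
    exact h1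
  · intro v
    obtain ⟨v, rfl⟩ := Ideal.Quotient.mk_surjective v
    obtain ⟨u, rfl⟩ := hQ v
    exact ⟨Ideal.Quotient.mk _ u, rfl⟩
  · intro y
    obtain ⟨u, rfl⟩ := Ideal.Quotient.mk_surjective y
    constructor
    · intro h
      have h1 : Ideal.Quotient.mk T (Q u) = 0 := h
      rw [Ideal.Quotient.eq_zero_iff_mem, hT] at h1
      obtain ⟨u', hu', he⟩ := h1
      have h2 : u - u' ∈ RingHom.ker Q := by
        rw [RingHom.mem_ker, map_sub, he, sub_self]
      rw [hker, Ideal.mem_span_singleton'] at h2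
      obtain ⟨w, hw⟩ := h2
      refine ⟨Submodule.Quotient.mk w, ?_⟩
      change (Submodule.Quotient.mk (x * w) : O' ⧸ I) = Submodule.Quotient.mk u
      rw [Submodule.Quotient.eq]
      have : x * w - u = -u' := by rw [mul_comm, hw]; ring
      rw [this]
      exact I.neg_mem hu'
    · rintro ⟨w, hw⟩
      obtain ⟨w, rfl⟩ := Submodule.mkQ_surjective J w
      rw [← hw]
      change Ideal.Quotient.mk T (Q (x * w)) = 0
      rw [map_mul, hx, zero_mul, map_zero]

/-- B1a -/
theorem colon_length {k O' O : Type*} [Field k] [CommRing O'] [CommRing O] [Algebra k O']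
    [Algebra k O] (Q : O' →ₐ[k] O) (hQ : Function.Surjective Q) (x : O')
    (hker : RingHom.ker Q = Ideal.span {x}) (I : Ideal O') (T : ℕ → Ideal O)
    (hT : ∀ j v, v ∈ T j ↔ ∃ u, x ^ j * u ∈ I ∧ Q u = v) (B : ℕ) :
    ∑ j ∈ Finset.range B, Module.length k (O ⧸ T j) ≤ Module.length k (O' ⧸ I) := by
  induction B generalizing I T with
  | zero => simp
  | succ B ih =>
    rw [Finset.sum_range_succ']
    rw [colon_step Q hQ x hker I (Submodule.comap (LinearMap.mulLeft O' x) I) (T 0)
      (fun u => Iff.rfl) (fun v => by simpa using hT 0 v)]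
    refine add_le_add ?_ le_rfl
    refine ih _ _ ?_
    intro j v
    rw [hT]
    refine exists_congr fun u => and_congr ?_ Iff.rfl
    rw [Submodule.mem_comap, LinearMap.mulLeft_apply, ← mul_assoc, ← pow_succ']

end HMTWU

end

section

/-!
Structure of a domain finite over a Noetherian domain in characteristic `p`.
-/

set_option autoImplicit false

open Filter Polynomial

namespace HMTWU

open HMTW

open IntermediateField in
/-- A common denominator for a finitely generated submodule. -/
theorem common_denom {A M : Type*} [CommRing A] [IsDomain A] [AddCommGroup M] [Module A M]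
    (N : Submodule A M) (hN : N.FG) (Q : Submodule A M)
    (h : ∀ u ∈ N, ∃ g : A, g ≠ 0 ∧ g • u ∈ Q) :
    ∃ g : A, g ≠ 0 ∧ ∀ u ∈ N, g • u ∈ Q := by
  classical
  obtain ⟨S, hS⟩ := hN
  choose! g hg0 hg using h
  have hmem : ∀ u ∈ S, u ∈ N := fun u hu => hS ▸ Submodule.subset_span hu
  refine ⟨∏ u ∈ S, g u, Finset.prod_ne_zero_iff.2 fun u hu => hg0 u (hmem u hu), ?_⟩
  intro u hu
  rw [← hS] at hu
  induction hu using Submodule.span_induction with
  | mem x hx =>
    have hx' : x ∈ S := hx
    rw [← Finset.prod_erase_mul S g hx', mul_smul]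
    exact Q.smul_mem _ (hg x (hmem x hx'))
  | zero => simp
  | add x y _ _ hx hy => rw [smul_add]; exact Q.add_mem hx hy
  | smul a x _ hx => rw [smul_comm]; exact Q.smul_mem _ hx

section

variable {A D K L : Type*} [CommRing A] [IsDomain A] [CommRing D] [IsDomain D] [Algebra A D]
  [Module.Finite A D] [FaithfulSMul A D] [Field K] [Field L] [Algebra A K] [IsFractionRing A K]
  [Algebra D L] [IsFractionRing D L] [Algebra K L] [Algebra A L] [IsScalarTower A K L]
  [IsScalarTower A D L]

/-- Every element of `L` is a quotient of an element of `D` by a nonzero element of `A`. -/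
theorem exists_clear (A D : Type*) {L : Type*} [CommRing A] [IsDomain A] [CommRing D] [IsDomain D]
    [Algebra A D] [Module.Finite A D] [FaithfulSMul A D] [Field L]
    [Algebra D L] [IsFractionRing D L] [Algebra A L] [IsScalarTower A D L] (x : L) :
    ∃ a : A, a ≠ 0 ∧ ∃ d : D, algebraMap A L a * x = algebraMap D L d := by
  obtain ⟨⟨n, s⟩, hx⟩ := IsLocalization.surj (nonZeroDivisors D) x
  have halg : IsAlgebraic A (s : D) := Algebra.IsAlgebraic.isAlgebraic _
  obtain ⟨r, hr, t, ht⟩ := halg.exists_nonzero_dvd s.2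
  refine ⟨r, hr, t * n, ?_⟩
  have h1 : algebraMap A L r = algebraMap D L s * algebraMap D L t := by
    rw [IsScalarTower.algebraMap_apply A D L, ht, map_mul]
  rw [h1, map_mul, ← hx]
  ring

/-- Clearing the denominators of a polynomial. -/
theorem exists_clear_poly (A : Type*) {K : Type*} [CommRing A] [IsDomain A] [Field K]
    [Algebra A K] [IsFractionRing A K] (h : K[X]) :
    ∃ g : A, g ≠ 0 ∧ ∃ h' : A[X], h'.map (algebraMap A K) = C (algebraMap A K g) * h := by
  obtain ⟨b, hb, hh⟩ := IsLocalization.integerNormalization_spec (nonZeroDivisors A) h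
  refine ⟨b, nonZeroDivisors.ne_zero hb, _, hh.trans ?_⟩
  rw [← Polynomial.smul_eq_C_mul, algebraMap_smul]

end

theorem aeval_map_inj {A D K L : Type*} [CommRing A] [CommRing D] [Algebra A D]
    [Field K] [Field L] [Algebra A K]
    [Algebra D L] [Algebra K L] [Algebra A L] [IsScalarTower A K L]
    [IsScalarTower A D L] (θ : D) (h : A[X]) :
    aeval (algebraMap D L θ) (h.map (algebraMap A K)) = algebraMap D L (aeval θ h) := by
  rw [Polynomial.aeval_map_algebraMap, Polynomial.aeval_algebraMap_apply]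

open IntermediateField in
/-- The primitive element. -/
theorem exists_theta {A D K L : Type*} [CommRing A] [IsDomain A] [CommRing D] [IsDomain D]
    [Algebra A D] [Module.Finite A D] [FaithfulSMul A D] [Field K] [Field L] [Algebra A K]
    [IsFractionRing A K] [Algebra D L] [IsFractionRing D L] [Algebra K L] [Algebra A L]
    [IsScalarTower A K L] [IsScalarTower A D L] [FiniteDimensional K L] :
    ∃ (θ : D) (f : A[X]), f.Monic ∧
      K⟮algebraMap D L θ⟯ = separableClosure K L ∧
      f.map (algebraMap A K) = minpoly K (algebraMap D L θ) := by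
  obtain ⟨α, hα⟩ := Field.exists_primitive_element K (separableClosure K L)
  have hα' : K⟮(α : L)⟯ = separableClosure K L := by
    rw [← IntermediateField.lift_adjoin_simple, hα, IntermediateField.lift_top]
  obtain ⟨a, ha, d, hd⟩ := exists_clear A D (α : L)
  obtain ⟨b, hb, P, hP⟩ := exists_clear_poly A (minpoly K (algebraMap D L d))
  have haK : algebraMap A K a ≠ 0 := by
    rw [Ne, FaithfulSMul.algebraMap_eq_zero_iff]; exact ha
  have hbK : algebraMap A K b ≠ 0 := by
    rw [Ne, FaithfulSMul.algebraMap_eq_zero_iff]; exact hb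
  have hscale : ∀ (c : K) (x y : L), c ≠ 0 → y = algebraMap K L c * x → K⟮y⟯ = K⟮x⟯ := by
    intro c x y hc hy
    apply le_antisymm
    · rw [IntermediateField.adjoin_simple_le_iff, hy]
      exact mul_mem (IntermediateField.algebraMap_mem _ _)
        (IntermediateField.mem_adjoin_simple_self K x)
    · rw [IntermediateField.adjoin_simple_le_iff]
      have : x = algebraMap K L c⁻¹ * y := by
        rw [hy, ← mul_assoc, ← map_mul, inv_mul_cancel₀ hc, map_one, one_mul]
      rw [this]
      exact mul_mem (IntermediateField.algebraMap_mem _ _)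
        (IntermediateField.mem_adjoin_simple_self K y)
  have h1 : K⟮algebraMap D L d⟯ = separableClosure K L := by
    rw [← hα']
    refine hscale (algebraMap A K a) _ _ haK ?_
    rw [← hd, ← IsScalarTower.algebraMap_apply A K L]
  have h2 : K⟮algebraMap D L (algebraMap A D b * d)⟯ = K⟮algebraMap D L d⟯ := by
    refine hscale (algebraMap A K b) _ _ hbK ?_
    rw [map_mul, ← IsScalarTower.algebraMap_apply A K L, ← IsScalarTower.algebraMap_apply A D L]
  have hintL : ∀ x : L, IsIntegral K x := fun x => Algebra.IsIntegral.isIntegral x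
  set fK : K[X] := (minpoly K (algebraMap D L d)).scaleRoots (algebraMap A K b) with hfK
  have hmon : fK.Monic := (Polynomial.monic_scaleRoots_iff _).2 (minpoly.monic (hintL _))
  have hroot : aeval (algebraMap D L (algebraMap A D b * d)) fK = 0 := by
    have := Polynomial.scaleRoots_aeval_eq_zero (A := L) (r := algebraMap A K b)
      (minpoly.aeval K (algebraMap D L d))
    rw [map_mul, ← IsScalarTower.algebraMap_apply A D L, IsScalarTower.algebraMap_apply A K L]
    exact this
  have hfeq : minpoly K (algebraMap D L (algebraMap A D b * d)) = fK := by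
    refine (Polynomial.eq_of_monic_of_dvd_of_natDegree_le (minpoly.monic (hintL _)) hmon
      (minpoly.dvd _ _ hroot) ?_).symm
    rw [hfK, Polynomial.natDegree_scaleRoots, ← IntermediateField.adjoin.finrank (hintL _),
      ← IntermediateField.adjoin.finrank (hintL _), h2]
  have hlift : fK ∈ Polynomial.lifts (algebraMap A K) := by
    rw [Polynomial.lifts_iff_coeff_lifts]
    intro n
    rw [hfK, Polynomial.coeff_scaleRoots]
    rcases lt_trichotomy n (minpoly K (algebraMap D L d)).natDegree with hn | hn | hn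
    · obtain ⟨j, hj⟩ : ∃ j, (minpoly K (algebraMap D L d)).natDegree - n = j + 1 :=
        ⟨(minpoly K (algebraMap D L d)).natDegree - n - 1, by omega⟩
      refine ⟨P.coeff n * b ^ j, ?_⟩
      have hc := congrArg (fun Q => Q.coeff n) hP
      simp only [Polynomial.coeff_map, Polynomial.coeff_C_mul] at hc
      rw [map_mul, hc, hj, map_pow, pow_succ]
      ring
    · rw [hn, Nat.sub_self, pow_zero, mul_one, ← Polynomial.leadingCoeff,
        (minpoly.monic (hintL _)).leadingCoeff]
      exact ⟨1, map_one _⟩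
    · rw [Polynomial.coeff_eq_zero_of_natDegree_lt hn, zero_mul]
      exact ⟨0, map_zero _⟩
  obtain ⟨f, hf1, hf2, hf3⟩ := Polynomial.lifts_and_natDegree_eq_and_monic hlift hmon
  exact ⟨algebraMap A D b * d, f, hf3, h2.trans h1, hf1.trans hfeq.symm⟩

theorem exists_domData_aux {A D K L : Type*} [CommRing A] [IsDomain A] [IsNoetherianRing A]
    [CommRing D] [IsDomain D]
    [Algebra A D] [Module.Finite A D] [FaithfulSMul A D] [Field K] [Field L] [Algebra A K]
    [IsFractionRing A K] [Algebra D L] [IsFractionRing D L] [Algebra K L] [Algebra A L]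
    [IsScalarTower A K L] [IsScalarTower A D L] [FiniteDimensional K L]
    (p : ℕ) [Fact p.Prime] [CharP A p] :
    Nonempty (DomData A D p) := by
  classical
  obtain ⟨θ, f, hf, hθ, hfm⟩ := exists_theta (A := A) (D := D) (K := K) (L := L)
  set Fs := separableClosure K L with hFs
  have hinjA : Function.Injective (algebraMap A K) := FaithfulSMul.algebraMap_injective A K
  have hinjD : Function.Injective (algebraMap D L) := FaithfulSMul.algebraMap_injective D L
  have hinjAL : Function.Injective (algebraMap A L) := by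
    rw [IsScalarTower.algebraMap_eq A D L]
    exact hinjD.comp (FaithfulSMul.algebraMap_injective A D)
  have : CharP K p := charP_of_injective_algebraMap hinjA p
  have : CharP Fs p := charP_of_injective_algebraMap (algebraMap K Fs).injective p
  have : ExpChar Fs p := ExpChar.prime Fact.out
  have hint : ∀ x : L, IsIntegral K x := fun x => Algebra.IsIntegral.isIntegral x
  have hθmem : algebraMap D L θ ∈ Fs := by
    rw [← hθ]; exact IntermediateField.mem_adjoin_simple_self K _
  -- elements of `Fs` are polynomials in `θ`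
  have hpoly : ∀ x ∈ Fs, ∃ h : K[X], x = aeval (algebraMap D L θ) h := by
    intro x hx
    rw [← hθ, ← IntermediateField.mem_toSubalgebra,
      IntermediateField.adjoin_simple_toSubalgebra_of_isAlgebraic (hint _).isAlgebraic,
      Algebra.adjoin_singleton_eq_range_aeval] at hx
    obtain ⟨h, hh⟩ := hx
    exact ⟨h, hh.symm⟩
  have hclear : ∀ x ∈ Fs, ∃ g : A, g ≠ 0 ∧ ∃ h : A[X],
      algebraMap A L g * x = algebraMap D L (aeval θ h) := by
    intro x hx
    obtain ⟨h, hh⟩ := hpoly x hx
    obtain ⟨g, hg, h', hh'⟩ := exists_clear_poly A h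
    refine ⟨g, hg, h', ?_⟩
    rw [← aeval_map_inj (K := K) θ h', hh', map_mul, aeval_C, ← hh,
      ← IsScalarTower.algebraMap_apply A K L]
  -- separability
  have hsep : (minpoly K (algebraMap D L θ)).Separable :=
    (mem_separableClosure_iff.1 hθmem)
  obtain ⟨aK, bK, habK⟩ := hsep
  obtain ⟨δ1, hδ1, a1, ha1⟩ := exists_clear_poly A aK
  obtain ⟨δ2, hδ2, b1, hb1⟩ := exists_clear_poly A bK
  -- the subalgebra
  let E : Subalgebra A D := (Fs.toSubalgebra.restrictScalars A).comap (IsScalarTower.toAlgHom A D L)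
  have hE : ∀ u : D, u ∈ E ↔ algebraMap D L u ∈ Fs := fun u => Iff.rfl
  have : IsNoetherian A D := isNoetherian_of_isNoetherianRing_of_finite A D
  -- the basis of `L` over `Fs`
  have : FiniteDimensional Fs L := inferInstance
  let bs := Module.finBasis Fs L
  have hcb : ∀ j, ∃ e : D, ∃ c : Fs, c ≠ 0 ∧ algebraMap D L e = c • bs j := by
    intro j
    obtain ⟨a, ha, d, hd⟩ := exists_clear A D (bs j)
    refine ⟨d, algebraMap K Fs (algebraMap A K a), ?_, ?_⟩
    · rw [Ne, FaithfulSMul.algebraMap_eq_zero_iff, FaithfulSMul.algebraMap_eq_zero_iff]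
      exact ha
    · rw [← hd, IsScalarTower.algebraMap_apply A K L, Algebra.smul_def]
      rfl
  choose e c hc0 hce using hcb
  -- first denominator
  obtain ⟨g1, hg1, hg1'⟩ := common_denom (Subalgebra.toSubmodule E) (IsNoetherian.noetherian _)
    (LinearMap.range (aeval θ : A[X] →ₐ[A] D).toLinearMap) (by
      intro u hu
      obtain ⟨g, hg, h, hh⟩ := hclear _ ((hE u).1 hu)
      refine ⟨g, hg, h, ?_⟩
      apply hinjD
      change algebraMap D L (aeval θ h) = _
      rw [← hh, Algebra.smul_def, map_mul, ← IsScalarTower.algebraMap_apply A D L])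
  -- second denominator
  let Φ : (Fin (Module.finrank Fs L) → A[X]) →ₗ[A] D :=
    ∑ j, (LinearMap.mulRight A (e j)) ∘ₗ (aeval θ : A[X] →ₐ[A] D).toLinearMap ∘ₗ
      (LinearMap.proj j)
  have hΦ : ∀ h, Φ h = ∑ j, aeval θ (h j) * e j := by
    intro h
    simp [Φ]
  obtain ⟨g2, hg2, hg2'⟩ := common_denom (⊤ : Submodule A D) (IsNoetherian.noetherian _)
    (LinearMap.range Φ) (by
      intro u _
      have hcoord : ∀ j, ∃ g : A, g ≠ 0 ∧ ∃ h : A[X],
          algebraMap A L g * ((c j)⁻¹ * bs.repr (algebraMap D L u) j : Fs) =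
            algebraMap D L (aeval θ h) := fun j => hclear _ (SetLike.coe_mem _)
      choose g hg h hh using hcoord
      refine ⟨∏ j, g j, Finset.prod_ne_zero_iff.2 fun j _ => hg j,
        fun j => C (∏ i ∈ Finset.univ.erase j, g i) * h j, ?_⟩
      apply hinjD
      rw [hΦ, map_sum, Algebra.smul_def, map_mul, ← IsScalarTower.algebraMap_apply A D L]
      have hexp : algebraMap D L u = ∑ j, (((c j)⁻¹ * bs.repr (algebraMap D L u) j : Fs) : L) *
          algebraMap D L (e j) := by
        conv_lhs => rw [← bs.sum_repr (algebraMap D L u)]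
        refine Finset.sum_congr rfl fun j _ => ?_
        have hcj : ((c j : Fs) : L) ≠ 0 := by
          intro h0
          exact hc0 j (Subtype.ext h0)
        rw [hce, IntermediateField.smul_def, IntermediateField.smul_def, smul_eq_mul, smul_eq_mul]
        push_cast
        field_simp
      conv_rhs => rw [hexp, Finset.mul_sum]
      refine Finset.sum_congr rfl fun j _ => ?_
      rw [← Finset.prod_erase_mul Finset.univ g (Finset.mem_univ j), map_mul, map_mul, map_mul,
        aeval_C, map_mul, ← IsScalarTower.algebraMap_apply A D L]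
      linear_combination (-(algebraMap A L (∏ i ∈ Finset.univ.erase j, g i)) *
        algebraMap D L (e j)) * hh j)
  have hirr := minpoly.natDegree_pos (hint (algebraMap D L θ))
  have hfdeg : f.natDegree = (minpoly K (algebraMap D L θ)).natDegree := by
    rw [← hfm, Polynomial.natDegree_map_eq_of_injective hinjA]
  refine ⟨{
    s := IsPurelyInseparable.exponent Fs L
    f := f
    a := C δ2 * a1
    b := C δ1 * b1
    δ := δ1 * δ2
    g := g1 * g2
    θ := θ
    E := E
    ρ := Module.finrank Fs L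
    e := e
    monic := hf
    deg := by rw [hfdeg]; exact hirr
    g_ne := mul_ne_zero hg1 hg2
    δ_ne := mul_ne_zero hδ1 hδ2
    hab := ?_
    root := ?_
    dvd := ?_
    θ_mem := hθmem
    pow_mem := ?_
    denomE := ?_
    indep := ?_
    ρ_pos := Module.finrank_pos
    denomD := ?_ }⟩
  · apply Polynomial.map_injective _ hinjA
    rw [Polynomial.map_add, Polynomial.map_mul, Polynomial.map_mul, Polynomial.map_mul,
      Polynomial.map_mul, ← Polynomial.derivative_map, hfm, ha1, hb1, Polynomial.map_C,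
      Polynomial.map_C, Polynomial.map_C, map_mul, C_mul]
    linear_combination C (algebraMap A K δ1) * C (algebraMap A K δ2) * habK
  · apply hinjD
    rw [← aeval_map_inj (K := K), hfm, minpoly.aeval, map_zero]
  · intro h hh
    have h1 : aeval θ (h %ₘ f) = 0 := by
      have := Polynomial.modByMonic_add_div h f
      have h2 := congrArg (aeval θ) this
      rw [map_add, map_mul] at h2
      have hroot : aeval θ f = 0 := by
        apply hinjD
        rw [← aeval_map_inj (K := K), hfm, minpoly.aeval, map_zero]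
      rw [hroot, zero_mul, add_zero, hh] at h2
      exact h2
    have h3 : (h %ₘ f).map (algebraMap A K) = 0 := by
      by_contra hne
      have h4 := minpoly.degree_le_of_ne_zero K (algebraMap D L θ) hne
        (by rw [aeval_map_inj, h1, map_zero])
      rw [← hfm, Polynomial.degree_map_eq_of_injective hinjA,
        Polynomial.degree_map_eq_of_injective hinjA] at h4
      exact absurd (Polynomial.degree_modByMonic_lt h hf) (not_lt.2 h4)
    rw [← Polynomial.modByMonic_eq_zero_iff_dvd hf]
    exact Polynomial.map_injective _ hinjA (by rw [h3, Polynomial.map_zero])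
  · intro u
    rw [hE, map_pow]
    obtain ⟨y, hy⟩ := IsPurelyInseparable.exponent_def' Fs p (algebraMap D L u)
    rw [← hy]
    exact y.2
  · intro u hu
    obtain ⟨h, hh⟩ := hg1' u hu
    refine ⟨C g2 * h, ?_⟩
    change aeval θ h = _ at hh
    rw [map_mul, aeval_C, hh, mul_comm g1 g2, mul_smul, Algebra.smul_def g2]
  · intro v hv hsum j
    have h1 : ∑ j, ((⟨algebraMap D L (v j), hv j⟩ : Fs) * c j) • bs j = 0 := by
      have h2 := congrArg (algebraMap D L) hsum
      rw [map_sum, map_zero] at h2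
      rw [← h2]
      refine Finset.sum_congr rfl fun j _ => ?_
      rw [map_mul, hce, mul_smul, IntermediateField.smul_def]
      rfl
    have h3 := (Fintype.linearIndependent_iff.1 bs.linearIndependent) _ h1 j
    have h4 : (⟨algebraMap D L (v j), hv j⟩ : Fs) = 0 :=
      (mul_eq_zero.1 h3).resolve_right (hc0 j)
    have h5 : algebraMap D L (v j) = 0 := congrArg Subtype.val h4
    exact hinjD (by rw [h5, map_zero])
  · intro u
    obtain ⟨h, hh⟩ := hg2' u trivial
    rw [hΦ] at hh
    refine ⟨fun j => C g1 * h j, ?_⟩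
    rw [mul_smul, ← hh, Algebra.smul_def, Finset.mul_sum]
    refine Finset.sum_congr rfl fun j _ => ?_
    rw [map_mul, aeval_C]
    ring

theorem exists_domData (A D : Type u) [CommRing A] [IsDomain A] [IsNoetherianRing A] [CommRing D]
    [IsDomain D] [Algebra A D] [Module.Finite A D]
    (hinj : Function.Injective (algebraMap A D)) (p : ℕ) [Fact p.Prime] [CharP A p] :
    Nonempty (DomData A D p) := by
  have : FaithfulSMul A D := (faithfulSMul_iff_algebraMap_injective A D).2 hinj
  have : Module.IsTorsionFree A D := inferInstance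
  let _ : Algebra (FractionRing A) (FractionRing D) := FractionRing.liftAlgebra A (FractionRing D)
  have : FiniteDimensional (FractionRing A) (FractionRing D) := inferInstance
  exact exists_domData_aux (K := FractionRing A) (L := FractionRing D) p

end HMTWU

end

section

set_option autoImplicit false

open Filter Polynomial

namespace HMTWU

open HMTW

theorem length_of_simple_residue (k S : Type*) [Field k] [CommRing S] [IsLocalRing S] [Algebra k S]
    (hres : Function.Surjective ((IsLocalRing.residue S).comp (algebraMap k S)))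
    (M : Type*) [AddCommGroup M] [Module S M] [Module k M] [IsScalarTower k S M]
    [IsSimpleModule S M] : Module.length k M = 1 := by
  have hmax : Module.annihilator S M = IsLocalRing.maximalIdeal S :=
    IsLocalRing.eq_maximalIdeal IsSimpleModule.annihilator_isMaximal
  have key : ∀ s : S, ∃ c : k, ∀ x : M, s • x = c • x := by
    intro s
    obtain ⟨c, hc⟩ := hres (IsLocalRing.residue S s)
    refine ⟨c, fun x => ?_⟩
    have h1 : s - algebraMap k S c ∈ IsLocalRing.maximalIdeal S := by
      rw [← IsLocalRing.residue_eq_zero_iff, map_sub, ← hc]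
      simp
    rw [← hmax, Module.mem_annihilator] at h1
    have h2 := h1 x
    rw [sub_smul, sub_eq_zero] at h2
    rw [h2, algebraMap_smul]
  rw [Module.length_eq_one_iff, isSimpleModule_iff]
  have hnt : Nontrivial M := IsSimpleModule.nontrivial S M
  refine { eq_bot_or_eq_top := fun P => ?_ }
  let P' : Submodule S M :=
    { carrier := P
      add_mem' := fun ha hb => P.add_mem ha hb
      zero_mem' := P.zero_mem
      smul_mem' := by
        intro s x hx
        obtain ⟨c, hc⟩ := key s
        rw [hc]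
        exact P.smul_mem c hx }
  rcases eq_bot_or_eq_top P' with h | h
  · left
    rw [eq_bot_iff]
    intro x hx
    have : x ∈ P' := hx
    rw [h] at this
    simpa using this
  · right
    rw [eq_top_iff]
    intro x _
    have : x ∈ P' := by rw [h]; trivial
    exact this

theorem length_le_of_finiteLength (k S : Type*) [Field k] [CommRing S] [IsLocalRing S]
    [Algebra k S]
    (hres : Function.Surjective ((IsLocalRing.residue S).comp (algebraMap k S)))
    (M : Type*) [AddCommGroup M] [Module S M] (h : IsFiniteLength S M) :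
    ∀ (_ : Module k M) (_ : IsScalarTower k S M), Module.length k M ≤ Module.length S M := by
  induction h with
  | of_subsingleton =>
    intro _ _
    simp [Module.length_eq_zero]
  | @of_simple_quotient M _ _ N _ _ ih =>
    intro _ _
    have e1 : Module.length S M = Module.length S N + Module.length S (M ⧸ N) :=
      Module.length_eq_add_of_exact N.subtype N.mkQ (Submodule.subtype_injective _)
        (Submodule.mkQ_surjective _) (LinearMap.exact_subtype_mkQ N)
    have e2 : Module.length k M = Module.length k N + Module.length k (M ⧸ N) :=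
      Module.length_eq_add_of_exact (N.subtype.restrictScalars k) (N.mkQ.restrictScalars k)
        (Submodule.subtype_injective _)
        (Submodule.mkQ_surjective _) (LinearMap.exact_subtype_mkQ N)
    rw [e1, e2, length_of_simple_residue k S hres (M ⧸ N), Module.length_eq_one S (M ⧸ N)]
    exact add_le_add (ih inferInstance inferInstance) le_rfl

/-- G5 : lengths over a local ring and over a coefficient field -/
theorem length_eq_of_residue (k S : Type*) [Field k] [CommRing S] [IsLocalRing S] [Algebra k S]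
    (hres : Function.Surjective ((IsLocalRing.residue S).comp (algebraMap k S)))
    (M : Type*) [AddCommGroup M] [Module S M] [Module k M] [IsScalarTower k S M] :
    Module.length S M = Module.length k M := by
  apply le_antisymm
  · have h1 := Submodule.length_le_length_restrictScalars k (⊤ : Submodule S M)
    rw [Module.length_top] at h1
    refine h1.trans (le_of_eq ?_)
    exact (LinearEquiv.length_eq (Submodule.topEquiv (R := k) (M := M)))
  · by_cases htop : Module.length S M = ⊤
    · rw [htop]; exact le_top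
    · exact length_le_of_finiteLength k S hres M (Module.length_ne_top_iff.1 htop)
        inferInstance inferInstance

end HMTWU

end

section

/-!
The maps `pr` and `Pr` dropping the first variable.
-/

set_option autoImplicit false

open Filter Polynomial

namespace HMTWU

open HMTW

theorem pr_apply (k : Type*) [Field k] (m : ℕ) (a : MvPowerSeries (Fin (m + 2)) k) :
    pr k m a = PowerSeries.constantCoeff (R := MvPowerSeries (Fin (m + 1)) k)
      (MvPowerSeries.finSuccEquiv k (m + 1) a) := rfl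

/-- B2 -/
theorem pr_surjective (k : Type*) [Field k] (m : ℕ) : Function.Surjective (pr k m) := by
  intro b
  refine ⟨(MvPowerSeries.finSuccEquiv k (m + 1)).symm (PowerSeries.C b), ?_⟩
  rw [pr_apply, AlgEquiv.apply_symm_apply, PowerSeries.constantCoeff_C]

theorem sp_comp_pr (k : Type*) [Field k] (m : ℕ) : (sp k m).comp (pr k m) = sp k (m + 1) := by
  ext a n
  rw [RingHom.comp_apply, coeff_sp, coeff_pr, coeff_sp]
  have h : (Finsupp.single (Fin.last m) n).cons 0 = Finsupp.single (Fin.last (m + 1)) n := by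
    ext l
    refine Fin.cases ?_ (fun l' => ?_) l
    · rw [Finsupp.cons_zero, Finsupp.single_apply, if_neg]
      exact (Fin.last_pos' : 0 < Fin.last (m + 1)).ne'
    · rw [Finsupp.cons_succ, Finsupp.single_apply, Finsupp.single_apply, ← Fin.succ_last]
      simp only [Fin.succ_inj]
  rw [h]

theorem pr_X_succ (k : Type*) [Field k] (m : ℕ) (l : Fin (m + 1)) :
    pr k m (MvPowerSeries.X l.succ) = MvPowerSeries.X l := by
  rw [pr_apply, MvPowerSeries.finSuccEquiv_X_succ, PowerSeries.constantCoeff_C]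

theorem pr_X_zero (k : Type*) [Field k] (m : ℕ) :
    pr k m (MvPowerSeries.X 0) = 0 := by
  rw [pr_apply, MvPowerSeries.finSuccEquiv_X_zero, PowerSeries.constantCoeff_X]

theorem pr_eq_zero {k : Type*} [Field k] {m : ℕ} {a : MvPowerSeries (Fin (m + 2)) k}
    (h : pr k m a = 0) : ∃ b, a = MvPowerSeries.X 0 * b := by
  rw [pr_apply, ← PowerSeries.X_dvd_iff] at h
  obtain ⟨c, hc⟩ := h
  refine ⟨(MvPowerSeries.finSuccEquiv k (m + 1)).symm c, ?_⟩
  apply (MvPowerSeries.finSuccEquiv k (m + 1)).injective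
  rw [map_mul, AlgEquiv.apply_symm_apply, MvPowerSeries.finSuccEquiv_X_zero, hc]

theorem Pr_surjective (k : Type*) [Field k] (m : ℕ) (f : (MvPowerSeries (Fin (m + 2)) k)[X])  :
    Function.Surjective (Pr k m f) := by
  intro v
  obtain ⟨P, rfl⟩ := AdjoinRoot.mk_surjective v
  obtain ⟨Q, hQ⟩ := Polynomial.map_surjective (pr k m) (pr_surjective k m) P
  exact ⟨AdjoinRoot.mk f Q, by rw [Pr_mk, hQ]⟩

theorem ker_Pr (k : Type*) [Field k] (m : ℕ) (f : (MvPowerSeries (Fin (m + 2)) k)[X])
    (hf : f.Monic) :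
    RingHom.ker (Pr k m f) = Ideal.span {AdjoinRoot.of f (MvPowerSeries.X 0)} := by
  apply le_antisymm
  · intro u hu
    obtain ⟨P, rfl⟩ := AdjoinRoot.mk_surjective u
    rw [RingHom.mem_ker, Pr_mk, AdjoinRoot.mk_eq_zero] at hu
    obtain ⟨Q1, hQ1⟩ := hu
    obtain ⟨Q, rfl⟩ := Polynomial.map_surjective (pr k m) (pr_surjective k m) Q1
    have h0 : (P - f * Q).map (pr k m) = 0 := by
      rw [Polynomial.map_sub, Polynomial.map_mul, hQ1, sub_self]
    have h1 : P - f * Q ∈ Ideal.map C (Ideal.span {(MvPowerSeries.X 0 :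
        MvPowerSeries (Fin (m + 2)) k)}) := by
      rw [Ideal.mem_map_C_iff]
      intro n
      have h2 : pr k m ((P - f * Q).coeff n) = 0 := by
        rw [← Polynomial.coeff_map, h0, Polynomial.coeff_zero]
      obtain ⟨b, hb⟩ := pr_eq_zero h2
      rw [hb]
      exact Ideal.mul_mem_right _ _ (Ideal.subset_span rfl)
    rw [Ideal.map_span, Set.image_singleton] at h1
    have h3 := Ideal.mem_map_of_mem (AdjoinRoot.mk f) h1
    rw [Ideal.map_span, Set.image_singleton] at h3
    have h4 : AdjoinRoot.mk f (P - f * Q) = AdjoinRoot.mk f P := by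
      rw [map_sub, map_mul, AdjoinRoot.mk_self, zero_mul, sub_zero]
    rw [h4] at h3
    exact h3
  · rw [Ideal.span_le, Set.singleton_subset_iff]
    change Pr k m f _ = 0
    rw [Pr_of, pr_X_zero, map_zero]

theorem of_map_eq {R : Type*} [CommRing R] (f : R[X]) (J : Ideal R) :
    J.map (AdjoinRoot.of f) = (J.map C).map (AdjoinRoot.mk f) := by
  rw [Ideal.map_map]
  rfl

theorem coeff_mem_of_mk_mem {R : Type*} [CommRing R] (f : R[X]) (hf : f.Monic) (J : Ideal R)
    (P : R[X]) (h : AdjoinRoot.mk f P ∈ J.map (AdjoinRoot.of f)) (n : ℕ) :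
    (P %ₘ f).coeff n ∈ J := by
  rw [of_map_eq, Ideal.mem_map_iff_of_surjective _ AdjoinRoot.mk_surjective] at h
  obtain ⟨P', hP', he⟩ := h
  have h1 : P %ₘ f = P' %ₘ f := by
    rw [AdjoinRoot.mk_eq_mk] at he
    rw [← sub_eq_zero, ← Polynomial.sub_modByMonic, Polynomial.modByMonic_eq_zero_iff_dvd hf]
    have := (dvd_neg).2 he
    rwa [neg_sub] at this
  rw [h1, ← Ideal.Quotient.eq_zero_iff_mem, ← Polynomial.coeff_map,
    Polynomial.map_modByMonic _ hf]
  have h2 : P'.map (Ideal.Quotient.mk J) = 0 := by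
    ext i
    rw [Polynomial.coeff_map, Polynomial.coeff_zero, Ideal.Quotient.eq_zero_iff_mem]
    exact Ideal.mem_map_C_iff.1 hP' i
  rw [h2, Polynomial.zero_modByMonic, Polynomial.coeff_zero]

theorem pr_mem_qI {k : Type*} [Field k] {m : ℕ} {a : MvPowerSeries (Fin (m + 2)) k} {q j : ℕ}
    (hj : j < q) (h : MvPowerSeries.X 0 ^ j * a ∈ qI k (m + 2) q) :
    pr k m a ∈ qI k (m + 1) q := by
  intro x hx
  rw [coeff_pr]
  have h1 := h (x.cons j) (fun l => by
    refine Fin.cases ?_ (fun l' => ?_) l
    · rw [Finsupp.cons_zero]; exact hj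
    · rw [Finsupp.cons_succ]; exact hx l')
  have h2 : x.cons j = Finsupp.single 0 j + x.cons 0 := by
    ext l
    rw [Finsupp.add_apply]
    refine Fin.cases ?_ (fun l' => ?_) l
    · simp
    · rw [Finsupp.cons_succ, Finsupp.cons_succ, Finsupp.single_apply, if_neg, zero_add]
      exact (Fin.succ_ne_zero l').symm
  rw [h2, MvPowerSeries.X_pow_eq, MvPowerSeries.coeff_add_monomial_mul, one_mul] at h1
  exact h1

theorem Pr_mem (k : Type*) [Field k] (m : ℕ) (f : (MvPowerSeries (Fin (m + 2)) k)[X])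
    (hf : f.Monic) (u : AdjoinRoot f) (q j : ℕ) (hj : j < q)
    (h : AdjoinRoot.of f (MvPowerSeries.X 0) ^ j * u ∈ (qI k (m + 2) q).map (AdjoinRoot.of f)) :
    Pr k m f u ∈ (qI k (m + 1) q).map (AdjoinRoot.of (f.map (pr k m))) := by
  obtain ⟨P0, rfl⟩ := AdjoinRoot.mk_surjective u
  have h0 : AdjoinRoot.mk f P0 = AdjoinRoot.mk f (P0 %ₘ f) := by
    rw [AdjoinRoot.mk_eq_mk]
    exact ⟨P0 /ₘ f, by
      rw [sub_eq_iff_eq_add']
      exact (Polynomial.modByMonic_add_div P0 f).symm⟩
  rw [h0] at h ⊢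
  have h1 : AdjoinRoot.of f (MvPowerSeries.X 0) ^ j * AdjoinRoot.mk f (P0 %ₘ f) =
      AdjoinRoot.mk f (C (MvPowerSeries.X 0 ^ j) * (P0 %ₘ f)) := by
    rw [map_mul, AdjoinRoot.mk_C, map_pow]
  rw [h1] at h
  have h2 : (C (MvPowerSeries.X 0 ^ j) * (P0 %ₘ f)) %ₘ f =
      C (MvPowerSeries.X 0 ^ j) * (P0 %ₘ f) := by
    rw [← Polynomial.smul_eq_C_mul, Polynomial.smul_modByMonic,
      (Polynomial.modByMonic_eq_self_iff hf).2 (Polynomial.degree_modByMonic_lt _ hf)]
  rw [Pr_mk, of_map_eq]
  refine Ideal.mem_map_of_mem _ ?_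
  rw [Ideal.mem_map_C_iff]
  intro n
  rw [Polynomial.coeff_map]
  apply pr_mem_qI hj
  have h3 := coeff_mem_of_mk_mem f hf _ _ h n
  rw [h2, Polynomial.coeff_C_mul] at h3
  exact h3

end HMTWU

end
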