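import Mathlib
import Pool.Agent.Work.MP_286f1f_ag.Defs
import Pool.Agent.Work.MP_286f1f_ag.Univ.B01

universe u


/-! Bundle of small proof modules (one section per former module). -/

section

/-!
# Evaluation of power series in adically complete rings, and finiteness
-/

set_option autoImplicit false

namespace HMTWU

open HMTW

theorem eq_of_mk_eq {S : Type*} [CommRing S] (I : Ideal S) [IsHausdorff I S] {a b : S}
    (h : ∀ n, Ideal.Quotient.mk (I ^ n) a = Ideal.Quotient.mk (I ^ n) b) : a = b := by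
  rw [← sub_eq_zero]
  apply IsHausdorff.haus (I := I) inferInstance
  intro n
  rw [SModEq.zero, smul_eq_mul, Ideal.mul_top, ← Ideal.Quotient.eq_zero_iff_mem, map_sub, h n,
    sub_self]

theorem exists_eval {σ k S : Type*} [Finite σ] [CommRing k] [CommRing S] (I : Ideal S)
    [IsAdicComplete I S] (g : k →+* S) (x : σ → S) (hx : ∀ i, x i ∈ I) :
    ∃ Φ : MvPowerSeries σ k →+* S, (∀ c, Φ (MvPowerSeries.C c) = g c) ∧
      ∀ i, Φ (MvPowerSeries.X i) = x i := by
  set ev : MvPolynomial σ k →+* S := MvPolynomial.eval₂Hom g x with hevd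
  have hev : (MvPolynomial.idealOfVars σ k).map ev ≤ I := by
    rw [Ideal.map_le_iff_le_comap, MvPolynomial.idealOfVars, Ideal.span_le]
    rintro _ ⟨i, rfl⟩
    simp only [SetLike.mem_coe, Ideal.mem_comap, hevd, MvPolynomial.coe_eval₂Hom,
      MvPolynomial.eval₂_X]
    exact hx i
  have hle : ∀ n, (MvPolynomial.idealOfVars σ k) ^ n ≤ (I ^ n).comap ev := by
    intro n
    rw [← Ideal.map_le_iff_le_comap, Ideal.map_pow]
    exact Ideal.pow_right_mono hev n
  set f : (n : ℕ) → MvPowerSeries σ k →+* S ⧸ I ^ n := fun n =>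
    (Ideal.quotientMap (I ^ n) ev (hle n)).comp
      (MvPowerSeries.truncTotalAlgHom σ k n).toRingHom with hfd
  have hft : ∀ n p, f n p = Ideal.Quotient.mk (I ^ n) (ev (MvPowerSeries.truncTotal n p)) := by
    intro n p
    rfl
  have hf : ∀ {m n : ℕ} (h : m ≤ n), (Ideal.Quotient.factorPow I h).comp (f n) = f m := by
    intro m n h
    ext p
    rw [RingHom.comp_apply, hft, hft]
    change Ideal.Quotient.mk (I ^ m) (ev (MvPowerSeries.truncTotal n p)) = _
    rw [Ideal.Quotient.mk_eq_mk_iff_sub_mem, ← map_sub]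
    exact hle m (MvPowerSeries.truncTotal_sub_truncTotal_mem_pow_idealOfVars h le_rfl p)
  have hfp : ∀ n (p : MvPolynomial σ k), f n (p : MvPowerSeries σ k) =
      Ideal.Quotient.mk (I ^ n) (ev p) := by
    intro n p
    have := (MvPowerSeries.truncTotalAlgHom σ k n).commutes p
    change Ideal.quotientMap (I ^ n) ev (hle n) (MvPowerSeries.truncTotalAlgHom σ k n
      (algebraMap (MvPolynomial σ k) (MvPowerSeries σ k) p)) = _
    rw [this]
    rfl
  refine ⟨IsAdicComplete.liftRingHom I f hf, fun c => ?_, fun i => ?_⟩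
  · apply eq_of_mk_eq I
    intro n
    rw [IsAdicComplete.mk_liftRingHom, ← MvPolynomial.coe_C, hfp]
    simp [hevd]
  · apply eq_of_mk_eq I
    intro n
    rw [IsAdicComplete.mk_liftRingHom, ← MvPolynomial.coe_X, hfp]
    simp [hevd]

theorem mem_smul_top_pi {A : Type*} [CommRing A] (I : Ideal A) {ι : Type*} [Finite ι]
    (x : ι → A) : x ∈ (I • ⊤ : Submodule A (ι → A)) ↔ ∀ i, x i ∈ I := by
  classical
  cases nonempty_fintype ι
  constructor
  · intro h i
    have h1 : (I • ⊤ : Submodule A (ι → A)) ≤ Submodule.comap (LinearMap.proj i) I := by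
      rw [Submodule.smul_le]
      intro r hr y _
      rw [Submodule.mem_comap]
      exact I.mul_mem_right _ hr
    exact h1 h
  · intro h
    have h1 : x = ∑ i, x i • (Pi.single i (1 : A) : ι → A) := by
      conv_lhs => rw [← Finset.univ_sum_single x]
      refine Finset.sum_congr rfl fun i _ => ?_
      rw [← Pi.single_smul', smul_eq_mul, mul_one]
    rw [h1]
    exact Submodule.sum_mem _ fun i _ => Submodule.smul_mem_smul (h i) trivial

theorem isPrecomplete_pi {A : Type*} [CommRing A] (I : Ideal A) [IsPrecomplete I A] (ι : Type*)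
    [Finite ι] : IsPrecomplete I (ι → A) := by
  refine ⟨fun f hf => ?_⟩
  have h1 : ∀ i, ∃ L : A, ∀ n, f n i ≡ L [SMOD (I ^ n • ⊤ : Submodule A A)] := by
    intro i
    apply IsPrecomplete.prec (I := I) inferInstance (f := fun n => f n i)
    intro m n hmn
    have := hf hmn
    rw [SModEq.sub_mem, mem_smul_top_pi] at this
    rw [SModEq.sub_mem, smul_eq_mul, Ideal.mul_top]
    exact this i
  choose L hL using h1
  refine ⟨L, fun n => ?_⟩
  rw [SModEq.sub_mem, mem_smul_top_pi]
  intro i
  have := hL i n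
  rw [SModEq.sub_mem, smul_eq_mul, Ideal.mul_top] at this
  exact this

/-- finiteness over a complete ring can be checked modulo the ideal -/
theorem finite_of_complete {A S : Type*} [CommRing A] [CommRing S] [Algebra A S] (J : Ideal A)
    [IsPrecomplete J A] [IsHausdorff J S] (T : Set S) (hTf : T.Finite)
    (hT : ∀ s : S, ∃ u ∈ Submodule.span A T, s - u ∈ J.map (algebraMap A S)) :
    Module.Finite A S := by
  classical
  have : Finite T := hTf
  cases nonempty_fintype T
  have := isPrecomplete_pi J T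
  set f : (T → A) →ₗ[A] S := Fintype.linearCombination A (fun t : T => (t : S)) with hf
  have hr : LinearMap.range f = Submodule.span A T := by
    rw [hf, Fintype.range_linearCombination]
    simp
  have hs : Function.Surjective f := by
    apply surjective_of_mkQ_comp_surjective (I := J)
    intro y
    obtain ⟨s, rfl⟩ := Submodule.mkQ_surjective _ y
    obtain ⟨u, hu, hsu⟩ := hT s
    rw [← hr] at hu
    obtain ⟨v, rfl⟩ := hu
    refine ⟨v, ?_⟩
    rw [LinearMap.comp_apply, ← sub_eq_zero, ← map_sub, Submodule.mkQ_apply,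
      Submodule.Quotient.mk_eq_zero, Ideal.smul_top_eq_map, Submodule.restrictScalars_mem]
    have := neg_mem hsu
    rwa [neg_sub] at this
  exact Module.Finite.of_surjective f hs

theorem exists_span_step {A S : Type*} [CommRing A] [CommRing S] [Algebra A S] (m : Ideal S)
    (hA : ∀ s : S, ∃ a : A, s - algebraMap A S a ∈ m) (F : Set S) (z : S)
    (hz : z ∈ Ideal.span F) : ∃ v ∈ Submodule.span A F, z - v ∈ m * Ideal.span F := by
  have hle : ∀ v ∈ Submodule.span A F, v ∈ Ideal.span F := by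
    intro v hv
    induction hv using Submodule.span_induction with
    | mem x hx => exact Ideal.subset_span hx
    | zero => exact zero_mem _
    | add x y _ _ hx hy => exact add_mem hx hy
    | smul a x _ hx =>
      rw [Algebra.smul_def]
      exact Ideal.mul_mem_left _ _ hx
  induction hz using Submodule.span_induction with
  | mem x hx => exact ⟨x, Submodule.subset_span hx, by rw [sub_self]; exact zero_mem _⟩
  | zero => exact ⟨0, zero_mem _, by rw [sub_self]; exact zero_mem _⟩
  | add x y _ _ hx hy =>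
    obtain ⟨v, hv, h1⟩ := hx
    obtain ⟨w, hw, h2⟩ := hy
    refine ⟨v + w, add_mem hv hw, ?_⟩
    rw [add_sub_add_comm]
    exact add_mem h1 h2
  | smul s x _ hx =>
    obtain ⟨v, hv, h1⟩ := hx
    obtain ⟨a, ha⟩ := hA s
    refine ⟨a • v, Submodule.smul_mem _ _ hv, ?_⟩
    have h2 : s • x - a • v = s * (x - v) + (s - algebraMap A S a) * v := by
      rw [smul_eq_mul, Algebra.smul_def]
      ring
    rw [h2]
    exact add_mem (Ideal.mul_mem_left _ _ h1) (Ideal.mul_mem_mul ha (hle v hv))

theorem exists_finite_span {A S : Type*} [CommRing A] [CommRing S] [Algebra A S] (m : Ideal S)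
    (hA : ∀ s : S, ∃ a : A, s - algebraMap A S a ∈ m) (hfg : m.FG) (n : ℕ) :
    ∃ T : Set S, T.Finite ∧ ∀ s : S, ∃ u ∈ Submodule.span A T, s - u ∈ m ^ n := by
  induction n with
  | zero => exact ⟨∅, Set.finite_empty, fun s => ⟨0, zero_mem _, by simp⟩⟩
  | succ n ih =>
    obtain ⟨T, hT, h⟩ := ih
    obtain ⟨F, hF⟩ := hfg.pow (n := n)
    refine ⟨T ∪ F, hT.union F.finite_toSet, fun s => ?_⟩
    obtain ⟨u, hu, hsu⟩ := h s
    rw [← hF] at hsu
    obtain ⟨v, hv, h1⟩ := exists_span_step m hA (F : Set S) (s - u) hsu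
    refine ⟨u + v, ?_, ?_⟩
    · rw [Submodule.span_union]
      exact Submodule.add_mem_sup hu hv
    · rw [hF, ← pow_succ'] at h1
      rwa [← sub_sub]

end HMTWU

end

section

/-!
# Arbitrary field extensions of perfect fields are formally smooth
-/

set_option autoImplicit false

open MvPolynomial

namespace HMTWU

open HMTW

/-- the condition on the canonical presentation -/
def Crit (k L : Type*) [Field k] [Field L] [Algebra k L] : Prop :=
  ∀ f : MvPolynomial L k, aeval (id : L → L) f = 0 →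
    (∀ i, aeval (id : L → L) (pderiv i f) = 0) →
    f ∈ (RingHom.ker (aeval (R := k) (id : L → L))) ^ 2

theorem crit_iff {k L : Type*} [Field k] [Field L] [Algebra k L] :
    Subsingleton (Algebra.H1Cotangent k L) ↔ Crit k L := by
  set P := Algebra.Generators.self k L with hP
  have hker : ∀ f : MvPolynomial L k, f ∈ P.toExtension.ker ↔ aeval (id : L → L) f = 0 :=
    fun f => Iff.rfl
  have hkd : ∀ (f : MvPolynomial L k) (hf : f ∈ P.toExtension.ker),
      P.toExtension.cotangentComplex (Algebra.Extension.Cotangent.mk ⟨f, hf⟩) = 0 ↔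
        ∀ i, aeval (id : L → L) (pderiv i f) = 0 := by
    intro f hf
    rw [Algebra.Extension.cotangentComplex_mk]
    rw [← P.cotangentSpaceBasis.repr.map_eq_zero_iff, DFunLike.ext_iff]
    refine forall_congr' fun i => ?_
    erw [Algebra.Generators.cotangentSpaceBasis_repr_one_tmul]
    rfl
  rw [show Algebra.H1Cotangent k L = P.toExtension.H1Cotangent from rfl,
    Algebra.Extension.subsingleton_h1Cotangent]
  constructor
  · intro hinj f hf hd
    have h1 : Algebra.Extension.Cotangent.mk (P := P.toExtension) ⟨f, (hker f).2 hf⟩ = 0 := by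
      apply hinj
      rw [map_zero, hkd]
      exact hd
    rw [Algebra.Extension.Cotangent.mk_eq_zero_iff] at h1
    have h2 : P.toExtension.ker = RingHom.ker (aeval (R := k) (id : L → L)) :=
      Algebra.Generators.ker_eq_ker_aeval_val P
    rw [← h2]
    exact h1
  · intro hc
    rw [injective_iff_map_eq_zero]
    intro x hx
    obtain ⟨⟨f, hf⟩, rfl⟩ := Algebra.Extension.Cotangent.mk_surjective x
    replace hx := (hkd f hf).1 hx
    have h2 : P.toExtension.ker = RingHom.ker (aeval (R := k) (id : L → L)) :=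
      Algebra.Generators.ker_eq_ker_aeval_val P
    rw [Algebra.Extension.Cotangent.mk_eq_zero_iff]
    have h3 := hc f ((hker f).1 hf) hx
    rw [← h2] at h3
    exact h3

/-- I1 -/
theorem formallySmooth_field (k K : Type*) [Field k] [Field K] [PerfectField k] [Algebra k K] :
    Algebra.FormallySmooth k K := by
  refine ⟨inferInstance, crit_iff.2 ?_⟩
  intro f hf hd
  set s : Set K := (f.vars : Set K) with hs
  set F := IntermediateField.adjoin k s with hF
  have hEss : Algebra.EssFiniteType k F := by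
    rw [IntermediateField.essFiniteType_iff]
    exact ⟨f.vars, rfl⟩
  have hFS : Algebra.FormallySmooth k F := inferInstance
  have hc : Crit k F := crit_iff.1 hFS.subsingleton_h1Cotangent
  have hex : ∃ f' : MvPolynomial F k, rename (Subtype.val : F → K) f' = f := by
    apply exists_rename_eq_of_vars_subset_range f _ Subtype.val_injective
    intro x hx
    exact ⟨⟨x, IntermediateField.subset_adjoin k s hx⟩, rfl⟩
  clear_value F s
  obtain ⟨f', rfl⟩ := hex
  have e1 : ∀ g : MvPolynomial F k, aeval (id : K → K) (rename (Subtype.val : F → K) g) =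
      ((aeval (id : F → F) g : F) : K) := by
    intro g
    rw [aeval_rename]
    have := MvPolynomial.comp_aeval_apply (f := (id : F → F)) F.val g
    simpa using this.symm
  have h1 : aeval (id : F → F) f' = 0 := by
    apply Subtype.ext
    rw [← e1, hf]
    rfl
  have h2 : ∀ i, aeval (id : F → F) (pderiv i f') = 0 := by
    intro i
    apply Subtype.ext
    rw [← e1, ← pderiv_rename Subtype.val_injective, hd]
    rfl
  have h3 := hc f' h1 h2
  have h4 : rename (Subtype.val : F → K) f' ∈ ((RingHom.ker (aeval (R := k) (id : F → F))) ^ 2).map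
      (rename (R := k) (Subtype.val : F → K)) := Ideal.mem_map_of_mem _ h3
  rw [Ideal.map_pow] at h4
  refine Ideal.pow_right_mono ?_ 2 h4
  rw [Ideal.map_le_iff_le_comap]
  intro g hg
  rw [Ideal.mem_comap, RingHom.mem_ker, e1, (RingHom.mem_ker).1 hg]
  rfl

end HMTWU

end

section

set_option autoImplicit false
open Filter Polynomial
namespace HMTWU

open HMTW

/-- A product of `Q * n + |s| * Q` elements of a finite subset `s` of an ideal is divisible by the
`Q`-th power of an element of the `n`-th power of that ideal. -/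
theorem prod_mem_span_pow {D : Type*} [CommRing D] (s : Finset D) (Q : ℕ) (hQ : 0 < Q) (n : ℕ)
    (e : D → ℕ) (he : Q * n + s.card * Q ≤ ∑ x ∈ s, e x) :
    ∏ x ∈ s, x ^ e x ∈
      Ideal.span {w | ∃ v ∈ (Ideal.span (s : Set D)) ^ n, w = v ^ Q} := by
  classical
  have h1 : ∏ x ∈ s, x ^ e x = (∏ x ∈ s, x ^ (e x / Q)) ^ Q * ∏ x ∈ s, x ^ (e x % Q) := by
    rw [← Finset.prod_pow, ← Finset.prod_mul_distrib]
    refine Finset.prod_congr rfl fun x _ => ?_
    rw [← pow_mul, ← pow_add, mul_comm (e x / Q) Q, Nat.div_add_mod]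
  have h2 : n ≤ ∑ x ∈ s, e x / Q := by
    have h3 : ∑ x ∈ s, e x ≤ ∑ x ∈ s, (Q * (e x / Q) + Q) := by
      refine Finset.sum_le_sum fun x _ => ?_
      have := Nat.div_add_mod (e x) Q
      have := Nat.mod_lt (e x) hQ
      omega
    rw [Finset.sum_add_distrib, ← Finset.mul_sum, Finset.sum_const, smul_eq_mul] at h3
    have h4 : Q * n ≤ Q * ∑ x ∈ s, e x / Q := by omega
    exact Nat.le_of_mul_le_mul_left h4 hQ
  have h5 : ∏ x ∈ s, x ^ (e x / Q) ∈ (Ideal.span (s : Set D)) ^ n := by
    have h6 : ∏ x ∈ s, x ^ (e x / Q) ∈ ∏ x ∈ s, (Ideal.span (s : Set D)) ^ (e x / Q) :=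
      Ideal.prod_mem_prod fun x hx => Ideal.pow_mem_pow (Ideal.subset_span hx) _
    rw [Finset.prod_pow_eq_pow_sum] at h6
    exact Ideal.pow_le_pow_right h2 h6
  rw [h1]
  exact Ideal.mul_mem_right _ _ (Ideal.subset_span ⟨_, h5, rfl⟩)

/-- G4a -/
theorem pow_le_span_pow (D : Type*) [CommRing D] (I : Ideal D) (hI : I.FG) (Q : ℕ) (hQ : 0 < Q) :
    ∃ C0 : ℕ, ∀ n : ℕ, I ^ (Q * n + C0) ≤ Ideal.span {w | ∃ v ∈ I ^ n, w = v ^ Q} := by
  classical
  obtain ⟨s, rfl⟩ := hI
  refine ⟨s.card * Q, fun n => ?_⟩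
  have h := Submodule.span_pow (R := D) (s : Set D) (Q * n + s.card * Q)
  change (Ideal.span (s : Set D)) ^ _ = Ideal.span _ at h
  rw [h, Ideal.span_le]
  intro w hw
  obtain ⟨f, rfl⟩ := Set.mem_pow.mp hw
  rw [List.prod_ofFn]
  have hmaps : ∀ i ∈ (Finset.univ : Finset (Fin (Q * n + s.card * Q))), (f i : D) ∈ s :=
    fun i _ => (f i).2
  have h7 : ∏ i, (f i : D) = ∏ x ∈ s, x ^ (Finset.univ.filter fun i => (f i : D) = x).card := by
    rw [← Finset.prod_fiberwise_of_maps_to hmaps]
    refine Finset.prod_congr rfl fun x _ => ?_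
    rw [Finset.prod_congr rfl (g := fun _ => x) (fun i hi => (Finset.mem_filter.mp hi).2)]
    rw [Finset.prod_const]
  have h8 : ∑ x ∈ s, (Finset.univ.filter fun i => (f i : D) = x).card = Q * n + s.card * Q := by
    rw [← Finset.card_eq_sum_card_fiberwise hmaps]
    simp
  rw [h7]
  exact prod_mem_span_pow s Q hQ n _ h8.ge

end HMTWU

end

section

set_option autoImplicit false
open Filter Polynomial
namespace HMTWU

open HMTW

/-- Elements of `W D`, multiplied by `g`, are combinations of the `e_j` with coefficients in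
`W`. -/
theorem map_mem_comb {A D : Type*} [CommRing A] [CommRing D] [Algebra A D] {p : ℕ}
    (X : DomData A D p) (W : Ideal X.E) (z : D) (hz : z ∈ W.map (algebraMap X.E D)) :
    ∃ w : Fin X.ρ → X.E, (∀ j, w j ∈ W) ∧ X.g • z = ∑ j, (w j : D) * X.e j := by
  have key : ∀ z ∈ W.map (algebraMap X.E D), ∀ r : D,
      ∃ w : Fin X.ρ → X.E, (∀ j, w j ∈ W) ∧ X.g • (r * z) = ∑ j, (w j : D) * X.e j := by
    intro z hz
    refine Submodule.span_induction
      (p := fun z _ => ∀ r : D,
        ∃ w : Fin X.ρ → X.E, (∀ j, w j ∈ W) ∧ X.g • (r * z) = ∑ j, (w j : D) * X.e j)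
      ?_ ?_ ?_ ?_ hz
    · rintro _ ⟨w, hw, rfl⟩ r
      obtain ⟨h, hh⟩ := X.denomD r
      have hmem : ∀ j, aeval X.θ (h j) ∈ X.E := fun j => by
        have h1 := (aeval (⟨X.θ, X.θ_mem⟩ : X.E) (h j)).2
        have h2 : ((aeval (⟨X.θ, X.θ_mem⟩ : X.E) (h j) : X.E) : D) = aeval X.θ (h j) := by
          rw [← Subalgebra.coe_val, ← Polynomial.aeval_algHom_apply]
          rfl
        rwa [h2] at h1
      refine ⟨fun j => w * ⟨aeval X.θ (h j), hmem j⟩, fun j => W.mul_mem_right _ hw, ?_⟩
      rw [← smul_mul_assoc, hh, Finset.sum_mul]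
      refine Finset.sum_congr rfl fun j _ => ?_
      change aeval X.θ (h j) * X.e j * (w : D) = (w : D) * aeval X.θ (h j) * X.e j
      ring
    · intro r
      exact ⟨fun _ => 0, fun _ => W.zero_mem, by simp⟩
    · intro x y _ _ hx hy r
      obtain ⟨u, hu, hu'⟩ := hx r
      obtain ⟨v, hv, hv'⟩ := hy r
      refine ⟨fun j => u j + v j, fun j => W.add_mem (hu j) (hv j), ?_⟩
      rw [mul_add, smul_add, hu', hv', ← Finset.sum_add_distrib]
      refine Finset.sum_congr rfl fun j _ => ?_
      push_cast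
      ring
    · intro a x _ hx r
      obtain ⟨u, hu, hu'⟩ := hx (r * a)
      refine ⟨u, hu, ?_⟩
      rw [← hu', smul_eq_mul, mul_assoc]
  simpa using key z hz 1

/-- G4b -/
theorem domain_len (k A D : Type*) [Field k] [CommRing A] [CommRing D] [IsDomain D] [Algebra A D]
    [Algebra k A] [Algebra k D] [IsScalarTower k A D] (p : ℕ) (X : DomData A D p)
    (W : Ideal X.E) (ψ : AdjoinRoot X.f →ₐ[A] X.E)
    (hψ : ψ (AdjoinRoot.root X.f) = ⟨X.θ, X.θ_mem⟩)
    (I' : Ideal (AdjoinRoot X.f)) (hI' : ∀ o, o ∈ I' ↔ ψ (AdjoinRoot.of X.f X.g * o) ∈ W) :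
    (X.ρ : ℕ∞) * Module.length k (AdjoinRoot X.f ⧸ I') ≤
      Module.length k (D ⧸ W.map (algebraMap X.E D)) := by
  have _ := hψ
  let F0 : (Fin X.ρ → AdjoinRoot X.f) →ₗ[A] D :=
    ∑ j, (LinearMap.mulRight A (X.e j)) ∘ₗ (X.E.val.toLinearMap) ∘ₗ ψ.toLinearMap ∘ₗ
      LinearMap.proj j
  have hF0 : ∀ o, F0 o = ∑ j, (ψ (o j) : D) * X.e j := by
    intro o
    simp [F0]
  let F : (Fin X.ρ → AdjoinRoot X.f) →ₗ[k] D ⧸ W.map (algebraMap X.E D) :=
    (Ideal.Quotient.mkₐ k (W.map (algebraMap X.E D))).toLinearMap ∘ₗ F0.restrictScalars k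
  have hF : ∀ o, F o = Ideal.Quotient.mk (W.map (algebraMap X.E D)) (F0 o) := fun o => rfl
  let G : (Fin X.ρ → AdjoinRoot X.f) →ₗ[k] (Fin X.ρ → AdjoinRoot X.f ⧸ I') :=
    LinearMap.pi fun j => (Ideal.Quotient.mkₐ k I').toLinearMap ∘ₗ LinearMap.proj j
  have hG : ∀ o j, G o j = Ideal.Quotient.mk I' (o j) := fun o j => rfl
  have hGs : Function.Surjective G := by
    intro q
    choose o ho using fun j => Ideal.Quotient.mk_surjective (q j)
    exact ⟨o, funext fun j => by rw [hG, ho]⟩
  have hker : LinearMap.ker F ≤ LinearMap.ker G := by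
    intro o ho
    rw [LinearMap.mem_ker, hF, Ideal.Quotient.eq_zero_iff_mem] at ho
    rw [LinearMap.mem_ker]
    obtain ⟨w, hw, hsum⟩ := map_mem_comb X W _ ho
    have h1 : ∑ j, (X.g • (ψ (o j) : D) - (w j : D)) * X.e j = 0 := by
      rw [hF0] at hsum
      simp only [sub_mul, Finset.sum_sub_distrib, smul_mul_assoc]
      rw [← Finset.smul_sum, hsum, sub_self]
    have h2 := X.indep (fun j => X.g • (ψ (o j) : D) - (w j : D))
      (fun j => X.E.sub_mem (X.E.smul_mem (ψ (o j)).2 _) (w j).2) h1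
    funext j
    rw [hG]
    change _ = 0
    rw [Ideal.Quotient.eq_zero_iff_mem, hI']
    have h3 : ψ (AdjoinRoot.of X.f X.g * o j) = w j := by
      apply Subtype.ext
      have h4 := h2 j
      rw [map_mul, ← AdjoinRoot.algebraMap_eq, AlgHom.commutes]
      rw [sub_eq_zero] at h4
      rw [← h4, Algebra.smul_def]
      rfl
    rw [h3]
    exact hw j
  calc (X.ρ : ℕ∞) * Module.length k (AdjoinRoot X.f ⧸ I')
      = Module.length k (Fin X.ρ → AdjoinRoot X.f ⧸ I') := by
        rw [Module.length_pi_of_fintype]; simp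
    _ ≤ Module.length k ((Fin X.ρ → AdjoinRoot X.f) ⧸ LinearMap.ker F) :=
        Module.length_le_of_surjective ((LinearMap.ker F).liftQ G hker) (by
          intro q
          obtain ⟨o, ho⟩ := hGs q
          exact ⟨Submodule.Quotient.mk o, by simpa using ho⟩)
    _ = Module.length k (LinearMap.range F) := F.quotKerEquivRange.length_eq
    _ ≤ Module.length k (D ⧸ W.map (algebraMap X.E D)) :=
        Module.length_le_of_injective (LinearMap.range F).subtype (Submodule.subtype_injective _)

end HMTWU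

end

section

/-!
A change of variables making the specialisation to the last variable nonzero.
-/

set_option autoImplicit false

open Filter Polynomial

namespace HMTWU

open HMTW

namespace Sig

variable {k : Type*} [Field k] {m : ℕ}

/-- the shift of the variable `l` -/
noncomputable def u (k : Type*) [Field k] {m : ℕ} (N : Fin (m + 1) → ℕ) (l : Fin (m + 1)) :
    MvPowerSeries (Fin (m + 1)) k :=
  if l = Fin.last m then 0 else MvPowerSeries.X (Fin.last m) ^ N l

lemma u_last (N : Fin (m + 1) → ℕ) : u k N (Fin.last m) = 0 := by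
  unfold u; rw [if_pos rfl]

lemma u_ne (N : Fin (m + 1) → ℕ) {l : Fin (m + 1)} (h : l ≠ Fin.last m) :
    u k N l = MvPowerSeries.X (Fin.last m) ^ N l := by
  unfold u; rw [if_neg h]

lemma constCoeff_u (N : Fin (m + 1) → ℕ) (hN : ∀ l, 0 < N l) (l : Fin (m + 1)) :
    MvPowerSeries.constantCoeff (u k N l) = 0 := by
  unfold u
  split_ifs
  · simp
  · rw [map_pow, MvPowerSeries.constantCoeff_X, zero_pow (hN l).ne']

lemma u_mem (N : Fin (m + 1) → ℕ) (hN : ∀ l, 0 < N l) (l : Fin (m + 1)) :
    u k N l ∈ Ideal.span (Set.range (MvPowerSeries.X : Fin (m + 1) →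
      MvPowerSeries (Fin (m + 1)) k)) := by
  unfold u
  split_ifs
  · exact Ideal.zero_mem _
  · exact Ideal.pow_mem_of_mem _ (Ideal.subset_span (Set.mem_range_self _)) _ (hN l)

lemma hasSubst_add (N : Fin (m + 1) → ℕ) (hN : ∀ l, 0 < N l) :
    MvPowerSeries.HasSubst (fun l : Fin (m + 1) => (MvPowerSeries.X l + u k N l :
      MvPowerSeries (Fin (m + 1)) k)) := by
  refine MvPowerSeries.hasSubst_of_constantCoeff_zero fun l => ?_
  rw [map_add, MvPowerSeries.constantCoeff_X, constCoeff_u N hN, add_zero]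

lemma hasSubst_sub (N : Fin (m + 1) → ℕ) (hN : ∀ l, 0 < N l) :
    MvPowerSeries.HasSubst (fun l : Fin (m + 1) => (MvPowerSeries.X l - u k N l :
      MvPowerSeries (Fin (m + 1)) k)) := by
  refine MvPowerSeries.hasSubst_of_constantCoeff_zero fun l => ?_
  rw [map_sub, MvPowerSeries.constantCoeff_X, constCoeff_u N hN, sub_zero]

lemma add_sub_inv (N : Fin (m + 1) → ℕ) (hN : ∀ l, 0 < N l)
    (f : MvPowerSeries (Fin (m + 1)) k) :
    MvPowerSeries.substAlgHom (R := k) (hasSubst_sub N hN)
      (MvPowerSeries.substAlgHom (R := k) (hasSubst_add N hN) f) = f := by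
  have h1 := MvPowerSeries.substAlgHom_comp_substAlgHom_apply (R := k) (hasSubst_add (k := k) N hN)
    (hasSubst_sub (k := k) N hN) f
  rw [h1, MvPowerSeries.substAlgHom_apply]
  have h2 : (fun s => MvPowerSeries.substAlgHom (R := k) (hasSubst_sub (k := k) N hN)
      (MvPowerSeries.X s + u k N s)) = MvPowerSeries.X := by
    funext s
    rw [map_add, MvPowerSeries.substAlgHom_X]
    have h3 : MvPowerSeries.substAlgHom (R := k) (hasSubst_sub N hN) (u k N s) = u k N s := by
      rcases eq_or_ne s (Fin.last m) with h | h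
      · rw [h, u_last, map_zero]
      · rw [u_ne N h, map_pow, MvPowerSeries.substAlgHom_X, u_last, sub_zero]
    rw [h3, sub_add_cancel]
  rw [h2, MvPowerSeries.subst_self]
  rfl

lemma sub_add_inv (N : Fin (m + 1) → ℕ) (hN : ∀ l, 0 < N l)
    (f : MvPowerSeries (Fin (m + 1)) k) :
    MvPowerSeries.substAlgHom (R := k) (hasSubst_add N hN)
      (MvPowerSeries.substAlgHom (R := k) (hasSubst_sub N hN) f) = f := by
  have h1 := MvPowerSeries.substAlgHom_comp_substAlgHom_apply (R := k) (hasSubst_sub (k := k) N hN)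
    (hasSubst_add (k := k) N hN) f
  rw [h1, MvPowerSeries.substAlgHom_apply]
  have h2 : (fun s => MvPowerSeries.substAlgHom (R := k) (hasSubst_add (k := k) N hN)
      (MvPowerSeries.X s - u k N s)) = MvPowerSeries.X := by
    funext s
    rw [map_sub, MvPowerSeries.substAlgHom_X]
    have h3 : MvPowerSeries.substAlgHom (R := k) (hasSubst_add N hN) (u k N s) = u k N s := by
      rcases eq_or_ne s (Fin.last m) with h | h
      · rw [h, u_last, map_zero]
      · rw [u_ne N h, map_pow, MvPowerSeries.substAlgHom_X, u_last, add_zero]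
    rw [h3, add_sub_cancel_right]
  rw [h2, MvPowerSeries.subst_self]
  rfl

/-- the automorphism `X_l ↦ X_l + X_m ^ (N l)` -/
noncomputable def sig (k : Type*) [Field k] {m : ℕ} (N : Fin (m + 1) → ℕ) (hN : ∀ l, 0 < N l) :
    MvPowerSeries (Fin (m + 1)) k ≃ₐ[k] MvPowerSeries (Fin (m + 1)) k :=
  AlgEquiv.ofAlgHom (MvPowerSeries.substAlgHom (R := k) (hasSubst_add N hN))
    (MvPowerSeries.substAlgHom (R := k) (hasSubst_sub N hN))
    (AlgHom.ext fun f => sub_add_inv N hN f) (AlgHom.ext fun f => add_sub_inv N hN f)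

lemma sp_X_last : sp k m (MvPowerSeries.X (Fin.last m)) = PowerSeries.X := by
  classical
  ext n
  rw [coeff_sp, MvPowerSeries.coeff_X, PowerSeries.coeff_X]
  by_cases h : n = 1
  · subst h
    simp
  · rw [if_neg h, if_neg]
    intro h2
    apply h
    have := DFunLike.congr_fun h2 (Fin.last m)
    simpa using this

lemma sp_X_ne (l : Fin (m + 1)) (hl : l ≠ Fin.last m) : sp k m (MvPowerSeries.X l) = 0 := by
  classical
  ext n
  rw [coeff_sp, MvPowerSeries.coeff_X, map_zero, if_neg]
  intro h2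
  have := DFunLike.congr_fun h2 l
  rw [Finsupp.single_eq_same, Finsupp.single_eq_of_ne hl] at this
  exact zero_ne_one this

lemma sp_add_u (N : Fin (m + 1) → ℕ) (hlast : N (Fin.last m) = 1) (l : Fin (m + 1)) :
    sp k m (MvPowerSeries.X l + u k N l) = PowerSeries.X ^ N l := by
  unfold u
  split_ifs with h
  · rw [h, add_zero, sp_X_last, hlast, pow_one]
  · rw [map_add, sp_X_ne l h, zero_add, map_pow, sp_X_last]

lemma coeff_sp_sig (N : Fin (m + 1) → ℕ) (hN : ∀ l, 0 < N l) (hlast : N (Fin.last m) = 1)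
    (f : MvPowerSeries (Fin (m + 1)) k) (n : ℕ) :
    PowerSeries.coeff n (sp k m (sig k N hN f)) =
      ∑ᶠ d : Fin (m + 1) →₀ ℕ, MvPowerSeries.coeff d f * (if n = ∑ l, N l * d l then 1 else 0) := by
  have h1 : sig k N hN f = MvPowerSeries.subst (fun l : Fin (m + 1) =>
      (MvPowerSeries.X l + u k N l : MvPowerSeries (Fin (m + 1)) k)) f := by
    change MvPowerSeries.substAlgHom (R := k) (hasSubst_add N hN) f = _
    rw [MvPowerSeries.substAlgHom_apply]
  rw [coeff_sp, h1, MvPowerSeries.coeff_subst (hasSubst_add N hN)]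
  refine finsum_congr fun d => ?_
  rw [smul_eq_mul]
  congr 1
  rw [← coeff_sp, Finsupp.prod_fintype _ _ (fun i => pow_zero _), map_prod]
  have h2 : ∀ l : Fin (m + 1), sp k m ((MvPowerSeries.X l + u k N l) ^ d l) =
      PowerSeries.X ^ (N l * d l) := by
    intro l
    rw [map_pow, sp_add_u N hlast, ← pow_mul]
  rw [Finset.prod_congr rfl fun l _ => h2 l, Finset.prod_pow_eq_pow_sum, PowerSeries.coeff_X_pow]

/-- weights separating a given exponent from all lexicographically larger ones -/
lemma weights (m : ℕ) (e : Fin (m + 1) → ℕ) :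
    ∃ N : Fin (m + 1) → ℕ, (∀ l, 0 < N l) ∧ N (Fin.last m) = 1 ∧
      ∀ l, ∑ j ∈ Finset.Ioi l, N j * e j < N l := by
  set M := 1 + ∑ j, e j with hM
  refine ⟨fun l => M ^ (m - (l : ℕ)), fun l => by positivity, by simp, fun l => ?_⟩
  by_cases hl : (l : ℕ) = m
  · have : Finset.Ioi l = ∅ := by
      rw [Finset.eq_empty_iff_forall_notMem]
      intro j hj
      rw [Finset.mem_Ioi, Fin.lt_def] at hj
      have := j.2
      omega
    rw [this, Finset.sum_empty]
    positivity
  · have hlm : (l : ℕ) < m := by have := l.2; omega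
    have h1 : ∀ j ∈ Finset.Ioi l, M ^ (m - (j : ℕ)) * e j ≤ M ^ (m - (l : ℕ) - 1) * e j := by
      intro j hj
      rw [Finset.mem_Ioi, Fin.lt_def] at hj
      exact Nat.mul_le_mul_right _ (Nat.pow_le_pow_right (by omega) (by omega))
    refine lt_of_le_of_lt (Finset.sum_le_sum h1) ?_
    rw [← Finset.mul_sum]
    have h2 : ∑ j ∈ Finset.Ioi l, e j < M := by
      have : ∑ j ∈ Finset.Ioi l, e j ≤ ∑ j, e j :=
        Finset.sum_le_sum_of_subset (Finset.subset_univ _)
      omega
    have h3 : M ^ (m - (l : ℕ)) = M ^ (m - (l : ℕ) - 1) * M := by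
      rw [← pow_succ]
      congr 1
      omega
    change _ < M ^ (m - (l : ℕ))
    rw [h3]
    exact Nat.mul_lt_mul_of_pos_left h2 (by positivity)

lemma weight_lt (N : Fin (m + 1) → ℕ) (e d : Fin (m + 1) → ℕ)
    (hN : ∀ l, ∑ j ∈ Finset.Ioi l, N j * e j < N l) (l : Fin (m + 1))
    (h1 : ∀ j < l, e j = d j) (h2 : e l < d l) : ∑ j, N j * e j < ∑ j, N j * d j := by
  have split : ∀ g : Fin (m + 1) → ℕ, ∑ j, g j =
      ∑ j ∈ Finset.Iio l, g j + (g l + ∑ j ∈ Finset.Ioi l, g j) := by
    intro g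
    have : (Finset.univ : Finset (Fin (m + 1))) =
        Finset.disjUnion (Finset.Iio l) (Finset.Ici l) (by
          rw [Finset.disjoint_left]
          intro a ha hb
          rw [Finset.mem_Iio] at ha
          rw [Finset.mem_Ici] at hb
          exact absurd ha (not_lt.mpr hb)) := by
      ext j
      simp [lt_or_ge]
    rw [this, Finset.sum_disjUnion, ← Finset.sum_Ioi_add_eq_sum_Ici]
    ring
  rw [split, split]
  have e1 : ∑ j ∈ Finset.Iio l, N j * e j = ∑ j ∈ Finset.Iio l, N j * d j :=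
    Finset.sum_congr rfl fun j hj => by rw [h1 j (Finset.mem_Iio.mp hj)]
  have e2 := hN l
  have e3 : N l * (e l + 1) ≤ N l * d l := Nat.mul_le_mul_left _ h2
  rw [e1]
  have e4 : N l * (e l + 1) = N l * e l + N l := by ring
  omega

end Sig

open Sig in
/-- E -/
theorem exists_sigma (k : Type*) [Field k] (m : ℕ) (h : MvPowerSeries (Fin (m + 1)) k)
    (hh : h ≠ 0) :
    ∃ σ : MvPowerSeries (Fin (m + 1)) k ≃ₐ[k] MvPowerSeries (Fin (m + 1)) k,
      sp k m (σ h) ≠ 0 ∧
      (∀ i, σ (MvPowerSeries.X i) ∈ Ideal.span (Set.range MvPowerSeries.X)) ∧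
      (∀ i, σ.symm (MvPowerSeries.X i) ∈ Ideal.span (Set.range MvPowerSeries.X)) := by
  classical
  obtain ⟨e, he⟩ := MvPowerSeries.exists_finsupp_eq_lexOrder_of_ne_zero hh
  have he0 : MvPowerSeries.coeff e h ≠ 0 := MvPowerSeries.coeff_ne_zero_of_lexOrder he.symm
  obtain ⟨N, hN, hlast, hNe⟩ := weights m e
  refine ⟨sig k N hN, ?_, ?_, ?_⟩
  · intro h0
    have h1 := coeff_sp_sig N hN hlast h (∑ l, N l * e l)
    rw [h0, map_zero] at h1
    rw [finsum_eq_single _ e] at h1
    · rw [if_pos rfl, mul_one] at h1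
      exact he0 h1.symm
    · intro d hd
      by_cases hc : MvPowerSeries.coeff d h = 0
      · rw [hc, zero_mul]
      · have h2 := MvPowerSeries.lexOrder_le_of_coeff_ne_zero hc
        rw [he, WithTop.coe_le_coe] at h2
        have h3 : toLex e < toLex d := lt_of_le_of_ne h2 fun h => hd (toLex.injective h).symm
        obtain ⟨l, hl1, hl2⟩ := h3
        have h4 := weight_lt N e d hNe l (fun j hj => hl1 j hj) hl2
        rw [if_neg h4.ne, mul_zero]
  · intro i
    change MvPowerSeries.substAlgHom (R := k) (hasSubst_add N hN) (MvPowerSeries.X i) ∈ _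
    rw [MvPowerSeries.substAlgHom_X]
    exact Ideal.add_mem _ (Ideal.subset_span ⟨i, rfl⟩) (u_mem N hN i)
  · intro i
    change MvPowerSeries.substAlgHom (R := k) (hasSubst_sub N hN) (MvPowerSeries.X i) ∈ _
    rw [MvPowerSeries.substAlgHom_X]
    exact Ideal.sub_mem _ (Ideal.subset_span ⟨i, rfl⟩) (u_mem N hN i)

end HMTWU

end

section

set_option autoImplicit false

open Filter Polynomial

namespace HMTWU

open HMTW

/-- A submodule spanned by `r` elements killed by `I` is a quotient of `(A/I)^r`. -/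
theorem exists_lin {A M : Type*} [CommRing A] [AddCommGroup M] [Module A M] (I : Ideal A) {r : ℕ}
    (v : Fin r → M) (hkill : ∀ i, ∀ a ∈ I, a • v i = 0) :
    ∃ L : (Fin r → A ⧸ I) →ₗ[A] M, LinearMap.range L = Submodule.span A (Set.range v) := by
  classical
  have hk : ∀ i, I ≤ LinearMap.ker (LinearMap.toSpanSingleton A M (v i)) := by
    intro i a ha
    rw [LinearMap.mem_ker, LinearMap.toSpanSingleton_apply]
    exact hkill i a ha
  refine ⟨∑ i, (Submodule.liftQ I (LinearMap.toSpanSingleton A M (v i)) (hk i)).comp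
    (LinearMap.proj i), ?_⟩
  apply le_antisymm
  · rintro _ ⟨x, rfl⟩
    rw [LinearMap.sum_apply]
    refine Submodule.sum_mem _ fun i _ => ?_
    rw [LinearMap.comp_apply, LinearMap.proj_apply]
    obtain ⟨a, ha⟩ := Submodule.mkQ_surjective _ (x i)
    rw [← ha, Submodule.mkQ_apply, Submodule.liftQ_apply, LinearMap.toSpanSingleton_apply]
    exact Submodule.smul_mem _ _ (Submodule.subset_span ⟨i, rfl⟩)
  · rw [Submodule.span_le]
    rintro _ ⟨i, rfl⟩
    refine ⟨Pi.single i (Submodule.Quotient.mk 1), ?_⟩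
    rw [LinearMap.sum_apply, Finset.sum_eq_single i]
    · rw [LinearMap.comp_apply, LinearMap.proj_apply, Pi.single_eq_same, Submodule.liftQ_apply,
        LinearMap.toSpanSingleton_apply, one_smul]
    · intro j _ hj
      rw [LinearMap.comp_apply, LinearMap.proj_apply, Pi.single_eq_of_ne hj, map_zero]
    · intro h
      exact absurd (Finset.mem_univ i) h

theorem length_span_le (k : Type*) {A M : Type*} [Field k] [CommRing A] [Algebra k A]
    [AddCommGroup M] [Module A M] [Module k M] [IsScalarTower k A M] (I : Ideal A) {r : ℕ}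
    (v : Fin r → M) (hkill : ∀ i, ∀ a ∈ I, a • v i = 0) (N : Submodule A M)
    (hN : N ≤ Submodule.span A (Set.range v)) :
    Module.length k N ≤ r * Module.length k (A ⧸ I) := by
  obtain ⟨L, hL⟩ := exists_lin I v hkill
  have h1 : Module.length k (LinearMap.range L) ≤ Module.length k (Fin r → A ⧸ I) :=
    Module.length_le_of_surjective (L.rangeRestrict.restrictScalars k)
      (LinearMap.surjective_rangeRestrict L)
  have h2 : Module.length k N ≤ Module.length k (LinearMap.range L) :=
    Module.length_le_of_injective ((Submodule.inclusion (hN.trans hL.ge)).restrictScalars k)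
      (Submodule.inclusion_injective (hN.trans hL.ge))
  refine (h2.trans h1).trans_eq ?_
  rw [Module.length_pi_of_fintype]
  simp

theorem length_add_quot (k : Type*) {A M : Type*} [Field k] [CommRing A] [Algebra k A]
    [AddCommGroup M] [Module A M] [Module k M] [IsScalarTower k A M] (N : Submodule A M) :
    Module.length k M = Module.length k N + Module.length k (M ⧸ N) := by
  have hex : Function.Exact (N.subtype.restrictScalars k) (N.mkQ.restrictScalars k) := by
    intro x
    rw [LinearMap.restrictScalars_apply, Submodule.mkQ_apply, Submodule.Quotient.mk_eq_zero]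
    exact ⟨fun hx => ⟨⟨x, hx⟩, rfl⟩, fun ⟨y, hy⟩ => hy ▸ y.2⟩
  exact Module.length_eq_add_of_exact (N.subtype.restrictScalars k) (N.mkQ.restrictScalars k)
    N.injective_subtype N.mkQ_surjective hex

theorem length_upper0 (k : Type*) {A M : Type*} [Field k] [CommRing A] [Algebra k A]
    [AddCommGroup M] [Module A M] [Module k M] [IsScalarTower k A M] (I : Ideal A)
    (hkill : ∀ a ∈ I, ∀ x : M, a • x = 0) (g : A) {r μ : ℕ}
    (w : Fin r → M) (u : Fin μ → M) (hu : Submodule.span A (Set.range u) = ⊤)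
    (hg : ∀ i, g • u i ∈ Submodule.span A (Set.range w)) :
    Module.length k M ≤
      r * Module.length k (A ⧸ I) + μ * Module.length k (A ⧸ (Ideal.span {g} ⊔ I)) := by
  rw [length_add_quot k (Submodule.span A (Set.range w))]
  refine add_le_add (length_span_le k I w (fun i a ha => hkill a ha _) _ le_rfl) ?_
  set q := (Submodule.span A (Set.range w)).mkQ with hq
  have h1 : Module.length k (⊤ : Submodule A (M ⧸ Submodule.span A (Set.range w))) ≤
      μ * Module.length k (A ⧸ (Ideal.span {g} ⊔ I)) := by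
    refine length_span_le k (Ideal.span {g} ⊔ I) (fun i => q (u i)) ?_ _ ?_
    · intro i a ha
      obtain ⟨b, hb, c, hc, rfl⟩ := Submodule.mem_sup.1 ha
      obtain ⟨e, rfl⟩ := Ideal.mem_span_singleton'.1 hb
      rw [add_smul, mul_smul, ← map_smul q c, hkill c hc, map_zero, add_zero, ← map_smul q g, hq,
        Submodule.mkQ_apply, (Submodule.Quotient.mk_eq_zero _).2 (hg i), smul_zero]
    · intro y _
      obtain ⟨x, rfl⟩ := Submodule.mkQ_surjective _ y
      have hx : x ∈ Submodule.span A (Set.range u) := by rw [hu]; trivial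
      have h2 : Submodule.span A (Set.range u) ≤
          (Submodule.span A (Set.range fun i => q (u i))).comap q := by
        rw [Submodule.span_le]
        rintro _ ⟨i, rfl⟩
        exact Submodule.subset_span ⟨i, rfl⟩
      exact h2 hx
  refine le_trans (le_of_eq ?_) h1
  exact (Submodule.topEquiv.restrictScalars k).symm.length_eq

theorem length_upper (k : Type*) {A D : Type*} [Field k] [CommRing A] [CommRing D] [Algebra k A]
    [Algebra k D] [Algebra A D] [IsScalarTower k A D] (I : Ideal A) (g : A) {r μ : ℕ}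
    (w : Fin r → D) (u : Fin μ → D) (hu : Submodule.span A (Set.range u) = ⊤)
    (hg : ∀ i, g • u i ∈ Submodule.span A (Set.range w)) :
    Module.length k (D ⧸ I.map (algebraMap A D)) ≤
      r * Module.length k (A ⧸ I) + μ * Module.length k (A ⧸ (Ideal.span {g} ⊔ I)) := by
  set π : D →ₗ[A] (D ⧸ I.map (algebraMap A D)) :=
    (Ideal.Quotient.mkₐ A (I.map (algebraMap A D))).toLinearMap with hπ
  have hπs : Function.Surjective π := by
    intro y
    obtain ⟨d, rfl⟩ := Ideal.Quotient.mk_surjective y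
    exact ⟨d, rfl⟩
  have hspan : ∀ (s : ℕ) (v : Fin s → D), Submodule.span A (Set.range fun i => π (v i)) =
      (Submodule.span A (Set.range v)).map π := by
    intro s v
    rw [Submodule.map_span, ← Set.range_comp]
    rfl
  refine length_upper0 k I ?_ g (fun i => π (w i)) (fun i => π (u i)) ?_ ?_
  · intro a ha x
    obtain ⟨d, rfl⟩ := hπs x
    rw [← map_smul, hπ, AlgHom.toLinearMap_apply, Ideal.Quotient.mkₐ_eq_mk,
      Ideal.Quotient.eq_zero_iff_mem, Algebra.smul_def]
    exact Ideal.mul_mem_right _ _ (Ideal.mem_map_of_mem _ ha)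
  · rw [hspan, hu, Submodule.map_top, LinearMap.range_eq_top]
    exact hπs
  · intro i
    rw [hspan, ← map_smul]
    exact Submodule.mem_map_of_mem (hg i)

theorem upper_general (k : Type u) [Field k] (m : ℕ) (D : Type u) [CommRing D] [Algebra k D]
    [Algebra (MvPowerSeries (Fin (m + 1)) k) D] [IsScalarTower k (MvPowerSeries (Fin (m + 1)) k) D]
    [Module.Finite (MvPowerSeries (Fin (m + 1)) k) D] (g : MvPowerSeries (Fin (m + 1)) k)
    (hg0 : g ≠ 0) {r : ℕ} (w : Fin r → D)
    (hg : ∀ x : D, g • x ∈ Submodule.span (MvPowerSeries (Fin (m + 1)) k) (Set.range w))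
    (ε : ℝ) (hε : 0 < ε) :
    ∀ᶠ n : ℕ in atTop,
      ((Module.length k (D ⧸ ((Ideal.span (Set.range MvPowerSeries.X)) ^ n).map
        (algebraMap (MvPowerSeries (Fin (m + 1)) k) D))).toNat : ℝ) ≤
          ((r : ℝ) / ((m + 1).factorial : ℝ) + ε) * (n : ℝ) ^ (m + 1) := by
  obtain ⟨μ, u, hu⟩ := Module.Finite.exists_fin (R := MvPowerSeries (Fin (m + 1)) k) (M := D)
  have hr1 : (0 : ℝ) < 2 * ((r : ℝ) + 1) := by positivity
  have hm1 : (0 : ℝ) < 2 * ((μ : ℝ) + 1) := by positivity
  filter_upwards [length_pow_le k m (ε / (2 * ((r : ℝ) + 1))) (by positivity),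
    length_pow_sup_le k m g hg0 (ε / (2 * ((μ : ℝ) + 1))) (by positivity)] with n h1 h2
  obtain ⟨h1t, h1⟩ := h1
  obtain ⟨h2t, h2⟩ := h2
  have h3 := length_upper k ((Ideal.span (Set.range (MvPowerSeries.X :
    Fin (m + 1) → MvPowerSeries (Fin (m + 1)) k))) ^ n) g w u hu (fun i => hg (u i))
  obtain ⟨a, ha⟩ := ENat.ne_top_iff_exists.1 h1t
  obtain ⟨b, hb⟩ := ENat.ne_top_iff_exists.1 h2t
  rw [← ha] at h1 h3
  rw [← hb] at h2 h3
  rw [ENat.toNat_natCast] at h1 h2
  have h4 : (Module.length k (D ⧸ ((Ideal.span (Set.range MvPowerSeries.X)) ^ n).map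
        (algebraMap (MvPowerSeries (Fin (m + 1)) k) D))).toNat ≤ r * a + μ * b := by
    have h5 : ((r : ℕ∞) * (a : ℕ∞) + (μ : ℕ∞) * (b : ℕ∞)) = ((r * a + μ * b : ℕ) : ℕ∞) := by
      push_cast; rfl
    rw [h5] at h3
    exact ENat.toNat_le_of_le_natCast h3
  have h6 : ((Module.length k (D ⧸ ((Ideal.span (Set.range MvPowerSeries.X)) ^ n).map
        (algebraMap (MvPowerSeries (Fin (m + 1)) k) D))).toNat : ℝ) ≤ r * a + μ * b := by
    exact_mod_cast h4
  refine h6.trans ?_
  have hn : (0 : ℝ) ≤ (n : ℝ) ^ (m + 1) := by positivity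
  have h7 : (r : ℝ) * a ≤ ((r : ℝ) / ((m + 1).factorial : ℝ) + ε / 2) * (n : ℝ) ^ (m + 1) := by
    calc (r : ℝ) * a ≤ r * ((1 / ((m + 1).factorial : ℝ) + ε / (2 * ((r : ℝ) + 1))) *
          (n : ℝ) ^ (m + 1)) := mul_le_mul_of_nonneg_left h1 (by positivity)
      _ = ((r : ℝ) / ((m + 1).factorial : ℝ) + r * (ε / (2 * ((r : ℝ) + 1)))) *
          (n : ℝ) ^ (m + 1) := by ring
      _ ≤ _ := by
        refine mul_le_mul_of_nonneg_right (add_le_add_right ?_ _) hn
        rw [mul_div_assoc', div_le_div_iff₀ hr1 (by norm_num)]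
        nlinarith
  have h8 : (μ : ℝ) * b ≤ (ε / 2) * (n : ℝ) ^ (m + 1) := by
    calc (μ : ℝ) * b ≤ μ * ((ε / (2 * ((μ : ℝ) + 1))) * (n : ℝ) ^ (m + 1)) :=
          mul_le_mul_of_nonneg_left h2 (by positivity)
      _ = (μ * (ε / (2 * ((μ : ℝ) + 1)))) * (n : ℝ) ^ (m + 1) := by ring
      _ ≤ _ := by
        refine mul_le_mul_of_nonneg_right ?_ hn
        rw [mul_div_assoc', div_le_div_iff₀ hm1 (by norm_num)]
        nlinarith
  calc (r : ℝ) * a + μ * b ≤ ((r : ℝ) / ((m + 1).factorial : ℝ) + ε / 2) * (n : ℝ) ^ (m + 1) +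
        (ε / 2) * (n : ℝ) ^ (m + 1) := add_le_add h7 h8
    _ = _ := by ring

/-- G2 : upper bound, torsion case -/
theorem torsion_upper (k : Type u) [Field k] (m : ℕ) (D : Type u) [CommRing D] [Algebra k D]
    [Algebra (MvPowerSeries (Fin (m + 1)) k) D] [IsScalarTower k (MvPowerSeries (Fin (m + 1)) k) D]
    [Module.Finite (MvPowerSeries (Fin (m + 1)) k) D]
    (h : MvPowerSeries (Fin (m + 1)) k) (hh : h ≠ 0) (h0 : algebraMap _ D h = 0)
    (ε : ℝ) (hε : 0 < ε) :
    ∀ᶠ n : ℕ in atTop,
      ((Module.length k (D ⧸ ((Ideal.span (Set.range MvPowerSeries.X)) ^ n).map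
        (algebraMap (MvPowerSeries (Fin (m + 1)) k) D))).toNat : ℝ) ≤ ε * (n : ℝ) ^ (m + 1) := by
  have := upper_general k m D h hh (r := 0) (fun i => Fin.elim0 i) (fun x => by
    rw [Algebra.smul_def, h0, zero_mul]
    exact zero_mem _) ε hε
  simpa using this

end HMTWU

end
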