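import Pool.Agent.Work.MP_286f1f_ag.Univ.B05
import Pool.Agent.Work.MP_286f1f_ag.Univ.B04

set_option autoImplicit false

open Filter Polynomial

universe u

namespace HMTWU

open HMTW

/-- m-primary ideals of a Noetherian local ring contain a power of the maximal ideal. -/
theorem pow_le_of_radical {R : Type*} [CommRing R] [IsLocalRing R] [IsNoetherianRing R]
    (I : Ideal R) (h : I.radical = IsLocalRing.maximalIdeal R) :
    ∃ n, IsLocalRing.maximalIdeal R ^ n ≤ I := by
  have := I.exists_radical_pow_le_of_fg (by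
    rw [h]; exact IsNoetherian.noetherian _)
  rwa [h] at this

theorem length_ne_top {R : Type*} [CommRing R] [IsLocalRing R] [IsNoetherianRing R]
    (I : Ideal R) (h : ∃ n, IsLocalRing.maximalIdeal R ^ n ≤ I) :
    Module.length R (R ⧸ I) ≠ ⊤ := by
  obtain ⟨n, hn⟩ := h
  rcases eq_or_ne I ⊤ with rfl | hI
  · have : Subsingleton (R ⧸ (⊤ : Ideal R)) := Ideal.Quotient.subsingleton_iff.2 rfl
    rw [Module.length_eq_zero]
    exact ENat.zero_ne_top
  have : Nontrivial (R ⧸ I) := Ideal.Quotient.nontrivial_iff.2 hI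
  have : IsLocalRing (R ⧸ I) := IsLocalRing.of_surjective' _ Ideal.Quotient.mk_surjective
  have hart : IsArtinianRing (R ⧸ I) := by
    rw [isArtinianRing_iff_isNilpotent_maximalIdeal]
    refine ⟨n, ?_⟩
    have hmap : (IsLocalRing.maximalIdeal R).map (Ideal.Quotient.mk I) =
        IsLocalRing.maximalIdeal (R ⧸ I) := by
      have hm : ((IsLocalRing.maximalIdeal R).map (Ideal.Quotient.mk I)).IsMaximal := by
        have := Ideal.map_eq_top_or_isMaximal_of_surjective (Ideal.Quotient.mk I)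
          Ideal.Quotient.mk_surjective (IsLocalRing.maximalIdeal.isMaximal R)
        refine this.resolve_left fun h => ?_
        have h1 : (IsLocalRing.maximalIdeal R) ⊔ I = ⊤ := by
          have := congrArg (Ideal.comap (Ideal.Quotient.mk I)) h
          rwa [Ideal.comap_map_of_surjective _ Ideal.Quotient.mk_surjective, Ideal.comap_top,
            ← RingHom.ker_eq_comap_bot, Ideal.mk_ker] at this
        rw [sup_eq_left.2 (IsLocalRing.le_maximalIdeal hI)] at h1
        exact (IsLocalRing.maximalIdeal.isMaximal R).ne_top h1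
      exact IsLocalRing.eq_maximalIdeal hm
    rw [← hmap, ← Ideal.map_pow, Ideal.zero_eq_bot, Ideal.map_eq_bot_iff_le_ker, Ideal.mk_ker]
    exact hn
  rw [Module.length_eq_of_surjective (R := R ⧸ I) (S := R) (M := R ⧸ I)
    Ideal.Quotient.mk_surjective]
  exact Module.length_ne_top

/-- The two bounds behind the inequality, for any sequence `N e` with `I ^ N e ≤ J^[p^e]`. -/
theorem bounds (R : Type u) [CommRing R] [IsLocalRing R] [IsNoetherianRing R]
    (p : ℕ) [Fact p.Prime] [CharP R p] (m : ℕ) (x : Fin (m + 1) → R)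
    (hx : ∀ i, x i ∈ IsLocalRing.maximalIdeal R)
    (hrad : (Ideal.span (Set.range x)).radical = IsLocalRing.maximalIdeal R)
    (I : Ideal R) (hI : I.radical = IsLocalRing.maximalIdeal R) (c : ℝ) (N : ℕ → ℕ)
    (hN : ∀ e, I ^ N e ≤ Ideal.span (Set.range (fun i => x i ^ p ^ e)))
    (hc : Filter.Tendsto (fun e : ℕ => (N e : ℝ) / (p : ℝ) ^ e) Filter.atTop (nhds c)) :
    ∃ ρ : ℕ, (ρ ≠ 0 → 0 < c) ∧
      (∀ ε : ℝ, 0 < ε → ∀ᶠ n : ℕ in atTop, ((m + 1).factorial : ℝ)
        * ((Module.length R (R ⧸ (Ideal.span (Set.range x)) ^ n)).toNat : ℝ)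
          / (n : ℝ) ^ (m + 1) ≤ ρ + ε) ∧
      (∀ ε : ℝ, 0 < ε → ∀ᶠ n : ℕ in atTop, ((m + 1).factorial : ℝ) * (ρ * kapp (m + 1) c) - ε ≤
        ((m + 1).factorial : ℝ)
          * ((Module.length R (R ⧸ I ^ n)).toNat : ℝ) / (n : ℝ) ^ (m + 1)) := by
  classical
  obtain ⟨k, _, _, S, _, _, _, φ, hfin, hX, hres, hlen⟩ := exists_model R p (m + 1) x hx hrad
  have hnoe : IsNoetherianRing S :=
    isNoetherian_of_tower (MvPowerSeries (Fin (m + 1)) k)
      (isNoetherian_of_isNoetherianRing_of_finite (MvPowerSeries (Fin (m + 1)) k) S)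
  have hp : 0 < p := (Fact.out : p.Prime).pos
  have hfg : (IsLocalRing.maximalIdeal R).FG := IsNoetherian.noetherian _
  -- maximal ideal powers
  have hmx : ∃ n, IsLocalRing.maximalIdeal R ^ n ≤ Ideal.span (Set.range x) :=
    pow_le_of_radical _ hrad
  have hmI : ∃ n, IsLocalRing.maximalIdeal R ^ n ≤ I := pow_le_of_radical _ hI
  have hIm : I ≤ IsLocalRing.maximalIdeal R := by
    rw [← hI]; exact Ideal.le_radical
  have hpowmem : ∀ (K : Ideal R), (∃ n, IsLocalRing.maximalIdeal R ^ n ≤ K) → ∀ j,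
      ∃ n, IsLocalRing.maximalIdeal R ^ n ≤ K ^ j := by
    rintro K ⟨n, hn⟩ j
    exact ⟨n * j, by rw [pow_mul]; exact Ideal.pow_right_mono hn j⟩
  -- the ideal generated by the parameters in `S`
  have hmapX : (Ideal.span (Set.range MvPowerSeries.X)).map
      (algebraMap (MvPowerSeries (Fin (m + 1)) k) S) = (Ideal.span (Set.range x)).map φ := by
    rw [Ideal.map_span, Ideal.map_span, ← Set.range_comp, ← Set.range_comp]
    congr 2
    funext i
    exact hX i
  obtain ⟨s, hs⟩ := hmI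
  have hxm : Ideal.span (Set.range x) ≤ IsLocalRing.maximalIdeal R := by
    rw [Ideal.span_le]; rintro _ ⟨i, rfl⟩; exact hx i
  have hs' : ((Ideal.span (Set.range MvPowerSeries.X)) ^ s).map
        (algebraMap (MvPowerSeries (Fin (m + 1)) k) S) ≤ I.map φ := by
    rw [Ideal.map_pow, hmapX, ← Ideal.map_pow]
    exact Ideal.map_mono ((Ideal.pow_right_mono hxm s).trans hs)
  have hN' : ∀ e, (I.map φ) ^ N e ≤ Ideal.span (Set.range fun i =>
      algebraMap (MvPowerSeries (Fin (m + 1)) k) S (MvPowerSeries.X i ^ p ^ e)) := by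
    intro e
    rw [← Ideal.map_pow]
    refine (Ideal.map_mono (hN e)).trans (le_of_eq ?_)
    rw [Ideal.map_span, ← Set.range_comp]
    congr 2
    funext i
    simp [hX]
  have hfJ : ∀ n, Module.length S (S ⧸ ((Ideal.span (Set.range MvPowerSeries.X)).map
        (algebraMap (MvPowerSeries (Fin (m + 1)) k) S)) ^ n) =
        Module.length R (R ⧸ (Ideal.span (Set.range x)) ^ n) := by
    intro n
    rw [hmapX, ← Ideal.map_pow, hlen _ (hpowmem _ hmx n)]
  have hfI : ∀ n, Module.length S (S ⧸ (I.map φ) ^ n) = Module.length R (R ⧸ I ^ n) := by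
    intro n
    rw [← Ideal.map_pow, hlen _ (hpowmem _ ⟨s, hs⟩ n)]
  obtain ⟨ρ, hρ, hU, hL⟩ := prime_filtration_bound S (m + 1)
    ((Ideal.span (Set.range MvPowerSeries.X)).map
        (algebraMap (MvPowerSeries (Fin (m + 1)) k) S)) (I.map φ)
    (fun n => by rw [hfJ]; exact length_ne_top _ (hpowmem _ hmx n))
    (fun n => by rw [hfI]; exact length_ne_top _ (hpowmem _ ⟨s, hs⟩ n))
    (kapp (m + 1) c) (0 < c)
    (fun P hP => domain_bound k p m S hres P (I.map φ) s hs' N c hc hN')
  have hfac : (0 : ℝ) < ((m + 1).factorial : ℝ) := by exact_mod_cast Nat.factorial_pos _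
  refine ⟨ρ, hρ, ?_, ?_⟩
  · intro ε hε
    filter_upwards [hU (ε / ((m + 1).factorial : ℝ)) (by positivity),
      Filter.eventually_gt_atTop 0] with n hn hn0
    have hn1 : (0 : ℝ) < (n : ℝ) ^ (m + 1) := by positivity
    rw [div_le_iff₀ hn1]
    have h2 : Module.length S (S ⧸ (((Ideal.span (Set.range MvPowerSeries.X)).map
        (algebraMap (MvPowerSeries (Fin (m + 1)) k) S)) ^ n • ⊤ : Submodule S S)) =
        Module.length R (R ⧸ (Ideal.span (Set.range x)) ^ n) := by
      rw [← hfJ, smul_eq_mul, Ideal.mul_top]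
    rw [h2] at hn
    calc ((m + 1).factorial : ℝ)
          * ((Module.length R (R ⧸ (Ideal.span (Set.range x)) ^ n)).toNat : ℝ)
        ≤ ((m + 1).factorial : ℝ) * (((ρ : ℝ) / ((m + 1).factorial : ℝ) +
            ε / ((m + 1).factorial : ℝ)) * (n : ℝ) ^ (m + 1)) :=
          mul_le_mul_of_nonneg_left hn hfac.le
      _ = (ρ + ε) * (n : ℝ) ^ (m + 1) := by field_simp
  · intro ε hε
    filter_upwards [hL (ε / ((m + 1).factorial : ℝ)) (by positivity),
      Filter.eventually_gt_atTop 0] with n hn hn0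
    have hn1 : (0 : ℝ) < (n : ℝ) ^ (m + 1) := by positivity
    rw [le_div_iff₀ hn1]
    have h2 : Module.length S (S ⧸ ((I.map φ) ^ n • ⊤ : Submodule S S)) =
        Module.length R (R ⧸ I ^ n) := by
      rw [← hfI, smul_eq_mul, Ideal.mul_top]
    rw [h2] at hn
    calc (((m + 1).factorial : ℝ) * ((ρ : ℝ) * kapp (m + 1) c) - ε) * (n : ℝ) ^ (m + 1)
        = ((m + 1).factorial : ℝ) * (((ρ : ℝ) * kapp (m + 1) c -
            ε / ((m + 1).factorial : ℝ)) * (n : ℝ) ^ (m + 1)) := by field_simp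
      _ ≤ _ := mul_le_mul_of_nonneg_left hn hfac.le

end HMTWU
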